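import Pool.Agent.Q106.CH.Rem

/-!
# The second moment for blocks of orthogonal sums
-/

set_option autoImplicit false

namespace Pool.Agent.Q106.CH

open Finset MeasureTheory ProbabilityTheory Filter Pool.Agent.Q120.GM Pool.Agent.Q106.UR Pool.Agent.Q106.MD

variable {Ω : Type*} [MeasurableSpace Ω] {μ : Measure Ω} [IsProbabilityMeasure μ] {ι κ K : Type*} [DecidableEq ι]
  [DecidableEq κ] [DecidableEq K] {p : ι → ℝ} {A : Ω → Set ι} {r : ℕ} {J : K → Fin r → Finset κ}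
  {T : K → Fin r → κ → Finset ι}

/-- The sums. -/
noncomputable def Qs (p : ι → ℝ) (A : Ω → Set ι) (J : K → Fin r → Finset κ) (T : K → Fin r → κ → Finset ι) (n : K)
    (i : Fin r) (ω : Ω) : ℝ := ∑ j ∈ J n i, xi p A (T n i j) ω

/-- Their variances. -/
noncomputable def Vs (p : ι → ℝ) (J : K → Fin r → Finset κ) (T : K → Fin r → κ → Finset ι) (n : K)
    (i : Fin r) : ℝ := ∑ j ∈ J n i, vT p (T n i j)

omit [DecidableEq ι] [DecidableEq κ] [DecidableEq K] in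
theorem Qs_meas (hA : IsModel μ p A) (n : K) (i : Fin r) : Measurable (Qs p A J T n i) := by
  unfold Qs
  exact Finset.measurable_fun_sum _ (fun j _ => xi_meas hA _)

omit [DecidableEq ι] [DecidableEq κ] [DecidableEq K] in
theorem Qs_abs (hA : IsModel μ p A) (n : K) (i : Fin r) (ω : Ω) : |Qs p A J T n i ω| ≤ (J n i).card := by
  unfold Qs
  refine (abs_sum_le_sum_abs _ _).trans ((sum_le_sum (fun j _ => xi_abs hA _ ω)).trans ?_)
  simp

/-- **Exponential moments of linear combinations of the sums.** -/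
theorem sys_mgf (hA : IsModel μ p A) (P : Finset K) (c : K → Fin r → ℝ) {h D E : ℝ} (hh : 0 ≤ h)
    (hc : ∀ n ∈ P, ∀ i, |c n i| ≤ h) (hP : 1 ≤ P.card) (hP2 : P.card ≤ 2) (hD : 1 ≤ D) (hhD : 112 * (D * h) ≤ 1)
    (hne : ∀ n ∈ P, ∀ i, ∀ j ∈ J n i, (T n i j).Nonempty)
    (hinj : ∀ n ∈ P, ∀ n' ∈ P, ∀ i i' j j', j ∈ J n i → j' ∈ J n' i' → T n i j = T n' i' j' → n = n' ∧ i = i' ∧ j = j')
    (hdeg : ∀ n ∈ P, ∀ n' ∈ P, ∀ i, ∀ j ∈ J n i,
      (((univ.sigma (J n')).filter (fun x => ¬ Disjoint (T n' x.1 x.2) (T n i j))).card : ℝ) ≤ D)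
    (hE : ∀ n ∈ P, 116 * (D ^ 2 * h ^ 3) * ((univ.sigma (J n)).card : ℝ) ≤ E) :
    Real.exp ((∑ n ∈ P, ∑ i, c n i ^ 2 * Vs p J T n i) / 2 - P.card * E) ≤
      ∫ ω, Real.exp (∑ n ∈ P, ∑ i, c n i * Qs p A J T n i ω) ∂μ ∧
    ∫ ω, Real.exp (∑ n ∈ P, ∑ i, c n i * Qs p A J T n i ω) ∂μ ≤
      Real.exp ((∑ n ∈ P, ∑ i, c n i ^ 2 * Vs p J T n i) / 2 + P.card * E) := by
  obtain ⟨J', hJ'⟩ : ∃ J' : Finset (Σ _ : K, Σ _ : Fin r, κ), J' = P.sigma (fun n => univ.sigma (J n)) := ⟨_, rfl⟩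
  have hmem : ∀ x : (Σ _ : K, Σ _ : Fin r, κ), x ∈ J' ↔ x.1 ∈ P ∧ x.2.2 ∈ J x.1 x.2.1 := by
    intro x
    rw [hJ', mem_sigma, mem_sigma]
    simp
  have hPc : (1 : ℝ) ≤ P.card := by exact_mod_cast hP
  have hPc2 : (P.card : ℝ) ≤ 2 := by exact_mod_cast hP2
  have h1 := chaos_mgf hA J' (fun x => T x.1 x.2.1 x.2.2) (fun x => c x.1 x.2.1) (h := h) (D := D * 2) hh
    (fun x hx => hc x.1 ((hmem x).1 hx).1 x.2.1) (by linarith) (by nlinarith)
    (fun x hx => hne x.1 ((hmem x).1 hx).1 _ _ ((hmem x).1 hx).2)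
    (fun x hx y hy hxy => by
      obtain ⟨n, i, j⟩ := x
      obtain ⟨n', i', j'⟩ := y
      obtain ⟨a1, a2⟩ := (hmem _).1 hx
      obtain ⟨b1, b2⟩ := (hmem _).1 hy
      obtain ⟨e1, e2, e3⟩ := hinj n a1 n' b1 i i' j j' a2 b2 hxy
      subst e1
      subst e2
      subst e3
      rfl)
    (fun x hx => by
      obtain ⟨a1, a2⟩ := (hmem x).1 hx
      have e1 : ((nb (fun x => T x.1 x.2.1 x.2.2) J' x).card : ℝ) =
          ∑ n' ∈ P, (((univ.sigma (J n')).filter (fun y => ¬ Disjoint (T n' y.1 y.2) (T x.1 x.2.1 x.2.2))).card : ℝ) := by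
        unfold nb
        rw [card_filter, hJ', sum_sigma]
        push_cast
        refine sum_congr rfl (fun n' _ => ?_)
        rw [card_filter]
        push_cast
        rfl
      rw [e1]
      refine (sum_le_sum (fun n' hn' => hdeg x.1 a1 n' hn' x.2.1 x.2.2 a2)).trans ?_
      rw [sum_const, nsmul_eq_mul]
      nlinarith)
    rfl
  have e2 : ∀ ω, ∑ x ∈ J', c x.1 x.2.1 * xi p A (T x.1 x.2.1 x.2.2) ω = ∑ n ∈ P, ∑ i, c n i * Qs p A J T n i ω := by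
    intro ω
    rw [hJ', sum_sigma]
    refine sum_congr rfl (fun n _ => ?_)
    rw [sum_sigma]
    refine sum_congr rfl (fun i _ => ?_)
    unfold Qs
    rw [mul_sum]
  have e3 : ∑ x ∈ J', c x.1 x.2.1 ^ 2 * vT p (T x.1 x.2.1 x.2.2) = ∑ n ∈ P, ∑ i, c n i ^ 2 * Vs p J T n i := by
    rw [hJ', sum_sigma]
    refine sum_congr rfl (fun n _ => ?_)
    rw [sum_sigma]
    refine sum_congr rfl (fun i _ => ?_)
    unfold Vs
    rw [mul_sum]
  have e4 : 29 * ((D * 2) ^ 2 * h ^ 3) * (J'.card : ℝ) ≤ P.card * E := by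
    have e5 : (J'.card : ℝ) = ∑ n ∈ P, ((univ.sigma (J n)).card : ℝ) := by
      rw [hJ', card_sigma]
      push_cast
      rfl
    rw [e5, mul_sum, ← nsmul_eq_mul, ← sum_const]
    refine sum_le_sum (fun n hn => ?_)
    refine le_trans (le_of_eq ?_) (hE n hn)
    ring
  simp_rw [e2] at h1
  rw [e3] at h1
  exact ⟨(Real.exp_le_exp.2 (by linarith)).trans h1.1, h1.2.trans (Real.exp_le_exp.2 (by linarith))⟩

/-- The normalized sums. -/
noncomputable def dq (p : ι → ℝ) (A : Ω → Set ι) (J : K → Fin r → Finset κ) (T : K → Fin r → κ → Finset ι) (L : ℝ)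
    (n : K) (i : Fin r) (ω : Ω) : ℝ := Qs p A J T n i ω / Real.sqrt (2 * Vs p J T n i * L)

/-- A second moment inequality. -/
theorem cheb2 (N : Finset K) (hN : N.Nonempty) (Z : K → Ω → ℝ) (hm : ∀ n ∈ N, Measurable (Z n)) (hi : ∀ n ∈ N, Integrable (Z n) μ)
    (hi2 : ∀ n ∈ N, ∀ n' ∈ N, Integrable (fun ω => Z n ω * Z n' ω) μ) {B δ e : ℝ} (hB : 0 ≤ B) (hδ : 0 ≤ δ) (he : 0 ≤ e)
    (h1 : ∀ n ∈ N, 1 - δ ≤ ∫ ω, Z n ω ∂μ) (h2 : ∀ n ∈ N, ∫ ω, Z n ω * Z n ω ∂μ ≤ 2 * B)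
    (h3 : ∀ n ∈ N, ∀ n' ∈ N, n ≠ n' → ∫ ω, Z n ω * Z n' ω ∂μ ≤ 1 + e) :
    μ.real {ω | ∑ n ∈ N, Z n ω ≤ N.card / 2} ≤ 32 * (B / N.card + e + δ) := by
  have hN0 : (0 : ℝ) < N.card := by exact_mod_cast card_pos.2 hN
  by_cases hδ4 : 1 / 4 ≤ δ
  · have e1 : μ.real {ω | ∑ n ∈ N, Z n ω ≤ N.card / 2} ≤ 1 := measureReal_le_one
    have e2 : 0 ≤ B / N.card := by positivity
    linarith
  push Not at hδ4
  obtain ⟨m, hm'⟩ : ∃ m, m = ∑ n ∈ N, ∫ ω, Z n ω ∂μ := ⟨_, rfl⟩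
  obtain ⟨W, hW⟩ : ∃ W : Ω → ℝ, W = fun ω => ∑ n ∈ N, Z n ω := ⟨_, rfl⟩
  have hWm : Measurable W := by
    rw [hW]
    exact Finset.measurable_fun_sum _ hm
  have hWi : Integrable W μ := by
    rw [hW]
    exact integrable_finsetSum _ hi
  have hsq : ∀ ω, W ω * W ω = ∑ n ∈ N, ∑ n' ∈ N, Z n ω * Z n' ω := by
    intro ω
    rw [hW]
    simp only
    rw [sum_mul_sum]
  have hW2 : Integrable (fun ω => W ω * W ω) μ := by
    simp_rw [hsq]
    exact integrable_finsetSum _ (fun n hn => integrable_finsetSum _ (fun n' hn' => hi2 n hn n' hn'))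
  have hEW : ∫ ω, W ω ∂μ = m := by
    rw [hW, hm']
    exact integral_finsetSum _ hi
  have hEW2 : ∫ ω, W ω * W ω ∂μ ≤ N.card * (2 * B) + (N.card : ℝ) ^ 2 * (1 + e) := by
    simp_rw [hsq]
    rw [integral_finsetSum _ (fun n hn => integrable_finsetSum _ (fun n' hn' => hi2 n hn n' hn'))]
    have e1 : ∀ n ∈ N, ∫ ω, ∑ n' ∈ N, Z n ω * Z n' ω ∂μ ≤ 2 * B + N.card * (1 + e) := by
      intro n hn
      rw [integral_finsetSum _ (fun n' hn' => hi2 n hn n' hn')]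
      have e2 : ∀ n' ∈ N, ∫ ω, Z n ω * Z n' ω ∂μ ≤ (if n' = n then 2 * B else 0) + (1 + e) := by
        intro n' hn'
        by_cases hnn : n' = n
        · subst hnn
          rw [if_pos rfl]
          linarith [h2 n' hn']
        · rw [if_neg hnn, zero_add]
          exact h3 n hn n' hn' (Ne.symm hnn)
      refine (sum_le_sum e2).trans (le_of_eq ?_)
      rw [sum_add_distrib, Finset.sum_ite_eq' N n, if_pos hn, sum_const, nsmul_eq_mul]
    refine (sum_le_sum e1).trans (le_of_eq ?_)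
    rw [sum_const, nsmul_eq_mul]
    ring
  have hm1 : N.card * (1 - δ) ≤ m := by
    rw [hm', ← nsmul_eq_mul, ← sum_const]
    exact sum_le_sum h1
  have hint : Integrable (fun ω => (W ω - m) ^ 2) μ := by
    have e1 : (fun ω => (W ω - m) ^ 2) = fun ω => W ω * W ω - 2 * m * W ω + m ^ 2 := by
      funext ω
      ring
    rw [e1]
    exact (hW2.sub (hWi.const_mul _)).add (integrable_const _)
  have hvar : ∫ ω, (W ω - m) ^ 2 ∂μ ≤ (N.card : ℝ) ^ 2 * (2 * (B / N.card) + e + 2 * δ) := by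
    have e1 : ∀ ω, (W ω - m) ^ 2 = W ω * W ω - 2 * m * W ω + m ^ 2 := by
      intro ω
      ring
    simp_rw [e1]
    have i1 : Integrable (fun ω => 2 * m * W ω) μ := hWi.const_mul _
    have i2 : Integrable (fun ω => W ω * W ω - 2 * m * W ω) μ := hW2.sub i1
    rw [integral_add i2 (integrable_const _), integral_sub hW2 i1, integral_const_mul, hEW, integral_const]
    have e2 : (N.card : ℝ) ^ 2 * (2 * (B / N.card) + e + 2 * δ) =
        N.card * (2 * B) + (N.card : ℝ) ^ 2 * (1 + e) - (N.card : ℝ) ^ 2 * (1 - 2 * δ) := by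
      field_simp
      ring
    rw [e2]
    have e3 : (N.card : ℝ) ^ 2 * (1 - 2 * δ) ≤ m ^ 2 := by
      have e4 : 0 ≤ N.card * (1 - δ) := by nlinarith
      have e5 : (N.card * (1 - δ)) ^ 2 ≤ m ^ 2 := pow_le_pow_left₀ e4 hm1 2
      nlinarith [sq_nonneg ((N.card : ℝ) * δ)]
    have e6 : μ.real Set.univ • m ^ 2 = m ^ 2 := by simp
    rw [e6]
    nlinarith
  obtain ⟨t, ht⟩ : ∃ t, t = (N.card : ℝ) ^ 2 / 16 := ⟨_, rfl⟩
  have ht0 : 0 < t := by rw [ht]; positivity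
  have h4 := mul_meas_ge_le_integral_of_nonneg (μ := μ) (f := fun ω => (W ω - m) ^ 2)
    (Eventually.of_forall (fun ω => sq_nonneg _)) hint t
  have h5 : μ.real {ω | ∑ n ∈ N, Z n ω ≤ N.card / 2} ≤ μ.real {ω | t ≤ (W ω - m) ^ 2} := by
    refine measureReal_mono ?_ (measure_ne_top _ _)
    intro ω hω
    have hω' : W ω ≤ N.card / 2 := by rw [hW]; exact hω
    show t ≤ (W ω - m) ^ 2
    have e1 : (N.card : ℝ) / 4 ≤ m - W ω := by nlinarith
    have e2 : ((N.card : ℝ) / 4) ^ 2 ≤ (m - W ω) ^ 2 := pow_le_pow_left₀ (by positivity) e1 2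
    rw [ht]
    nlinarith
  have h6 : t * μ.real {ω | ∑ n ∈ N, Z n ω ≤ N.card / 2} ≤ (N.card : ℝ) ^ 2 * (2 * (B / N.card) + e + 2 * δ) :=
    (mul_le_mul_of_nonneg_left h5 ht0.le).trans (h4.trans hvar)
  have h7 : (N.card : ℝ) ^ 2 * (2 * (B / N.card) + e + 2 * δ) = t * (16 * (2 * (B / N.card) + e + 2 * δ)) := by
    rw [ht]
    ring
  rw [h7] at h6
  have h8 := le_of_mul_le_mul_left h6 ht0
  linarith

end Pool.Agent.Q106.CH
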