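import Pool.Agent.Q106.CH.Blk

/-!
# Prescribed deviations in a block
-/

set_option autoImplicit false

namespace Pool.Agent.Q106.CH

open Finset MeasureTheory ProbabilityTheory Filter Pool.Agent.Q120.GM Pool.Agent.Q106.UR Pool.Agent.Q106.MD

variable {Ω : Type*} [MeasurableSpace Ω] {μ : Measure Ω} [IsProbabilityMeasure μ] {K : Type*} [DecidableEq K] {r : ℕ}

/-- The exponential moments of the members of a block and of their pairs. -/
structure MG (μ : Measure Ω) (N : Finset K) (Y : K → Fin r → Ω → ℝ) (L e : ℝ) (b : Fin r → ℝ) : Prop where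
  meas : ∀ n i, Measurable (Y n i)
  bdd : ∀ n, ∃ C : ℝ, ∀ i ω, |Y n i ω| ≤ C
  pos : 0 < L
  e0 : 0 ≤ e
  e1 : e ≤ 1 / 2
  one : ∀ n ∈ N, ∀ θ : Fin r → ℝ, (∀ i, |θ i| ≤ b i) →
    Real.exp (L * ((∑ i, θ i ^ 2) / 4) - e) ≤ ∫ ω, Real.exp (L * ∑ i, θ i * Y n i ω) ∂μ ∧
    ∫ ω, Real.exp (L * ∑ i, θ i * Y n i ω) ∂μ ≤ Real.exp (L * ((∑ i, θ i ^ 2) / 4) + e)
  two : ∀ n ∈ N, ∀ n' ∈ N, n ≠ n' → ∀ θ : Fin r → ℝ, (∀ i, |θ i| ≤ b i) →
    ∫ ω, Real.exp (L * ∑ i, θ i * Y n i ω + L * ∑ i, θ i * Y n' i ω) ∂μ ≤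
      Real.exp (2 * (L * ((∑ i, θ i ^ 2) / 4)) + 2 * e)

omit [DecidableEq K] in
theorem MG.bdd2 {N : Finset K} {Y : K → Fin r → Ω → ℝ} {L e : ℝ} {b : Fin r → ℝ} (hB : MG μ N Y L e b) (n : K)
    (θ : Fin r → ℝ) : ∃ C : ℝ, ∀ ω, |L * ∑ i, θ i * Y n i ω| ≤ C := by
  obtain ⟨C, hC⟩ := hB.bdd n
  refine ⟨|L| * ∑ i, |θ i| * C, fun ω => ?_⟩
  rw [abs_mul]
  refine mul_le_mul_of_nonneg_left ?_ (abs_nonneg _)
  refine (abs_sum_le_sum_abs _ _).trans (sum_le_sum (fun i _ => ?_))
  rw [abs_mul]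
  exact mul_le_mul_of_nonneg_left (hC i ω) (abs_nonneg _)

omit [DecidableEq K] in
theorem MG.int1 {N : Finset K} {Y : K → Fin r → Ω → ℝ} {L e : ℝ} {b : Fin r → ℝ} (hB : MG μ N Y L e b) (n : K)
    (θ : Fin r → ℝ) (a : ℝ) : Integrable (fun ω => Real.exp (L * ∑ i, θ i * Y n i ω + a)) μ := by
  have hm : Measurable (fun ω => L * ∑ i, θ i * Y n i ω + a) :=
    ((Finset.measurable_fun_sum _ (fun i _ => (hB.meas n i).const_mul _)).const_mul _).add_const _
  obtain ⟨C, hC⟩ := hB.bdd2 n θ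
  refine int_bdd hm.exp (Real.exp (C + |a|)) (fun ω => ?_)
  rw [abs_of_pos (Real.exp_pos _)]
  exact Real.exp_le_exp.2 ((le_abs_self _).trans ((abs_add_le _ _).trans (add_le_add (hC ω) le_rfl)))

omit [DecidableEq K] in
theorem MG.int2 {N : Finset K} {Y : K → Fin r → Ω → ℝ} {L e : ℝ} {b : Fin r → ℝ} (hB : MG μ N Y L e b) (n n' : K)
    (θ : Fin r → ℝ) (a : ℝ) :
    Integrable (fun ω => Real.exp (L * ∑ i, θ i * Y n i ω + L * ∑ i, θ i * Y n' i ω + a)) μ := by
  have hm : ∀ m, Measurable (fun ω => L * ∑ i, θ i * Y m i ω) := fun m =>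
    (Finset.measurable_fun_sum _ (fun i _ => (hB.meas m i).const_mul _)).const_mul _
  obtain ⟨C, hC⟩ := hB.bdd2 n θ
  obtain ⟨C', hC'⟩ := hB.bdd2 n' θ
  refine int_bdd (((hm n).add (hm n')).add_const _).exp (Real.exp (C + C' + |a|)) (fun ω => ?_)
  rw [abs_of_pos (Real.exp_pos _)]
  refine Real.exp_le_exp.2 ((le_abs_self _).trans ((abs_add_le _ _).trans (add_le_add ?_ le_rfl)))
  exact (abs_add_le _ _).trans (add_le_add (hC ω) (hC' ω))

/-- **Prescribed deviations in a block.** -/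
theorem block {N : Finset K} (hN : N.Nonempty) {Y : K → Fin r → Ω → ℝ} {L e ε : ℝ} (d : Fin r → ℝ) (hε : 0 < ε)
    (hB : MG μ N Y L e (fun i => 2 * |d i| + 2 * ε)) :
    μ.real {ω | num N (fun n => {ω | ∀ i, |Y n i ω - d i| < ε}) ω ≤
        N.card * Real.exp (-(L * (∑ i, d i ^ 2 + 2 * ε * ∑ i, |d i|))) / 2} ≤
      32 * (Real.exp (L * (∑ i, d i ^ 2 + 2 * ε * ∑ i, |d i|)) / N.card + 5 * e + 4 * r * Real.exp (-(L * ε ^ 2))) := by
  classical
  have hL := hB.pos
  obtain ⟨S, hS⟩ : ∃ S, S = ∑ i, d i ^ 2 := ⟨_, rfl⟩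
  obtain ⟨S1, hS1⟩ : ∃ S1, S1 = ∑ i, |d i| := ⟨_, rfl⟩
  obtain ⟨B, hBe⟩ : ∃ B, B = Real.exp (L * (S + 2 * ε * S1)) := ⟨_, rfl⟩
  have hB0 : 0 < B := by rw [hBe]; exact Real.exp_pos _
  rw [← hS, ← hS1, ← hBe]
  obtain ⟨G, hG⟩ : ∃ G : K → Set Ω, G = fun n => {ω | ∀ i, |Y n i ω - d i| < ε} := ⟨_, rfl⟩
  have hGm : ∀ n, MeasurableSet (G n) := by
    intro n
    have h1 : G n = ⋂ i, {ω | |Y n i ω - d i| < ε} := by
      rw [hG]
      ext ω
      simp
    rw [h1]
    exact MeasurableSet.iInter (fun i => measurableSet_lt ((hB.meas n i).sub_const _).abs measurable_const)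
  obtain ⟨X, hX⟩ : ∃ X : K → Ω → ℝ, X = fun n ω => L * ∑ i, (2 * d i) * Y n i ω := ⟨_, rfl⟩
  obtain ⟨Z, hZ⟩ : ∃ Z : K → Ω → ℝ, Z = fun n => (G n).indicator (fun ω => Real.exp (X n ω - L * S)) := ⟨_, rfl⟩
  have hXm : ∀ n, Measurable (X n) := by
    intro n
    rw [hX]
    exact (Finset.measurable_fun_sum _ (fun i _ => (hB.meas n i).const_mul _)).const_mul _
  have hXi : ∀ n, Integrable (fun ω => Real.exp (X n ω - L * S)) μ := by
    intro n
    have h1 := hB.int1 n (fun i => 2 * d i) (-(L * S))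
    rw [hX]
    simpa only [sub_eq_add_neg] using h1
  have hZm : ∀ n, Measurable (Z n) := by
    intro n
    rw [hZ]
    exact ((hXm n).sub_const _).exp.indicator (hGm n)
  have hZ0 : ∀ n ω, 0 ≤ Z n ω := by
    intro n ω
    rw [hZ]
    exact Set.indicator_nonneg (fun _ _ => (Real.exp_pos _).le) _
  have hZX : ∀ n ω, Z n ω ≤ Real.exp (X n ω - L * S) := by
    intro n ω
    rw [hZ]
    simp only
    by_cases hω : ω ∈ G n
    · rw [Set.indicator_of_mem hω]
    · rw [Set.indicator_of_notMem hω]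
      exact (Real.exp_pos _).le
  have hZB : ∀ n ω, Z n ω ≤ B * (G n).indicator (fun _ => (1 : ℝ)) ω := by
    intro n ω
    rw [hZ]
    simp only
    by_cases hω : ω ∈ G n
    · rw [Set.indicator_of_mem hω, Set.indicator_of_mem hω, mul_one, hBe]
      refine Real.exp_le_exp.2 ?_
      have h1 : ∑ i, (2 * d i) * Y n i ω ≤ 2 * S + 2 * ε * S1 := by
        have h2 : ∀ i ∈ (univ : Finset (Fin r)), (2 * d i) * Y n i ω ≤ 2 * d i ^ 2 + 2 * ε * |d i| := by
          intro i _
          have hω' : ω ∈ {ω | ∀ i, |Y n i ω - d i| < ε} := by rw [hG] at hω; exact hω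
          have h3 := hω' i
          have h4 : d i * (Y n i ω - d i) ≤ |d i| * ε := by
            refine (le_abs_self _).trans ?_
            rw [abs_mul]
            exact mul_le_mul_of_nonneg_left h3.le (abs_nonneg _)
          nlinarith
        refine (sum_le_sum h2).trans (le_of_eq ?_)
        rw [sum_add_distrib, ← mul_sum, ← mul_sum, hS, hS1]
      have h2 : X n ω = L * ∑ i, (2 * d i) * Y n i ω := by rw [hX]
      rw [h2]
      have h3 := mul_le_mul_of_nonneg_left h1 hL.le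
      nlinarith
    · rw [Set.indicator_of_notMem hω, Set.indicator_of_notMem hω, mul_zero]
  have hZb : ∀ n ω, |Z n ω| ≤ B := by
    intro n ω
    rw [abs_of_nonneg (hZ0 n ω)]
    refine (hZB n ω).trans ?_
    have : (G n).indicator (fun _ => (1 : ℝ)) ω ≤ 1 := Set.indicator_le_self' (fun _ _ => zero_le_one) ω
    nlinarith
  have hZi : ∀ n, Integrable (Z n) μ := fun n => int_bdd (hZm n) B (hZb n)
  have hZi2 : ∀ n n', Integrable (fun ω => Z n ω * Z n' ω) μ := by
    intro n n'
    refine int_bdd ((hZm n).mul (hZm n')) (B * B) (fun ω => ?_)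
    rw [abs_mul]
    exact mul_le_mul (hZb n ω) (hZb n' ω) (abs_nonneg _) hB0.le
  have hθ2 : ∀ i, |2 * d i| ≤ 2 * |d i| + 2 * ε := by
    intro i
    rw [abs_mul, abs_of_pos (by norm_num : (0 : ℝ) < 2)]
    linarith
  have hsum4 : (∑ i, (2 * d i) ^ 2) / 4 = S := by
    rw [hS, sum_div]
    exact sum_congr rfl (fun i _ => by ring)
  have hexpe : Real.exp e ≤ 2 := by
    have h1 : Real.exp e ≤ Real.exp (1 / 2) := Real.exp_le_exp.2 hB.e1
    have h2 : Real.exp (1 / 2 : ℝ) ^ 2 = Real.exp 1 := by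
      rw [← Real.exp_nat_mul]
      norm_num
    have h3 := Real.exp_one_lt_d9
    have h4 := Real.exp_pos (1 / 2 : ℝ)
    nlinarith
  -- the first moment
  have hfirst : ∀ n ∈ N, 1 - (e + 4 * r * Real.exp (-(L * ε ^ 2))) ≤ ∫ ω, Z n ω ∂μ := by
    intro n hn
    obtain ⟨U, hU⟩ : ∃ U : Fin r → ℝ → Ω → ℝ, U = fun i σ ω =>
      Real.exp (L * ∑ i', (2 * d i' + if i' = i then σ * (2 * ε) else 0) * Y n i' ω +
        (-(L * S) - L * (σ * (2 * ε) * d i) - L * (2 * ε ^ 2))) := ⟨_, rfl⟩
    have hUi : ∀ i σ, Integrable (U i σ) μ := by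
      intro i σ
      rw [hU]
      exact hB.int1 n _ _
    have hUle : ∀ i, ∀ σ : ℝ, |σ| = 1 → ∫ ω, U i σ ω ∂μ ≤ 2 * Real.exp (-(L * ε ^ 2)) := by
      intro i σ hσ
      have hσ2 : σ ^ 2 = 1 := by rw [← sq_abs, hσ, one_pow]
      have h1 := (hB.one n hn (fun i' => 2 * d i' + if i' = i then σ * (2 * ε) else 0) (fun i' => by
        refine (abs_add_le _ _).trans (add_le_add ?_ ?_)
        · rw [abs_mul, abs_of_pos (by norm_num : (0 : ℝ) < 2)]
        · split_ifs
          · rw [abs_mul, hσ, one_mul, abs_of_pos (by positivity)]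
          · rw [abs_zero]
            positivity)).2
      have h2 : (∑ i', (2 * d i' + if i' = i then σ * (2 * ε) else 0) ^ 2) / 4 = S + σ * (2 * ε) * d i + ε ^ 2 := by
        have h3 : ∀ i', (2 * d i' + if i' = i then σ * (2 * ε) else 0) ^ 2 =
            4 * d i' ^ 2 + if i' = i then 4 * (σ * (2 * ε) * d i + ε ^ 2) else 0 := by
          intro i'
          by_cases hi : i' = i
          · subst hi
            rw [if_pos rfl, if_pos rfl]
            linear_combination (4 * ε ^ 2) * hσ2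
          · rw [if_neg hi, if_neg hi]
            ring
        simp_rw [h3]
        rw [sum_add_distrib, Finset.sum_ite_eq' univ i, if_pos (mem_univ _), ← mul_sum, ← hS]
        ring
      rw [h2] at h1
      have h4 : ∫ ω, U i σ ω ∂μ = (∫ ω, Real.exp (L * ∑ i', (2 * d i' + if i' = i then σ * (2 * ε) else 0) *
          Y n i' ω) ∂μ) * Real.exp (-(L * S) - L * (σ * (2 * ε) * d i) - L * (2 * ε ^ 2)) := by
        rw [← integral_mul_const, hU]
        refine integral_congr_ae (Eventually.of_forall (fun ω => ?_))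
        simp only
        rw [Real.exp_add]
      rw [h4]
      refine (mul_le_mul_of_nonneg_right h1 (Real.exp_pos _).le).trans ?_
      rw [← Real.exp_add]
      have h5 : L * (S + σ * (2 * ε) * d i + ε ^ 2) + e + (-(L * S) - L * (σ * (2 * ε) * d i) - L * (2 * ε ^ 2)) =
          e + -(L * ε ^ 2) := by ring
      rw [h5, Real.exp_add]
      exact mul_le_mul_of_nonneg_right hexpe (Real.exp_pos _).le
    have hpt : ∀ ω, Real.exp (X n ω - L * S) ≤ Z n ω + ∑ i, (U i 1 ω + U i (-1) ω) := by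
      intro ω
      have hU0 : ∀ i σ, 0 ≤ U i σ ω := by
        intro i σ
        rw [hU]
        exact (Real.exp_pos _).le
      by_cases hω : ω ∈ G n
      · have h1 : Z n ω = Real.exp (X n ω - L * S) := by
          rw [hZ]
          simp only
          rw [Set.indicator_of_mem hω]
        rw [h1]
        have : 0 ≤ ∑ i, (U i 1 ω + U i (-1) ω) := sum_nonneg (fun i _ => add_nonneg (hU0 _ _) (hU0 _ _))
        linarith
      · have h1 : ∃ i, ε ≤ |Y n i ω - d i| := by
          by_contra hcon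
          push Not at hcon
          apply hω
          rw [hG]
          exact hcon
        obtain ⟨i, hi⟩ := h1
        have h2 : ∃ σ : ℝ, (σ = 1 ∨ σ = -1) ∧ ε ≤ σ * (Y n i ω - d i) := by
          rcases le_abs'.1 hi with h3 | h3
          · exact ⟨-1, Or.inr rfl, by linarith⟩
          · exact ⟨1, Or.inl rfl, by linarith⟩
        obtain ⟨σ, hσ, hσ2⟩ := h2
        have h3 : Real.exp (X n ω - L * S) ≤ U i σ ω := by
          rw [hU]
          simp only
          refine Real.exp_le_exp.2 ?_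
          have h4 : ∑ i', (2 * d i' + if i' = i then σ * (2 * ε) else 0) * Y n i' ω =
              ∑ i', (2 * d i') * Y n i' ω + σ * (2 * ε) * Y n i ω := by
            have h5 : ∀ i', (2 * d i' + if i' = i then σ * (2 * ε) else 0) * Y n i' ω =
                (2 * d i') * Y n i' ω + if i' = i then σ * (2 * ε) * Y n i ω else 0 := by
              intro i'
              by_cases hi' : i' = i
              · subst hi'
                rw [if_pos rfl, if_pos rfl]
                ring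
              · rw [if_neg hi', if_neg hi']
                ring
            simp_rw [h5]
            rw [sum_add_distrib, Finset.sum_ite_eq' univ i, if_pos (mem_univ _)]
          rw [h4]
          have h6 : X n ω = L * ∑ i, (2 * d i) * Y n i ω := by rw [hX]
          rw [h6]
          have h7 : 0 ≤ L * (2 * ε * (σ * (Y n i ω - d i) - ε)) :=
            mul_nonneg hL.le (mul_nonneg (by positivity) (by linarith))
          nlinarith
        have h4 : U i σ ω ≤ ∑ i, (U i 1 ω + U i (-1) ω) := by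
          refine le_trans ?_ (single_le_sum (f := fun i => U i 1 ω + U i (-1) ω)
            (fun i _ => add_nonneg (hU0 _ _) (hU0 _ _)) (mem_univ i))
          rcases hσ with rfl | rfl
          · have := hU0 i (-1)
            linarith
          · have := hU0 i 1
            linarith
        have h5 := hZ0 n ω
        linarith
    have hint1 : Integrable (fun ω => ∑ i, (U i 1 ω + U i (-1) ω)) μ :=
      integrable_finsetSum _ (fun i _ => (hUi i 1).add (hUi i (-1)))
    have h1 := integral_mono (hXi n) ((hZi n).add hint1) hpt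
    have h2 : ∫ ω, (Z n + fun ω => ∑ i, (U i 1 ω + U i (-1) ω)) ω ∂μ = ∫ ω, Z n ω ∂μ +
        ∫ ω, ∑ i, (U i 1 ω + U i (-1) ω) ∂μ := integral_add' (hZi n) hint1
    rw [h2] at h1
    have h3 : ∫ ω, ∑ i, (U i 1 ω + U i (-1) ω) ∂μ ≤ 4 * r * Real.exp (-(L * ε ^ 2)) := by
      have hint0 : ∀ i ∈ (univ : Finset (Fin r)), Integrable (fun ω => U i 1 ω + U i (-1) ω) μ :=
        fun i _ => (hUi i 1).add (hUi i (-1))
      rw [integral_finsetSum _ hint0]
      have h4 : ∀ i ∈ (univ : Finset (Fin r)), ∫ ω, (U i 1 ω + U i (-1) ω) ∂μ ≤ 4 * Real.exp (-(L * ε ^ 2)) := by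
        intro i _
        rw [integral_add (hUi i 1) (hUi i (-1))]
        have h5 := hUle i 1 (by norm_num)
        have h6 := hUle i (-1) (by norm_num)
        linarith
      refine (sum_le_sum h4).trans (le_of_eq ?_)
      rw [sum_const, nsmul_eq_mul]
      simp
      ring
    have h4 : 1 - e ≤ ∫ ω, Real.exp (X n ω - L * S) ∂μ := by
      have h5 := (hB.one n hn (fun i => 2 * d i) hθ2).1
      rw [hsum4] at h5
      have h6 : ∫ ω, Real.exp (X n ω - L * S) ∂μ =
          (∫ ω, Real.exp (L * ∑ i, (2 * d i) * Y n i ω) ∂μ) * Real.exp (-(L * S)) := by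
        rw [← integral_mul_const, hX]
        refine integral_congr_ae (Eventually.of_forall (fun ω => ?_))
        simp only
        rw [← Real.exp_add]
        congr 1
      rw [h6]
      have h7 : Real.exp (-e) ≤ (∫ ω, Real.exp (L * ∑ i, (2 * d i) * Y n i ω) ∂μ) * Real.exp (-(L * S)) := by
        refine le_trans (le_of_eq ?_) (mul_le_mul_of_nonneg_right h5 (Real.exp_pos _).le)
        rw [← Real.exp_add]
        congr 1
        ring
      have h8 := Real.add_one_le_exp (-e)
      linarith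
    linarith
  -- the second moments
  have hsecond : ∀ n ∈ N, ∫ ω, Z n ω * Z n ω ∂μ ≤ 2 * B := by
    intro n hn
    have h1 : ∀ ω, Z n ω * Z n ω ≤ B * Real.exp (X n ω - L * S) := by
      intro ω
      exact mul_le_mul ((le_abs_self _).trans (hZb n ω)) (hZX n ω) (hZ0 n ω) hB0.le
    refine (integral_mono (hZi2 n n) ((hXi n).const_mul _) h1).trans ?_
    rw [integral_const_mul]
    have h5 := (hB.one n hn (fun i => 2 * d i) hθ2).2
    rw [hsum4] at h5
    have h6 : ∫ ω, Real.exp (X n ω - L * S) ∂μ =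
        (∫ ω, Real.exp (L * ∑ i, (2 * d i) * Y n i ω) ∂μ) * Real.exp (-(L * S)) := by
      rw [← integral_mul_const, hX]
      refine integral_congr_ae (Eventually.of_forall (fun ω => ?_))
      simp only
      rw [← Real.exp_add]
      congr 1
    rw [h6, mul_comm 2 B]
    refine mul_le_mul_of_nonneg_left ?_ hB0.le
    refine (mul_le_mul_of_nonneg_right h5 (Real.exp_pos _).le).trans ?_
    rw [← Real.exp_add]
    refine le_trans (le_of_eq ?_) hexpe
    congr 1
    ring
  have hpair : ∀ n ∈ N, ∀ n' ∈ N, n ≠ n' → ∫ ω, Z n ω * Z n' ω ∂μ ≤ 1 + 4 * e := by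
    intro n hn n' hn' hnn
    have h1 : ∀ ω, Z n ω * Z n' ω ≤ Real.exp (X n ω + X n' ω + (-(2 * (L * S)))) := by
      intro ω
      refine (mul_le_mul (hZX n ω) (hZX n' ω) (hZ0 n' ω) (Real.exp_pos _).le).trans (le_of_eq ?_)
      rw [← Real.exp_add]
      congr 1
      ring
    have hint : Integrable (fun ω => Real.exp (X n ω + X n' ω + (-(2 * (L * S))))) μ := by
      have h2 := hB.int2 n n' (fun i => 2 * d i) (-(2 * (L * S)))
      rw [hX]
      exact h2
    refine (integral_mono (hZi2 n n') hint h1).trans ?_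
    have h2 := hB.two n hn n' hn' hnn (fun i => 2 * d i) hθ2
    rw [hsum4] at h2
    have h3 : ∫ ω, Real.exp (X n ω + X n' ω + (-(2 * (L * S)))) ∂μ =
        (∫ ω, Real.exp (L * ∑ i, (2 * d i) * Y n i ω + L * ∑ i, (2 * d i) * Y n' i ω) ∂μ) *
          Real.exp (-(2 * (L * S))) := by
      rw [← integral_mul_const, hX]
      refine integral_congr_ae (Eventually.of_forall (fun ω => ?_))
      simp only
      rw [← Real.exp_add]
    rw [h3]
    refine (mul_le_mul_of_nonneg_right h2 (Real.exp_pos _).le).trans ?_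
    rw [← Real.exp_add]
    have h4 : 2 * (L * S) + 2 * e + -(2 * (L * S)) = 2 * e := by ring
    rw [h4]
    have he0 := hB.e0
    have he1 := hB.e1
    have h5 : Real.exp (2 * e) ≤ 1 + 2 * (2 * e) := by
      have h6 := Real.abs_exp_sub_one_le (x := 2 * e) (by rw [abs_of_nonneg (by linarith)]; linarith)
      rw [abs_of_nonneg (show 0 ≤ 2 * e by linarith)] at h6
      have := le_abs_self (Real.exp (2 * e) - 1)
      linarith
    linarith
  have hr0 : (0 : ℝ) ≤ r := Nat.cast_nonneg r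
  have hδ0 : 0 ≤ e + 4 * r * Real.exp (-(L * ε ^ 2)) := by
    have := hB.e0
    positivity
  have hfin := cheb2 (μ := μ) N hN Z (fun n _ => hZm n) (fun n _ => hZi n) (fun n _ n' _ => hZi2 n n') hB0.le hδ0
    (by linarith [hB.e0] : 0 ≤ 4 * e) hfirst hsecond hpair
  have hsubset : {ω | num N G ω ≤ N.card * Real.exp (-(L * (S + 2 * ε * S1))) / 2} ⊆ {ω | ∑ n ∈ N, Z n ω ≤ N.card / 2} := by
    intro ω hω
    have hω' : num N G ω ≤ N.card * Real.exp (-(L * (S + 2 * ε * S1))) / 2 := hω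
    show ∑ n ∈ N, Z n ω ≤ N.card / 2
    have h1 : ∑ n ∈ N, Z n ω ≤ B * num N G ω := by
      unfold num
      rw [mul_sum]
      exact sum_le_sum (fun n _ => hZB n ω)
    have h2 : B * Real.exp (-(L * (S + 2 * ε * S1))) = 1 := by
      rw [hBe, ← Real.exp_add, add_neg_cancel, Real.exp_zero]
    have h3 := mul_le_mul_of_nonneg_left hω' hB0.le
    have h4 : B * (N.card * Real.exp (-(L * (S + 2 * ε * S1))) / 2) = N.card / 2 := by
      linear_combination ((N.card : ℝ) / 2) * h2
    linarith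
  rw [← hG]
  refine (measureReal_mono hsubset (measure_ne_top _ _)).trans (hfin.trans (le_of_eq ?_))
  ring

end Pool.Agent.Q106.CH
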