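import Pool.Agent.Q106.CH.Law

/-!
# Checking the conditions on the blocks
-/

set_option autoImplicit false

namespace Pool.Agent.Q106.CH

open Finset MeasureTheory ProbabilityTheory Filter Pool.Agent.Q120.GM Pool.Agent.Q106.UR Pool.Agent.Q106.MD
open scoped Topology

variable {Ω : Type*} [MeasurableSpace Ω] {μ : Measure Ω} [IsProbabilityMeasure μ] {ι κ : Type*} [DecidableEq ι]
  [DecidableEq κ] {p : ι → ℝ} {A : Ω → Set ι} {r : ℕ}

/-- The members of `n'` which meet those of `n` are few, and are separated from the others by a few members. -/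
def SepC (J : ℕ → Fin r → Finset κ) (T : ℕ → Fin r → κ → Finset ι) (C w : ℝ) (n n' : ℕ) : Prop :=
  ∃ X Bf Y : Fin r → Finset κ, (∀ i, J n' i = X i ∪ (Bf i ∪ Y i)) ∧ (∀ i, Disjoint (X i) (Bf i ∪ Y i)) ∧
    (∀ i, Disjoint (Bf i) (Y i)) ∧ (∀ i i' j j', j ∈ X i → j' ∈ Y i' → Disjoint (T n' i j) (T n' i' j')) ∧
    (∀ i i' j j', j ∈ J n i → j' ∈ Y i' → Disjoint (T n i j) (T n' i' j')) ∧
    ((univ.sigma X).card : ℝ) ≤ C * w ∧ ((univ.sigma Bf).card : ℝ) ≤ C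

theorem log2_tendsto : Tendsto (fun m : ℕ => (m : ℝ) * Real.log 2) atTop atTop :=
  tendsto_natCast_atTop_atTop.atTop_mul_const (Real.log_pos (by norm_num))

theorem cube_le_exp {c : ℝ} (hc : 0 < c) (K : ℝ) : ∀ᶠ x : ℝ in atTop, K * x ^ 3 ≤ Real.exp (c * x) := by
  have h1 : Tendsto (fun x : ℝ => x ^ 3 * Real.exp (-x)) atTop (𝓝 0) := Real.tendsto_pow_mul_exp_neg_atTop_nhds_zero 3
  have h2 : Tendsto (fun x : ℝ => (c * x) ^ 3 * Real.exp (-(c * x))) atTop (𝓝 0) :=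
    h1.comp (tendsto_id.const_mul_atTop hc)
  have h3 : ∀ᶠ x : ℝ in atTop, (c * x) ^ 3 * Real.exp (-(c * x)) < c ^ 3 / (|K| + 1) :=
    h2.eventually_lt_const (by positivity)
  filter_upwards [h3, eventually_ge_atTop 0] with x h4 h5
  have h6 : 0 < Real.exp (c * x) := Real.exp_pos _
  rw [Real.exp_neg, ← div_eq_mul_inv, div_lt_div_iff₀ h6 (by positivity)] at h4
  have h7 : (c * x) ^ 3 * (|K| + 1) = c ^ 3 * ((|K| + 1) * x ^ 3) := by ring
  rw [h7] at h4
  have h8 : (|K| + 1) * x ^ 3 < Real.exp (c * x) := lt_of_mul_lt_mul_left h4 (by positivity)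
  have h9 : K * x ^ 3 ≤ (|K| + 1) * x ^ 3 := mul_le_mul_of_nonneg_right (by linarith [le_abs_self K]) (by positivity)
  linarith

/-- **The conditions on the blocks.** -/
theorem bsys_of (hA : IsModel μ p A) {J : ℕ → Fin r → Finset κ} {T : ℕ → Fin r → κ → Finset ι} {e : ℕ → Fin r → ℝ}
    {e₀ w : ℕ → ℝ} {D D' γ C : ℝ} {k : ℕ} (hS : PSys p atTop J T e e₀ (fun n : ℕ => Real.log n) D)
    (hk : ∀ n i, ∀ j ∈ J n i, (T n i j).card ≤ k) (hγ : 0 < γ) (h1 : ∀ᶠ n : ℕ in atTop, (n : ℝ) ^ γ ≤ e₀ n)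
    (h2 : ∀ᶠ n : ℕ in atTop, w n ^ 2 * (n : ℝ) ^ γ ≤ e₀ n ^ 3) (hw0 : ∀ n, 0 ≤ w n)
    (hw : ∀ n, ((univ.sigma (J n)).card : ℝ) ≤ w n) (hC : 0 ≤ C) (hD' : 1 ≤ D')
    (hinj : ∀ n n' i i' j j', j ∈ J n i → j' ∈ J n' i' → T n i j = T n' i' j' → n = n' ∧ i = i' ∧ j = j')
    (hdeg : ∀ n n' i, ∀ j ∈ J n i,
      (((univ.sigma (J n')).filter (fun x => ¬ Disjoint (T n' x.1 x.2) (T n i j))).card : ℝ) ≤ D')
    (hsep : ∀ n n', n ≠ n' → SepC J T C (w n) n n') : BSys p J T D' := by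
  intro B hB0
  have hlog2 := Real.log_pos (show (1 : ℝ) < 2 by norm_num)
  obtain ⟨K, hK⟩ : ∃ K, K = 116 * D' ^ 2 * B ^ 3 * (C + 1) + B * C + 112 * D' * B + 1 := ⟨_, rfl⟩
  have hK0 : 0 < K := by rw [hK]; positivity
  refine ⟨fun m => Real.exp (-((m : ℝ) * Real.log 2 * (γ / 4))), exp_sum (by positivity), ?_⟩
  obtain ⟨M₁, hM₁⟩ := eventually_atTop.1 (h1.and (h2.and (hS.le.and (vs_close hA hS hk (η := 1 / 2) (by norm_num) (by norm_num)))))
  have hgrow := log2_tendsto.eventually (cube_le_exp (c := γ / 2) (by positivity) (64 * K ^ 2))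
  have hgrow2 := log2_tendsto.eventually_ge_atTop (4 / γ)
  filter_upwards [hgrow, hgrow2, log2_tendsto.eventually_ge_atTop 1, eventually_ge_atTop M₁, eventually_ge_atTop 1]
    with m g1 g2 g3 g4 g0
  obtain ⟨L, hL⟩ : ∃ L, L = (m : ℝ) * Real.log 2 := ⟨_, rfl⟩
  rw [← hL] at g1 g2 g3 ⊢
  have hL0 : 0 < L := by linarith
  obtain ⟨E, hE⟩ : ∃ E, E = Real.exp (-(L * (γ / 4))) := ⟨_, rfl⟩
  rw [← hE]
  have hE0 : 0 < E := by rw [hE]; exact Real.exp_pos _
  have hE2 : E ^ 2 * Real.exp (γ / 2 * L) = 1 := by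
    rw [hE, ← Real.exp_nat_mul, ← Real.exp_add, ← Real.exp_zero]
    congr 1
    push_cast
    ring
  have hE12 : E ≤ 1 / 2 := by
    have e1 : 1 ≤ L * (γ / 4) := by
      have := mul_le_mul_of_nonneg_right g2 (by positivity : 0 ≤ γ / 4)
      have e2 : 4 / γ * (γ / 4) = 1 := by field_simp
      linarith
    have e2 : E ≤ Real.exp (-1) := by
      rw [hE]
      exact Real.exp_le_exp.2 (by linarith)
    have e3 : Real.exp (-1) ≤ 1 / 2 := by
      rw [Real.exp_neg]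
      have := Real.add_one_le_exp (1 : ℝ)
      rw [inv_le_comm₀ (Real.exp_pos _) (by norm_num)]
      linarith
    linarith
  have hn : ∀ n ∈ Ico (2 ^ m) (2 ^ (m + 1)), 1 ≤ e₀ n ∧ Real.exp (γ * L) ≤ e₀ n ∧
      w n ^ 2 * Real.exp (γ * L) ≤ e₀ n ^ 3 ∧ (∀ i, e₀ n ≤ 2 * Vs p J T n i) := by
    intro n hn
    rw [mem_Ico] at hn
    have h5 : m < 2 ^ m := Nat.lt_two_pow_self
    obtain ⟨a1, a2, a3, a4⟩ := hM₁ n (by omega)
    have hn1 : (2 : ℝ) ^ m ≤ n := by exact_mod_cast hn.1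
    have e1 : Real.exp (γ * L) ≤ (n : ℝ) ^ γ := by
      have e2 : Real.exp (γ * L) = ((2 : ℝ) ^ m) ^ γ := by
        rw [Real.rpow_def_of_pos (by positivity), Real.log_pow, hL]
        congr 1
        ring
      rw [e2]
      exact Real.rpow_le_rpow (by positivity) hn1 hγ.le
    have e2 : 1 ≤ Real.exp (γ * L) := Real.one_le_exp (by positivity)
    refine ⟨by linarith, by linarith, ?_, fun i => ?_⟩
    · refine le_trans (mul_le_mul_of_nonneg_left e1 (sq_nonneg _)) a2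
    · have := (a4 i).1
      have := a3 i
      linarith
  obtain ⟨g, hg⟩ : ∃ g : ℕ → ℝ, g = fun n => Real.sqrt (L / e₀ n) := ⟨_, rfl⟩
  have hg0 : ∀ n, 0 ≤ g n := fun n => by rw [hg]; exact Real.sqrt_nonneg _
  have hg2 : ∀ n ∈ Ico (2 ^ m) (2 ^ (m + 1)), g n ^ 2 = L / e₀ n := by
    intro n hn'
    have := (hn n hn').1
    rw [hg]
    exact Real.sq_sqrt (by positivity)
  have hL3 : L ≤ L ^ 3 := by nlinarith [sq_nonneg L]
  -- the size of `g`
  have hgs : ∀ n ∈ Ico (2 ^ m) (2 ^ (m + 1)), K * g n ≤ E / 8 := by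
    intro n hn'
    obtain ⟨a1, a2, a3, a4⟩ := hn n hn'
    refine le_of_sq_le_sq ?_ (by positivity)
    rw [mul_pow, hg2 n hn', div_pow]
    have e1 : L / e₀ n ≤ L / Real.exp (γ * L) := div_le_div_of_nonneg_left hL0.le (Real.exp_pos _) a2
    have e2 : K ^ 2 * (L / e₀ n) ≤ K ^ 2 * (L / Real.exp (γ * L)) := mul_le_mul_of_nonneg_left e1 (sq_nonneg K)
    refine e2.trans ?_
    have e3 : Real.exp (γ * L) = Real.exp (γ / 2 * L) * Real.exp (γ / 2 * L) := by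
      rw [← Real.exp_add]
      congr 1
      ring
    rw [mul_div_assoc', div_le_div_iff₀ (Real.exp_pos _) (by norm_num), e3]
    have e4 : E ^ 2 * (Real.exp (γ / 2 * L) * Real.exp (γ / 2 * L)) = Real.exp (γ / 2 * L) := by
      rw [← mul_assoc, hE2, one_mul]
    rw [e4]
    have e5 : K ^ 2 * L * 8 ^ 2 = 64 * K ^ 2 * L := by ring
    rw [e5]
    refine le_trans ?_ g1
    exact mul_le_mul_of_nonneg_left hL3 (by positivity)
  have hg3 : ∀ n ∈ Ico (2 ^ m) (2 ^ (m + 1)), K * (g n ^ 3 * w n) ≤ E / 8 := by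
    intro n hn'
    obtain ⟨a1, a2, a3, a4⟩ := hn n hn'
    have hw' := hw0 n
    refine le_of_sq_le_sq ?_ (by positivity)
    have e1 : (K * (g n ^ 3 * w n)) ^ 2 = K ^ 2 * ((g n ^ 2) ^ 3 * w n ^ 2) := by ring
    rw [e1, hg2 n hn', div_pow, div_pow]
    have e2 : L ^ 3 / e₀ n ^ 3 * w n ^ 2 ≤ L ^ 3 / Real.exp (γ * L) := by
      rw [div_mul_eq_mul_div, div_le_div_iff₀ (by positivity) (Real.exp_pos _)]
      have := mul_le_mul_of_nonneg_left a3 (by positivity : 0 ≤ L ^ 3)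
      linarith
    refine (mul_le_mul_of_nonneg_left e2 (sq_nonneg K)).trans ?_
    have e3 : Real.exp (γ * L) = Real.exp (γ / 2 * L) * Real.exp (γ / 2 * L) := by
      rw [← Real.exp_add]
      congr 1
      ring
    rw [mul_div_assoc', div_le_div_iff₀ (Real.exp_pos _) (by norm_num), e3]
    have e4 : E ^ 2 * (Real.exp (γ / 2 * L) * Real.exp (γ / 2 * L)) = Real.exp (γ / 2 * L) := by
      rw [← mul_assoc, hE2, one_mul]
    rw [e4]
    have e5 : K ^ 2 * L ^ 3 * 8 ^ 2 = 64 * K ^ 2 * L ^ 3 := by ring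
    rw [e5]
    exact g1
  have hgw : ∀ n ∈ Ico (2 ^ m) (2 ^ (m + 1)), ∀ z, 0 ≤ z → z ≤ (C + 1) * w n →
      116 * (D' ^ 2 * (B * g n) ^ 3) * z ≤ E / 8 := by
    intro n hn' z hz hz2
    have e1 := hg3 n hn'
    have e2 : 116 * (D' ^ 2 * (B * g n) ^ 3) * z ≤ 116 * (D' ^ 2 * (B * g n) ^ 3) * ((C + 1) * w n) := by
      have := hg0 n
      exact mul_le_mul_of_nonneg_left hz2 (by positivity)
    have e3 : 116 * (D' ^ 2 * (B * g n) ^ 3) * ((C + 1) * w n) = 116 * D' ^ 2 * B ^ 3 * (C + 1) * (g n ^ 3 * w n) := by ring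
    have e4 : 116 * D' ^ 2 * B ^ 3 * (C + 1) * (g n ^ 3 * w n) ≤ K * (g n ^ 3 * w n) := by
      refine mul_le_mul_of_nonneg_right ?_ (mul_nonneg (pow_nonneg (hg0 n) 3) (hw0 n))
      rw [hK]
      have : 0 ≤ B * C := mul_nonneg hB0 hC
      have : 0 ≤ 112 * D' * B := by positivity
      linarith
    linarith
  have hanti : ∀ n ∈ Ico (2 ^ m) (2 ^ (m + 1)), ∀ n' ∈ Ico (2 ^ m) (2 ^ (m + 1)), e₀ n ≤ e₀ n' → B * g n' ≤ B * g n := by
    intro n hn' n' hn'' hee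
    have a1 := (hn n hn').1
    refine mul_le_mul_of_nonneg_left ?_ hB0
    rw [hg]
    exact Real.sqrt_le_sqrt (div_le_div_of_nonneg_left hL0.le (by linarith) hee)
  have hap : ∀ n ∈ Ico (2 ^ m) (2 ^ (m + 1)), ∀ n' ∈ Ico (2 ^ m) (2 ^ (m + 1)), n ≠ n' → e₀ n ≤ e₀ n' →
      Apart J T D' E (fun n => B * g n) n n' := by
    intro n hn' n' hn'' hne hee
    obtain ⟨X, Bf, Y, b1, b2, b3, b4, b5, b6, b7⟩ := hsep n n' hne
    refine ⟨hanti n hn' n' hn'' hee, X, Bf, Y, b1, b2, b3, b4, b5, ?_, ?_⟩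
    · refine hgw n hn' _ (Nat.cast_nonneg _) (b6.trans ?_)
      have := hw0 n
      nlinarith
    · have e1 := hgs n' hn''
      have e2 : B * g n' * ((univ.sigma Bf).card : ℝ) ≤ B * g n' * C :=
        mul_le_mul_of_nonneg_left b7 (mul_nonneg hB0 (hg0 n'))
      have e3 : B * g n' * C = B * C * g n' := by ring
      have e4 : B * C * g n' ≤ K * g n' := by
        refine mul_le_mul_of_nonneg_right ?_ (hg0 n')
        rw [hK]
        have : 0 ≤ 116 * D' ^ 2 * B ^ 3 * (C + 1) := by positivity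
        have : 0 ≤ 112 * D' * B := by positivity
        linarith
      show B * g n' * ((univ.sigma Bf).card : ℝ) ≤ E / 8
      linarith
  refine ⟨fun n => B * g n, ?_⟩
  constructor
  · intro n hn' i j hj
    exact hS.ne n i j hj
  · intro n _ n' _ i i' j j' hj hj' h
    exact hinj n n' i i' j j' hj hj' h
  · exact hD'
  · intro n _ n' _ i j hj
    exact hdeg n n' i j hj
  · exact hL0
  · intro n hn' i
    obtain ⟨a1, a2, a3, a4⟩ := hn n hn'
    have := a4 i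
    linarith
  · intro n hn' i
    obtain ⟨a1, a2, a3, a4⟩ := hn n hn'
    refine mul_le_mul_of_nonneg_left ?_ hB0
    rw [hg]
    exact Real.sqrt_le_sqrt (div_le_div_of_nonneg_left hL0.le (by linarith) (a4 i))
  · intro n hn'
    have e1 := hgs n hn'
    have e2 : 112 * D' * B * g n ≤ K * g n := by
      refine mul_le_mul_of_nonneg_right ?_ (hg0 n)
      rw [hK]
      have : 0 ≤ 116 * D' ^ 2 * B ^ 3 * (C + 1) := by positivity
      have : 0 ≤ B * C := mul_nonneg hB0 hC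
      linarith
    show 112 * (D' * (B * g n)) ≤ 1
    have e3 : 112 * (D' * (B * g n)) = 112 * D' * B * g n := by ring
    rw [e3]
    linarith
  · intro n _
    exact mul_nonneg hB0 (hg0 n)
  · intro n hn'
    refine hgw n hn' _ (Nat.cast_nonneg _) ((hw n).trans ?_)
    have := hw0 n
    nlinarith
  · exact hE0.le
  · exact hE12
  · intro n hn' n' hn'' hne
    rcases le_total (e₀ n) (e₀ n') with h | h
    · exact Or.inr (Or.inl (hap n hn' n' hn'' hne h))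
    · exact Or.inr (Or.inr (Or.inr (hap n' hn'' n hn' (Ne.symm hne) h)))

end Pool.Agent.Q106.CH
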