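import Pool.Agent.Q106.MD.Pat

/-!
# Products of centred indicators

The products `∏ (1_{b ∈ A} - p b)` over distinct finite sets are orthogonal; exponential moments of their sums.
-/

set_option autoImplicit false

namespace Pool.Agent.Q106.CH

open Finset MeasureTheory ProbabilityTheory Filter Pool.Agent.Q120.GM Pool.Agent.Q106.UR Pool.Agent.Q106.MD

variable {Ω : Type*} [MeasurableSpace Ω] {μ : Measure Ω} [IsProbabilityMeasure μ] {ι κ : Type*} [DecidableEq ι]
  [DecidableEq κ] {p : ι → ℝ} {A : Ω → Set ι}

/-- One centred indicator. -/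
noncomputable def xo (p : ι → ℝ) (A : Ω → Set ι) (b : ι) (ω : Ω) : ℝ := ind A {b} ω - p b

/-- The product of the centred indicators over `T`. -/
noncomputable def xi (p : ι → ℝ) (A : Ω → Set ι) (T : Finset ι) (ω : Ω) : ℝ := ∏ b ∈ T, xo p A b ω

/-- The variance of the product. -/
noncomputable def vT (p : ι → ℝ) (T : Finset ι) : ℝ := ∏ b ∈ T, (p b * (1 - p b))

omit [DecidableEq ι] [DecidableEq κ] [MeasurableSpace Ω] in
theorem xo_F (b : ι) : Measurable[F A ({b} : Set ι)] (xo p A b) := by
  let _ : MeasurableSpace Ω := F A ({b} : Set ι)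
  exact (F_ind (A := A) (S := ({b} : Set ι)) (T := {b}) (fun i hi => by simpa using hi)).sub_const _

omit [DecidableEq ι] [DecidableEq κ] in
theorem xo_abs (hA : IsModel μ p A) (b : ι) (ω : Ω) : |xo p A b ω| ≤ 1 := by
  unfold xo
  have h1 := ind_nonneg (A := A) {b} ω
  have h2 := ind_le_one (A := A) {b} ω
  have h3 := p_nonneg hA b
  have h4 := p_le_one hA b
  rw [abs_le]
  constructor <;> linarith

omit [DecidableEq ι] [DecidableEq κ] in
theorem xo_meas (hA : IsModel μ p A) (b : ι) : Measurable (xo p A b) := (meas_ind hA _).sub_const _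

omit [DecidableEq ι] [DecidableEq κ] in
theorem xo_int (hA : IsModel μ p A) (b : ι) : ∫ ω, xo p A b ω ∂μ = 0 := by
  obtain ⟨h1, h2⟩ := int_ind hA {b}
  unfold xo
  rw [integral_sub h1 (integrable_const _), h2, integral_const]
  simp [pT]

omit [DecidableEq ι] [DecidableEq κ] in
theorem xo_sq_int (hA : IsModel μ p A) (b : ι) : ∫ ω, xo p A b ω * xo p A b ω ∂μ = p b * (1 - p b) := by
  classical
  have h1 := int_cov hA {b} {b}
  rw [union_self] at h1
  have h2 : ∫ ω, xo p A b ω * xo p A b ω ∂μ = ∫ ω, (ind A {b} ω - pT p {b}) * (ind A {b} ω - pT p {b}) ∂μ := by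
    unfold xo
    simp [pT]
  rw [h2, h1]
  simp [pT]
  ring

omit [DecidableEq ι] [DecidableEq κ] in
theorem xo_ind_int (hA : IsModel μ p A) (b : ι) : ∫ ω, xo p A b ω * ind A {b} ω ∂μ = p b * (1 - p b) := by
  have h1 : ∀ ω, xo p A b ω * ind A {b} ω = xo p A b ω * xo p A b ω + p b * xo p A b ω := by
    intro ω
    unfold xo
    ring
  have h2 : Integrable (xo p A b) μ := int_bdd (xo_meas hA b) 1 (xo_abs hA b)
  have h3 : Integrable (fun ω => xo p A b ω * xo p A b ω) μ := by
    refine int_bdd ((xo_meas hA b).mul (xo_meas hA b)) 1 (fun ω => ?_)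
    rw [abs_mul]
    have := xo_abs hA b ω
    have := abs_nonneg (xo p A b ω)
    nlinarith
  simp_rw [h1]
  rw [integral_add h3 (h2.const_mul _), integral_const_mul, xo_int hA, xo_sq_int hA]
  ring

omit [DecidableEq κ] in
/-- Products of functions of single elements. -/
theorem int_site (hA : IsModel μ p A) (S : Finset ι) (f : ι → Ω → ℝ) (hf : ∀ b ∈ S, Measurable[F A ({b} : Set ι)] (f b)) :
    ∫ ω, ∏ b ∈ S, f b ω ∂μ = ∏ b ∈ S, ∫ ω, f b ω ∂μ :=
  int_prod hA S (fun b => ({b} : Set ι)) (fun i _ j _ hij => Set.disjoint_singleton.2 hij) f hf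

omit [DecidableEq ι] [DecidableEq κ] [MeasurableSpace Ω] in
theorem xi_F (T : Finset ι) : Measurable[F A (T : Set ι)] (xi p A T) := by
  unfold xi
  refine Finset.measurable_fun_prod T (fun b hb => ?_)
  exact (xo_F (p := p) (A := A) b).mono (F_mono (by
    intro i hi
    rw [Set.mem_singleton_iff] at hi
    rw [hi]
    exact_mod_cast hb)) le_rfl

omit [DecidableEq ι] [DecidableEq κ] in
theorem xi_meas (hA : IsModel μ p A) (T : Finset ι) : Measurable (xi p A T) := (xi_F T).mono (F_le hA _) le_rfl

omit [DecidableEq ι] [DecidableEq κ] in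
theorem xi_abs (hA : IsModel μ p A) (T : Finset ι) (ω : Ω) : |xi p A T ω| ≤ 1 := by
  unfold xi
  rw [abs_prod]
  exact prod_le_one (fun _ _ => abs_nonneg _) (fun b _ => xo_abs hA b ω)

omit [DecidableEq ι] [DecidableEq κ] in
theorem vT_nonneg (hA : IsModel μ p A) (T : Finset ι) : 0 ≤ vT p T := by
  unfold vT
  exact prod_nonneg (fun b _ => mul_nonneg (p_nonneg hA b) (by linarith [p_le_one hA b]))

omit [DecidableEq ι] [DecidableEq κ] in
theorem vT_le (hA : IsModel μ p A) (T : Finset ι) : vT p T ≤ pT p T := by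
  unfold vT pT
  refine prod_le_prod (fun b _ => mul_nonneg (p_nonneg hA b) (by linarith [p_le_one hA b])) (fun b _ => ?_)
  have := p_nonneg hA b
  nlinarith

omit [DecidableEq ι] [DecidableEq κ] in
theorem le_vT (hA : IsModel μ p A) {T : Finset ι} {s : ℝ} {k : ℕ} (hs : ∀ b ∈ T, p b ≤ s) (hs0 : 0 ≤ s) (hk : T.card ≤ k) :
    (1 - k * s) * pT p T ≤ vT p T := by
  classical
  have key : ∀ U : Finset ι, U ⊆ T → (1 - U.card * s) * pT p U ≤ vT p U := by
    intro U
    induction U using Finset.induction_on with
    | empty => intro _; simp [pT, vT]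
    | insert a U ha ih =>
      intro hU
      have h1 := ih (fun x hx => hU (mem_insert_of_mem hx))
      have h2 : pT p (insert a U) = p a * pT p U := by
        unfold pT
        rw [prod_insert ha]
      have h3 : vT p (insert a U) = p a * (1 - p a) * vT p U := by
        unfold vT
        rw [prod_insert ha]
      have h4 := hs a (hU (mem_insert_self _ _))
      have h5 := p_nonneg hA a
      have h6 := p_le_one hA a
      have h7 := pT_nonneg hA U
      have h8 := vT_le hA U
      have h9 := vT_nonneg hA U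
      rw [h2, h3, card_insert_of_notMem ha]
      push_cast
      have e1 : p a * (1 - p a) * vT p U = p a * (vT p U - p a * vT p U) := by ring
      rw [e1]
      have e2 : (1 - ((U.card : ℝ) + 1) * s) * (p a * pT p U) = p a * ((1 - U.card * s) * pT p U - s * pT p U) := by ring
      rw [e2]
      refine mul_le_mul_of_nonneg_left ?_ h5
      have e3 : p a * vT p U ≤ s * pT p U := mul_le_mul h4 h8 h9 hs0
      linarith
  have h1 := key T (Subset.refl _)
  refine le_trans ?_ h1
  refine mul_le_mul_of_nonneg_right ?_ (pT_nonneg hA T)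
  have : (T.card : ℝ) * s ≤ k * s := mul_le_mul_of_nonneg_right (by exact_mod_cast hk) hs0
  linarith

omit [DecidableEq κ] in
/-- The factors of the product of two products. -/
theorem xi_mul_eq (T U : Finset ι) (ω : Ω) : xi p A T ω * xi p A U ω =
    ∏ b ∈ T ∪ U, ((if b ∈ T then xo p A b ω else 1) * (if b ∈ U then xo p A b ω else 1)) := by
  rw [prod_mul_distrib]
  congr 1
  · unfold xi
    rw [prod_ite, prod_const_one, mul_one]
    refine prod_congr ?_ (fun _ _ => rfl)
    ext b
    simp only [mem_filter, mem_union]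
    tauto
  · unfold xi
    rw [prod_ite, prod_const_one, mul_one]
    refine prod_congr ?_ (fun _ _ => rfl)
    ext b
    simp only [mem_filter, mem_union]
    tauto

omit [DecidableEq ι] [DecidableEq κ] in
theorem xi_int (hA : IsModel μ p A) {T : Finset ι} (hT : T.Nonempty) : ∫ ω, xi p A T ω ∂μ = 0 := by
  classical
  unfold xi
  rw [int_site hA T _ (fun b _ => xo_F b)]
  obtain ⟨b, hb⟩ := hT
  exact prod_eq_zero hb (xo_int hA b)

omit [DecidableEq κ] in
/-- **Orthogonality.** -/
theorem xi_orth (hA : IsModel μ p A) (T U : Finset ι) :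
    ∫ ω, xi p A T ω * xi p A U ω ∂μ = if T = U then vT p T else 0 := by
  simp_rw [xi_mul_eq]
  have hm : ∀ b ∈ T ∪ U, Measurable[F A ({b} : Set ι)]
      (fun ω => (if b ∈ T then xo p A b ω else 1) * (if b ∈ U then xo p A b ω else 1)) := by
    intro b _
    let _ : MeasurableSpace Ω := F A ({b} : Set ι)
    refine Measurable.mul ?_ ?_
    · split_ifs
      · exact xo_F b
      · exact measurable_const
    · split_ifs
      · exact xo_F b
      · exact measurable_const
  rw [int_site hA _ _ hm]
  split_ifs with h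
  · subst h
    rw [union_self]
    unfold vT
    refine prod_congr rfl (fun b hb => ?_)
    simp only [if_pos hb]
    exact xo_sq_int hA b
  · have h1 : ∃ b, b ∈ T ∪ U ∧ ¬ (b ∈ T ↔ b ∈ U) := by
      by_contra hcon
      push Not at hcon
      apply h
      ext b
      by_cases hb : b ∈ T ∪ U
      · exact hcon b hb
      · rw [mem_union] at hb
        tauto
    obtain ⟨b, hb, hb2⟩ := h1
    refine prod_eq_zero hb ?_
    by_cases hbT : b ∈ T
    · have hbU : b ∉ U := fun h' => hb2 ⟨fun _ => h', fun _ => hbT⟩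
      simp only [if_pos hbT, if_neg hbU, mul_one]
      exact xo_int hA b
    · have hbU : b ∈ U := by
        rw [mem_union] at hb
        tauto
      simp only [if_pos hbU, if_neg hbT, one_mul]
      exact xo_int hA b

omit [DecidableEq κ] in
theorem ind_prod (T : Finset ι) (ω : Ω) : ind A T ω = ∏ b ∈ T, ind A {b} ω := by
  induction T using Finset.induction_on with
  | empty =>
    rw [prod_empty]
    rcases ind_zero_or (A := A) ∅ ω with h | h
    · exact absurd (fun i hi => absurd hi (notMem_empty i)) h.2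
    · exact h.1
  | insert a T ha ih =>
    rw [prod_insert ha, ← ih, ind_mul, insert_eq]

omit [DecidableEq κ] in
/-- The covariance with the indicators. -/
theorem ind_xi (hA : IsModel μ p A) (T U : Finset ι) :
    0 ≤ ∫ ω, ind A T ω * xi p A U ω ∂μ ∧ ∫ ω, ind A T ω * xi p A T ω ∂μ = vT p T := by
  have h1 : ∀ U : Finset ι, ∀ ω, ind A T ω * xi p A U ω =
      ∏ b ∈ T ∪ U, ((if b ∈ T then ind A {b} ω else 1) * (if b ∈ U then xo p A b ω else 1)) := by
    intro U ω
    rw [prod_mul_distrib, ind_prod]
    congr 1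
    · rw [prod_ite, prod_const_one, mul_one]
      refine prod_congr ?_ (fun _ _ => rfl)
      ext b
      simp only [mem_filter, mem_union]
      tauto
    · unfold xi
      rw [prod_ite, prod_const_one, mul_one]
      refine prod_congr ?_ (fun _ _ => rfl)
      ext b
      simp only [mem_filter, mem_union]
      tauto
  have hm : ∀ U : Finset ι, ∀ b ∈ T ∪ U, Measurable[F A ({b} : Set ι)]
      (fun ω => (if b ∈ T then ind A {b} ω else 1) * (if b ∈ U then xo p A b ω else 1)) := by
    intro U b _
    let _ : MeasurableSpace Ω := F A ({b} : Set ι)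
    refine Measurable.mul ?_ ?_
    · split_ifs
      · exact F_ind (A := A) (S := ({b} : Set ι)) (T := {b}) (fun i hi => by simpa using hi)
      · exact measurable_const
    · split_ifs
      · exact xo_F b
      · exact measurable_const
  have hmul : ∀ b ω, ind A {b} ω * xo p A b ω = xo p A b ω * ind A {b} ω := fun b ω => mul_comm _ _
  constructor
  · simp_rw [h1 U]
    rw [int_site hA _ _ (hm U)]
    refine prod_nonneg (fun b _ => ?_)
    by_cases hbT : b ∈ T
    · by_cases hbU : b ∈ U
      · simp only [if_pos hbT, if_pos hbU, hmul]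
        rw [xo_ind_int hA]
        exact mul_nonneg (p_nonneg hA b) (by linarith [p_le_one hA b])
      · simp only [if_pos hbT, if_neg hbU, mul_one]
        rw [(int_ind hA {b}).2]
        exact pT_nonneg hA _
    · by_cases hbU : b ∈ U
      · simp only [if_neg hbT, if_pos hbU, one_mul]
        rw [xo_int hA]
      · simp only [if_neg hbT, if_neg hbU, one_mul]
        rw [integral_const]
        simp
  · simp_rw [h1 T]
    rw [int_site hA _ _ (hm T), union_self]
    unfold vT
    refine prod_congr rfl (fun b hb => ?_)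
    simp only [if_pos hb, hmul]
    exact xo_ind_int hA b

/-- **Exponential moments of sums of orthogonal products.** -/
theorem chaos_mgf (hA : IsModel μ p A) (J : Finset κ) (T : κ → Finset ι) (c : κ → ℝ) {h D : ℝ} (hh : 0 ≤ h)
    (hc : ∀ j ∈ J, |c j| ≤ h) (hD : 1 ≤ D) (hhD : 56 * (D * h) ≤ 1) (hne : ∀ j ∈ J, (T j).Nonempty)
    (hinj : ∀ i ∈ J, ∀ j ∈ J, T i = T j → i = j) (hdeg : ∀ j ∈ J, ((nb T J j).card : ℝ) ≤ D) {W : ℝ}
    (hW : W = ∑ i ∈ J, c i ^ 2 * vT p (T i)) :
    Real.exp (W / 2 - 29 * (D ^ 2 * h ^ 3) * J.card) ≤ ∫ ω, Real.exp (∑ j ∈ J, c j * xi p A (T j) ω) ∂μ ∧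
    ∫ ω, Real.exp (∑ j ∈ J, c j * xi p A (T j) ω) ∂μ ≤ Real.exp (W / 2 + 29 * (D ^ 2 * h ^ 3) * J.card) := by
  rcases hh.eq_or_lt with h0 | h0
  · have hc0 : ∀ j ∈ J, c j = 0 := by
      intro j hj
      have := hc j hj
      rw [← h0] at this
      exact abs_nonpos_iff.1 this
    have hW0 : W = 0 := by
      rw [hW]
      refine sum_eq_zero (fun j hj => ?_)
      rw [hc0 j hj]
      ring
    have e1 : ∀ ω, ∑ j ∈ J, c j * xi p A (T j) ω = 0 := by
      intro ω
      refine sum_eq_zero (fun j hj => ?_)
      rw [hc0 j hj]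
      ring
    simp_rw [e1]
    rw [hW0, ← h0]
    simp
  · obtain ⟨b, hb⟩ : ∃ b : κ → ℝ, b = fun j => (if j ∈ J then c j else 0) / h := ⟨_, rfl⟩
    have hb1 : ∀ j, |b j| ≤ 1 := by
      intro j
      rw [hb]
      simp only
      rw [abs_div, abs_of_pos h0, div_le_one h0]
      split_ifs with hj
      · exact hc j hj
      · rw [abs_zero]
        exact hh
    have hbJ : ∀ j ∈ J, h * b j = c j := by
      intro j hj
      rw [hb]
      simp only [if_pos hj]
      field_simp
    obtain ⟨Y, hY⟩ : ∃ Y : κ → Ω → ℝ, Y = fun j ω => if j ∈ J then b j * xi p A (T j) ω else 0 := ⟨_, rfl⟩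
    have hYm : ∀ j, Measurable[F A (T j : Set ι)] (Y j) := by
      intro j
      rw [hY]
      let _ : MeasurableSpace Ω := F A (T j : Set ι)
      simp only
      split_ifs
      · exact (xi_F (p := p) (A := A) (T j)).const_mul _
      · exact measurable_const
    have hYb : ∀ j ω, |Y j ω| ≤ 1 := by
      intro j ω
      rw [hY]
      simp only
      split_ifs
      · rw [abs_mul]
        have e1 := xi_abs hA (T j) ω
        have e2 := hb1 j
        have e3 := abs_nonneg (b j)
        have e4 := abs_nonneg (xi p A (T j) ω)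
        nlinarith
      · simp
    have hY0 : ∀ j, ∫ ω, Y j ω ∂μ = 0 := by
      intro j
      rw [hY]
      simp only
      split_ifs with hj
      · rw [integral_const_mul, xi_int hA (hne j hj), mul_zero]
      · simp
    have hm := mgf hA hYm hYb hY0 hD (h := h) (by rw [abs_of_pos h0]; exact hhD) J hdeg
    rw [abs_of_pos h0] at hm
    have e1 : ∀ ω, h * SS Y J ω = ∑ j ∈ J, c j * xi p A (T j) ω := by
      intro ω
      unfold SS
      rw [mul_sum]
      refine sum_congr rfl (fun j hj => ?_)
      rw [hY]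
      simp only [if_pos hj]
      rw [← mul_assoc, hbJ j hj]
    simp_rw [e1] at hm
    have e2 : h ^ 2 / 2 * VV μ Y J = W / 2 := by
      have e3 : VV μ Y J = ∑ i ∈ J, b i ^ 2 * vT p (T i) := by
        unfold VV
        refine sum_congr rfl (fun i hi => ?_)
        have e4 : ∀ j ∈ J, ∫ ω, Y i ω * Y j ω ∂μ = if i = j then b i ^ 2 * vT p (T i) else 0 := by
          intro j hj
          have e5 : ∀ ω, Y i ω * Y j ω = (b i * b j) * (xi p A (T i) ω * xi p A (T j) ω) := by
            intro ω
            rw [hY]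
            simp only [if_pos hi, if_pos hj]
            ring
          simp_rw [e5]
          rw [integral_const_mul, xi_orth hA]
          by_cases hij : i = j
          · subst hij
            rw [if_pos rfl, if_pos rfl]
            ring
          · rw [if_neg hij, if_neg (fun h' => hij (hinj i hi j hj h')), mul_zero]
        rw [sum_congr rfl e4, Finset.sum_ite_eq J i, if_pos hi]
      rw [e3, hW, mul_sum, sum_div]
      refine sum_congr rfl (fun i hi => ?_)
      rw [← hbJ i hi]
      ring
    rw [e2] at hm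
    exact hm

end Pool.Agent.Q106.CH
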