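import Pool.Agent.Q106.CH.Bs
import Pool.Agent.Q106.MD.Sys

/-!
# The representations by sums: combinatorics
-/

set_option autoImplicit false

namespace Pool.Agent.Q106.CH

open Finset MeasureTheory ProbabilityTheory Filter Pool.Agent.Q120.GM Pool.Agent.Q106.UR Pool.Agent.Q106.MD
open scoped Topology

/-- The pattern of a representation. -/
def gp (H H' : Finset ℕ) (N m : ℕ) : Finset ℕ := tl m H ∪ tl (N - m) H'

theorem mem_gp {H H' : Finset ℕ} {N m x : ℕ} : x ∈ gp H H' N m ↔ (∃ h ∈ H, m + h = x) ∨ ∃ h ∈ H', N - m + h = x := by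
  unfold gp
  rw [mem_union, mem_tl, mem_tl]
  constructor
  · rintro (⟨h, hh, e⟩ | ⟨h, hh, e⟩)
    · exact Or.inl ⟨h, hh, e.symm⟩
    · exact Or.inr ⟨h, hh, e.symm⟩
  · rintro (⟨h, hh, e⟩ | ⟨h, hh, e⟩)
    · exact Or.inl ⟨h, hh, e.symm⟩
    · exact Or.inr ⟨h, hh, e.symm⟩

theorem gp_card (H H' : Finset ℕ) (N m : ℕ) : (gp H H' N m).card ≤ H.card + H'.card := by
  unfold gp tl
  exact (card_union_le _ _).trans (add_le_add card_image_le card_image_le)

/-- The places. -/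
def gJ (a b y c N : ℕ) : Finset ℕ := (Ico a b).filter (fun m => y ≤ m ∧ 2 * m + 2 * c < N)

theorem mem_gJ {a b y c N m : ℕ} : m ∈ gJ a b y c N ↔ (a ≤ m ∧ m < b) ∧ y ≤ m ∧ 2 * m + 2 * c < N := by
  unfold gJ
  rw [mem_filter, mem_Ico]

theorem gp_inj {H H' H₁ H₁' : Finset ℕ} {N N₁ m m₁ c : ℕ} (h0 : 0 ∈ H) (h0' : 0 ∈ H₁) (hH : ∀ h ∈ H, h ≤ c)
    (hH₁ : ∀ h ∈ H₁, h ≤ c) (hm : 2 * m + 2 * c < N)
    (hm₁ : 2 * m₁ + 2 * c < N₁) (h : gp H H' N m = gp H₁ H₁' N₁ m₁) : m = m₁ ∧ H = H₁ ∧ tl N H' = tl N₁ H₁' := by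
  have e1 : m₁ ≤ m := by
    have h1 : m ∈ gp H₁ H₁' N₁ m₁ := by
      rw [← h]
      exact mem_gp.2 (Or.inl ⟨0, h0, rfl⟩)
    rcases mem_gp.1 h1 with ⟨x, hx, h2⟩ | ⟨x, hx, h2⟩
    · omega
    · omega
  have e2 : m ≤ m₁ := by
    have h1 : m₁ ∈ gp H H' N m := by
      rw [h]
      exact mem_gp.2 (Or.inl ⟨0, h0', rfl⟩)
    rcases mem_gp.1 h1 with ⟨x, hx, h2⟩ | ⟨x, hx, h2⟩
    · omega
    · omega
  have e3 : m = m₁ := le_antisymm e2 e1
  subst e3
  refine ⟨rfl, ?_, ?_⟩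
  · ext x
    constructor
    · intro hx
      have h1 : m + x ∈ gp H₁ H₁' N₁ m := by
        rw [← h]
        exact mem_gp.2 (Or.inl ⟨x, hx, rfl⟩)
      rcases mem_gp.1 h1 with ⟨z, hz, h2⟩ | ⟨z, hz, h2⟩
      · have : z = x := by omega
        rwa [this] at hz
      · have := hH x hx
        omega
    · intro hx
      have h1 : m + x ∈ gp H H' N m := by
        rw [h]
        exact mem_gp.2 (Or.inl ⟨x, hx, rfl⟩)
      rcases mem_gp.1 h1 with ⟨z, hz, h2⟩ | ⟨z, hz, h2⟩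
      · have : z = x := by omega
        rwa [this] at hz
      · have := hH₁ x hx
        omega
  · ext x
    rw [mem_tl, mem_tl]
    constructor
    · rintro ⟨z, hz, rfl⟩
      have h1 : N - m + z ∈ gp H₁ H₁' N₁ m := by
        rw [← h]
        exact mem_gp.2 (Or.inr ⟨z, hz, rfl⟩)
      rcases mem_gp.1 h1 with ⟨t, ht, h2⟩ | ⟨t, ht, h2⟩
      · have := hH₁ t ht
        omega
      · exact ⟨t, ht, by omega⟩
    · rintro ⟨z, hz, rfl⟩
      have h1 : N₁ - m + z ∈ gp H H' N m := by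
        rw [h]
        exact mem_gp.2 (Or.inr ⟨z, hz, rfl⟩)
      rcases mem_gp.1 h1 with ⟨t, ht, h2⟩ | ⟨t, ht, h2⟩
      · have := hH t ht
        omega
      · exact ⟨t, ht, by omega⟩

theorem gp_deg {r : ℕ} (H H' : Fin r → Finset ℕ) (J : Fin r → Finset ℕ) (S : Finset ℕ) {N R : ℕ}
    (hR : R = ∑ i, ((H i).card + (H' i).card)) (hS : S.card ≤ R) (hJ : ∀ i, ∀ m ∈ J i, m ≤ N) :
    (((univ.sigma J).filter (fun x => ¬ Disjoint (gp (H x.1) (H' x.1) N x.2) S)).card : ℝ) ≤ (R : ℝ) ^ 2 + 1 := by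
  have h1 : (univ.sigma J).filter (fun x => ¬ Disjoint (gp (H x.1) (H' x.1) N x.2) S) ⊆
      univ.sigma (fun i => (S ×ˢ H i).image (fun q : ℕ × ℕ => q.1 - q.2) ∪
        (S ×ˢ H' i).image (fun q : ℕ × ℕ => N + q.2 - q.1)) := by
    rintro ⟨i, m⟩ hx
    rw [mem_filter, Finset.not_disjoint_iff, mem_sigma] at hx
    obtain ⟨⟨_, hm⟩, b, h2, h3⟩ := hx
    simp only at h2 h3 hm
    have hmN := hJ i m hm
    rw [mem_sigma]
    refine ⟨mem_univ _, ?_⟩
    simp only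
    rw [mem_union, mem_image, mem_image]
    rcases mem_gp.1 h2 with ⟨h, hh, e⟩ | ⟨h, hh, e⟩
    · left
      exact ⟨(b, h), mem_product.2 ⟨h3, hh⟩, by show b - h = m; omega⟩
    · right
      exact ⟨(b, h), mem_product.2 ⟨h3, hh⟩, by show N + h - b = m; omega⟩
  have h2 : ((univ.sigma J).filter (fun x => ¬ Disjoint (gp (H x.1) (H' x.1) N x.2) S)).card ≤ R * R := by
    refine (card_le_card h1).trans ?_
    rw [card_sigma]
    have h3 : ∀ i ∈ (univ : Finset (Fin r)), ((S ×ˢ H i).image (fun q : ℕ × ℕ => q.1 - q.2) ∪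
        (S ×ˢ H' i).image (fun q : ℕ × ℕ => N + q.2 - q.1)).card ≤ S.card * ((H i).card + (H' i).card) := by
      intro i _
      refine (card_union_le _ _).trans ?_
      rw [mul_add]
      refine add_le_add (card_image_le.trans ?_) (card_image_le.trans ?_)
      · rw [card_product]
      · rw [card_product]
    refine (sum_le_sum h3).trans ?_
    rw [← mul_sum, ← hR]
    exact Nat.mul_le_mul_right _ hS
  have h3 : (((univ.sigma J).filter (fun x => ¬ Disjoint (gp (H x.1) (H' x.1) N x.2) S)).card : ℝ) ≤ ((R * R : ℕ) : ℝ) := by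
    exact_mod_cast h2
  push_cast at h3
  nlinarith

/-- A place near the support of the other representations. -/
def In4 (N N' a b c m : ℤ) : Prop :=
  (a - c ≤ m ∧ m ≤ b + c) ∨ (N - b - c ≤ m ∧ m ≤ N - a + c) ∨ (N' - b - c ≤ m ∧ m ≤ N' - a + c) ∨
    (N' - N + a - c ≤ m ∧ m ≤ N' - N + b + c)

theorem iv_card (S : Finset ℕ) (u v : ℤ) : (S.filter (fun m : ℕ => u ≤ (m : ℤ) ∧ (m : ℤ) ≤ v)).card ≤ (v + 1 - u).toNat := by
  have h1 : (S.filter (fun m : ℕ => u ≤ (m : ℤ) ∧ (m : ℤ) ≤ v)).card ≤ (Icc u v).card := by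
    refine card_le_card_of_injOn (fun m => (m : ℤ)) ?_ ?_
    · intro m hm
      rw [Finset.mem_coe, mem_filter] at hm
      rw [Finset.mem_coe, mem_Icc]
      exact hm.2
    · intro m _ m' _ h
      simpa using h
  rwa [Int.card_Icc] at h1

theorem bd_card (S : Finset ℕ) (u v : ℤ) (c : ℕ) : (S.filter (fun m : ℕ => (u - c ≤ (m : ℤ) ∧ (m : ℤ) ≤ v + c) ∧
    ¬ (u ≤ (m : ℤ) ∧ (m : ℤ) ≤ v))).card ≤ 2 * c := by
  have h1 : (S.filter (fun m : ℕ => (u - c ≤ (m : ℤ) ∧ (m : ℤ) ≤ v + c) ∧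
      ¬ (u ≤ (m : ℤ) ∧ (m : ℤ) ≤ v))).card ≤ (Ico (u - c) u ∪ Ioc v (v + c)).card := by
    refine card_le_card_of_injOn (fun m => (m : ℤ)) ?_ ?_
    · intro m hm
      rw [Finset.mem_coe, mem_filter] at hm
      rw [Finset.mem_coe, mem_union, mem_Ico, mem_Ioc]
      obtain ⟨_, ⟨h2, h3⟩, h4⟩ := hm
      simp only
      omega
    · intro m _ m' _ h
      simpa using h
  refine h1.trans ((card_union_le _ _).trans ?_)
  rw [Int.card_Ico, Int.card_Ioc]
  omega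

open Classical in
theorem in4_card (S : Finset ℕ) (N N' : ℤ) {a b c : ℕ} (hab : a ≤ b) :
    (S.filter (fun m : ℕ => In4 N N' a b c m)).card ≤ 4 * (b - a + 2 * c + 1) := by
  have h1 : S.filter (fun m : ℕ => In4 N N' a b c m) =
      S.filter (fun m : ℕ => (a : ℤ) - c ≤ (m : ℤ) ∧ (m : ℤ) ≤ b + c) ∪
      (S.filter (fun m : ℕ => N - b - c ≤ (m : ℤ) ∧ (m : ℤ) ≤ N - a + c) ∪
      (S.filter (fun m : ℕ => N' - b - c ≤ (m : ℤ) ∧ (m : ℤ) ≤ N' - a + c) ∪
      S.filter (fun m : ℕ => N' - N + a - c ≤ (m : ℤ) ∧ (m : ℤ) ≤ N' - N + b + c))) := by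
    ext m
    simp only [mem_filter, mem_union, In4]
    tauto
  rw [h1]
  have e1 := iv_card S ((a : ℤ) - c) (b + c)
  have e2 := iv_card S (N - b - c) (N - a + c)
  have e3 := iv_card S (N' - b - c) (N' - a + c)
  have e4 := iv_card S (N' - N + a - c) (N' - N + b + c)
  have u1 := card_union_le (S.filter (fun m : ℕ => (a : ℤ) - c ≤ (m : ℤ) ∧ (m : ℤ) ≤ b + c))
    (S.filter (fun m : ℕ => N - b - c ≤ (m : ℤ) ∧ (m : ℤ) ≤ N - a + c) ∪
      (S.filter (fun m : ℕ => N' - b - c ≤ (m : ℤ) ∧ (m : ℤ) ≤ N' - a + c) ∪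
      S.filter (fun m : ℕ => N' - N + a - c ≤ (m : ℤ) ∧ (m : ℤ) ≤ N' - N + b + c)))
  have u2 := card_union_le (S.filter (fun m : ℕ => N - b - c ≤ (m : ℤ) ∧ (m : ℤ) ≤ N - a + c))
    (S.filter (fun m : ℕ => N' - b - c ≤ (m : ℤ) ∧ (m : ℤ) ≤ N' - a + c) ∪
      S.filter (fun m : ℕ => N' - N + a - c ≤ (m : ℤ) ∧ (m : ℤ) ≤ N' - N + b + c))
  have u3 := card_union_le (S.filter (fun m : ℕ => N' - b - c ≤ (m : ℤ) ∧ (m : ℤ) ≤ N' - a + c))
    (S.filter (fun m : ℕ => N' - N + a - c ≤ (m : ℤ) ∧ (m : ℤ) ≤ N' - N + b + c))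
  omega

open Classical in
theorem in4_bd (S : Finset ℕ) (N N' : ℤ) (a b c : ℕ) :
    (S.filter (fun m : ℕ => In4 N N' a b (2 * c) m ∧ ¬ In4 N N' a b c m)).card ≤ 8 * c := by
  have h1 : S.filter (fun m : ℕ => In4 N N' a b (2 * c) m ∧ ¬ In4 N N' a b c m) ⊆
      S.filter (fun m : ℕ => (((a : ℤ) - c) - c ≤ (m : ℤ) ∧ (m : ℤ) ≤ (b + c) + c) ∧
        ¬ ((a : ℤ) - c ≤ (m : ℤ) ∧ (m : ℤ) ≤ b + c)) ∪
      (S.filter (fun m : ℕ => ((N - b - c) - c ≤ (m : ℤ) ∧ (m : ℤ) ≤ (N - a + c) + c) ∧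
        ¬ (N - b - c ≤ (m : ℤ) ∧ (m : ℤ) ≤ N - a + c)) ∪
      (S.filter (fun m : ℕ => ((N' - b - c) - c ≤ (m : ℤ) ∧ (m : ℤ) ≤ (N' - a + c) + c) ∧
        ¬ (N' - b - c ≤ (m : ℤ) ∧ (m : ℤ) ≤ N' - a + c)) ∪
      S.filter (fun m : ℕ => ((N' - N + a - c) - c ≤ (m : ℤ) ∧ (m : ℤ) ≤ (N' - N + b + c) + c) ∧
        ¬ (N' - N + a - c ≤ (m : ℤ) ∧ (m : ℤ) ≤ N' - N + b + c)))) := by
    intro m
    simp only [mem_filter, mem_union, In4]
    rintro ⟨hm, h2, h3⟩
    push Not at h3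
    obtain ⟨g1, g2, g3, g4⟩ := h3
    rcases h2 with ⟨h4, h5⟩ | ⟨h4, h5⟩ | ⟨h4, h5⟩ | ⟨h4, h5⟩
    · left
      refine ⟨hm, ⟨by linarith, by linarith⟩, fun h => absurd h.2 (not_le.2 (g1 h.1))⟩
    · right; left
      refine ⟨hm, ⟨by linarith, by linarith⟩, fun h => absurd h.2 (not_le.2 (g2 h.1))⟩
    · right; right; left
      refine ⟨hm, ⟨by linarith, by linarith⟩, fun h => absurd h.2 (not_le.2 (g3 h.1))⟩
    · right; right; right
      refine ⟨hm, ⟨by linarith, by linarith⟩, fun h => absurd h.2 (not_le.2 (g4 h.1))⟩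
  refine (card_le_card h1).trans ?_
  refine (card_union_le _ _).trans ?_
  refine (add_le_add (bd_card S _ _ c) ((card_union_le _ _).trans (add_le_add (bd_card S _ _ c)
    ((card_union_le _ _).trans (add_le_add (bd_card S _ _ c) (bd_card S _ _ c)))))).trans ?_
  omega

theorem In4.mono {N N' a b m : ℤ} {c : ℕ} (h : In4 N N' a b c m) : In4 N N' a b (2 * c) m := by
  unfold In4 at h ⊢
  omega

/-- **The separation.** -/
theorem gp_sep {r : ℕ} (H H' : Fin r → Finset ℕ) (N : ℕ → ℕ) (a b : ℕ → Fin r → ℕ) (y : ℕ → ℕ) {c : ℕ}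
    (hH : ∀ i, ∀ h ∈ H i, h ≤ c) (hH' : ∀ i, ∀ h ∈ H' i, h ≤ c) (hab : ∀ n i, a n i ≤ b n i) (n n' : ℕ) :
    SepC (fun n i => gJ (a n i) (b n i) (y n) c (N n)) (fun n i m => gp (H i) (H' i) (N n) m)
      (4 * r * (r * (2 * c + 1) + 1) + 8 * r * r * c) (∑ i, ((b n i : ℝ) - a n i) + 1) n n' := by
  classical
  obtain ⟨P, hP⟩ : ∃ P : ℕ → Prop, P = fun m : ℕ => ∃ i, In4 (N n) (N n') (a n i) (b n i) c m := ⟨_, rfl⟩
  obtain ⟨P2, hP2⟩ : ∃ P2 : ℕ → Prop, P2 = fun m : ℕ => ∃ i, In4 (N n) (N n') (a n i) (b n i) (2 * c) m := ⟨_, rfl⟩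
  have hPP : ∀ m, P m → P2 m := by
    intro m hm
    rw [hP] at hm
    rw [hP2]
    obtain ⟨i, hi⟩ := hm
    exact ⟨i, hi.mono⟩
  refine ⟨fun i => (gJ (a n' i) (b n' i) (y n') c (N n')).filter P,
    fun i => (gJ (a n' i) (b n' i) (y n') c (N n')).filter (fun m => P2 m ∧ ¬ P m),
    fun i => (gJ (a n' i) (b n' i) (y n') c (N n')).filter (fun m => ¬ P2 m), ?_, ?_, ?_, ?_, ?_, ?_, ?_⟩
  · intro i
    ext m
    simp only [mem_union, mem_filter]
    have := hPP m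
    tauto
  · intro i
    rw [Finset.disjoint_left]
    intro m
    simp only [mem_union, mem_filter]
    have := hPP m
    tauto
  · intro i
    rw [Finset.disjoint_left]
    intro m
    simp only [mem_filter]
    tauto
  · intro i i' m m' hm hm'
    rw [mem_filter, mem_gJ] at hm hm'
    obtain ⟨⟨_, _, hmN⟩, hm2⟩ := hm
    obtain ⟨⟨_, _, hmN'⟩, hm2'⟩ := hm'
    rw [hP] at hm2
    rw [hP2] at hm2'
    obtain ⟨t, ht⟩ := hm2
    push Not at hm2'
    have ht' := hm2' t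
    simp only
    have hfar : ∀ z : ℕ, z ≤ c → (m : ℤ) + z ≠ m' ∧ (m' : ℤ) + z ≠ m := by
      intro z hz
      unfold In4 at ht ht'
      constructor <;> intro h <;> omega
    rw [Finset.disjoint_left]
    intro x hx hx'
    rcases mem_gp.1 hx with ⟨h, hh, e⟩ | ⟨h, hh, e⟩
    · have b1 := hH i h hh
      rcases mem_gp.1 hx' with ⟨h', hh', e'⟩ | ⟨h', hh', e'⟩
      · have b2 := hH i' h' hh'
        rcases le_total m m' with hle | hle
        · exact (hfar (m' - m) (by omega)).1 (by omega)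
        · exact (hfar (m - m') (by omega)).2 (by omega)
      · omega
    · have b1 := hH' i h hh
      rcases mem_gp.1 hx' with ⟨h', hh', e'⟩ | ⟨h', hh', e'⟩
      · have b2 := hH i' h' hh'
        omega
      · have b2 := hH' i' h' hh'
        rcases le_total m m' with hle | hle
        · exact (hfar (m' - m) (by omega)).1 (by omega)
        · exact (hfar (m - m') (by omega)).2 (by omega)
  · intro i i' m m' hm hm'
    rw [mem_filter, mem_gJ] at hm'
    rw [mem_gJ] at hm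
    obtain ⟨⟨hm1, hm1'⟩, _, hmN⟩ := hm
    obtain ⟨⟨_, _, hmN'⟩, hm2'⟩ := hm'
    rw [hP2] at hm2'
    push Not at hm2'
    have ht' := hm2' i
    unfold In4 at ht'
    push Not at ht'
    obtain ⟨t1, t2, t3, t4⟩ := ht'
    simp only
    rw [Finset.disjoint_left]
    intro x hx hx'
    rcases mem_gp.1 hx with ⟨h, hh, e⟩ | ⟨h, hh, e⟩
    · have b1 := hH i h hh
      rcases mem_gp.1 hx' with ⟨h', hh', e'⟩ | ⟨h', hh', e'⟩
      · have b2 := hH i' h' hh'
        have := t1 (by omega)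
        omega
      · have b2 := hH' i' h' hh'
        have := t3 (by omega)
        omega
    · have b1 := hH' i h hh
      rcases mem_gp.1 hx' with ⟨h', hh', e'⟩ | ⟨h', hh', e'⟩
      · have b2 := hH i' h' hh'
        have := t2 (by omega)
        omega
      · have b2 := hH' i' h' hh'
        have := t4 (by omega)
        omega
  · have h1 : ∀ i : Fin r, ((gJ (a n' i) (b n' i) (y n') c (N n')).filter P).card ≤
        ∑ j, 4 * (b n j - a n j + 2 * c + 1) := by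
      intro i
      have h2 : (gJ (a n' i) (b n' i) (y n') c (N n')).filter P ⊆ univ.biUnion (fun j =>
          (gJ (a n' i) (b n' i) (y n') c (N n')).filter (fun m : ℕ => In4 (N n) (N n') (a n j) (b n j) c m)) := by
        intro m hm
        rw [mem_filter, hP] at hm
        obtain ⟨hm1, j, hj⟩ := hm
        rw [mem_biUnion]
        exact ⟨j, mem_univ _, mem_filter.2 ⟨hm1, hj⟩⟩
      refine (card_le_card h2).trans (card_biUnion_le.trans (sum_le_sum (fun j _ => ?_)))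
      exact in4_card _ _ _ (hab n j)
    have h2 : (univ.sigma (fun i => (gJ (a n' i) (b n' i) (y n') c (N n')).filter P)).card ≤
        r * ∑ j, 4 * (b n j - a n j + 2 * c + 1) := by
      rw [card_sigma]
      refine (sum_le_sum (fun i _ => h1 i)).trans (le_of_eq ?_)
      rw [sum_const, card_univ, Fintype.card_fin, smul_eq_mul]
    have h3 : ((univ.sigma (fun i => (gJ (a n' i) (b n' i) (y n') c (N n')).filter P)).card : ℝ) ≤
        r * ∑ j : Fin r, (4 * ((b n j : ℝ) - a n j) + 4 * (2 * c + 1)) := by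
      have h4 : ((univ.sigma (fun i => (gJ (a n' i) (b n' i) (y n') c (N n')).filter P)).card : ℝ) ≤
          ((r * ∑ j, 4 * (b n j - a n j + 2 * c + 1) : ℕ) : ℝ) := by exact_mod_cast h2
      refine h4.trans (le_of_eq ?_)
      push_cast
      congr 1
      refine sum_congr rfl (fun j _ => ?_)
      rw [Nat.cast_sub (hab n j)]
      ring
    refine h3.trans ?_
    rw [sum_add_distrib, ← mul_sum, sum_const, card_univ, Fintype.card_fin, nsmul_eq_mul]
    have hS : 0 ≤ ∑ j : Fin r, ((b n j : ℝ) - a n j) := by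
      refine sum_nonneg (fun j _ => ?_)
      have : (a n j : ℝ) ≤ b n j := by exact_mod_cast hab n j
      linarith
    obtain ⟨S, hSd⟩ : ∃ S, S = ∑ j : Fin r, ((b n j : ℝ) - a n j) := ⟨_, rfl⟩
    rw [← hSd] at hS ⊢
    have hr0 : (0 : ℝ) ≤ r := Nat.cast_nonneg r
    have hc0 : (0 : ℝ) ≤ c := Nat.cast_nonneg c
    have e1 : (4 * (r : ℝ) * (r * (2 * c + 1) + 1) + 8 * r * r * c) * (S + 1) - r * (4 * S + r * (4 * (2 * c + 1))) =
        4 * r * (r * (2 * c + 1)) * S + 8 * r * r * c * (S + 1) + 4 * r := by ring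
    have e2 : 0 ≤ 4 * (r : ℝ) * (r * (2 * c + 1)) * S + 8 * r * r * c * (S + 1) + 4 * r := by positivity
    linarith
  · have h1 : ∀ i : Fin r, ((gJ (a n' i) (b n' i) (y n') c (N n')).filter (fun m => P2 m ∧ ¬ P m)).card ≤
        ∑ _j : Fin r, 8 * c := by
      intro i
      have h2 : (gJ (a n' i) (b n' i) (y n') c (N n')).filter (fun m => P2 m ∧ ¬ P m) ⊆ univ.biUnion (fun j =>
          (gJ (a n' i) (b n' i) (y n') c (N n')).filter (fun m : ℕ => In4 (N n) (N n') (a n j) (b n j) (2 * c) m ∧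
            ¬ In4 (N n) (N n') (a n j) (b n j) c m)) := by
        intro m hm
        rw [mem_filter, hP, hP2] at hm
        obtain ⟨hm1, ⟨j, hj⟩, hm3⟩ := hm
        rw [mem_biUnion]
        exact ⟨j, mem_univ _, mem_filter.2 ⟨hm1, hj, fun h => hm3 ⟨j, h⟩⟩⟩
      refine (card_le_card h2).trans (card_biUnion_le.trans (sum_le_sum (fun j _ => ?_)))
      exact in4_bd _ _ _ _ _ _
    have h2 : (univ.sigma (fun i => (gJ (a n' i) (b n' i) (y n') c (N n')).filter (fun m => P2 m ∧ ¬ P m))).card ≤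
        r * (r * (8 * c)) := by
      rw [card_sigma]
      refine (sum_le_sum (fun i _ => h1 i)).trans (le_of_eq ?_)
      simp
    have h3 : ((univ.sigma (fun i => (gJ (a n' i) (b n' i) (y n') c (N n')).filter (fun m => P2 m ∧ ¬ P m))).card : ℝ) ≤
        ((r * (r * (8 * c)) : ℕ) : ℝ) := by exact_mod_cast h2
    refine h3.trans ?_
    push_cast
    have hr0 : (0 : ℝ) ≤ r := Nat.cast_nonneg r
    have hc0 : (0 : ℝ) ≤ c := Nat.cast_nonneg c
    have : 0 ≤ 4 * (r : ℝ) * (r * (2 * c + 1) + 1) := by positivity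
    linarith

end Pool.Agent.Q106.CH
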