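import Pool.Agent.Q106.CH.Gold1

/-!
# The representations by sums: the mean numbers
-/

set_option autoImplicit false

namespace Pool.Agent.Q106.CH

open Finset MeasureTheory ProbabilityTheory Filter Pool.Agent.Q120.GM Pool.Agent.Q106.UR Pool.Agent.Q106.MD
open scoped Topology

/-- All members of `m + H` and `N - m + H'` are coprime to `Q` (for residues `m`). -/
def gcop (Q : ℕ) (H H' : Finset ℕ) (N m : ℕ) : Prop :=
  (∀ h ∈ H, (m + h).Coprime Q) ∧ ∀ h ∈ H', (N + (Q - 1) * m + h).Coprime Q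

instance (Q : ℕ) (H H' : Finset ℕ) (N : ℕ) : DecidablePred (gcop Q H H' N) := fun m => by unfold gcop; infer_instance

/-- The number of these residues. -/
def gcnt (Q : ℕ) (H H' : Finset ℕ) (N : ℕ) : ℕ := ((range Q).filter (gcop Q H H' N)).card

/-- The singular series. -/
noncomputable def gsing (Q : ℕ) (H H' : Finset ℕ) (N : ℕ) : ℝ :=
  (gcnt Q H H' N : ℝ) / Q * ((Q : ℝ) / Nat.totient Q) ^ (H.card + H'.card)

/-- The density. -/
noncomputable def gwt (H H' : Finset ℕ) (N m : ℕ) : ℝ :=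
  (∏ h ∈ H, (Real.log ((m + h : ℕ) : ℝ))⁻¹) * ∏ h ∈ H', (Real.log ((N - m + h : ℕ) : ℝ))⁻¹

theorem gcop_periodic (Q : ℕ) (H H' : Finset ℕ) (N : ℕ) : Function.Periodic (gcop Q H H' N) Q := by
  intro m
  unfold gcop
  rw [eq_iff_iff]
  refine and_congr (forall₂_congr (fun h _ => ?_)) (forall₂_congr (fun h _ => ?_))
  · rw [show m + Q + h = (m + h) + Q by ring, Nat.coprime_add_self_left]
  · rw [show N + (Q - 1) * (m + Q) + h = (N + (Q - 1) * m + h) + (Q - 1) * Q by ring, Nat.coprime_add_mul_right_left]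

theorem gcop_iff {Q : ℕ} (hQ : 1 ≤ Q) {H H' : Finset ℕ} {N m : ℕ} (hm : m ≤ N) :
    gcop Q H H' N m ↔ (∀ h ∈ H, (m + h).Coprime Q) ∧ ∀ h ∈ H', (N - m + h).Coprime Q := by
  unfold gcop
  refine and_congr Iff.rfl (forall₂_congr (fun h _ => ?_))
  have h1 : N + (Q - 1) * m + h = (N - m + h) + m * Q := by
    obtain ⟨q, rfl⟩ : ∃ q, Q = q + 1 := ⟨Q - 1, by omega⟩
    obtain ⟨t, rfl⟩ : ∃ t, N = m + t := ⟨N - m, by omega⟩
    rw [Nat.add_sub_cancel, Nat.add_sub_cancel_left]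
    ring
  rw [h1, Nat.coprime_add_mul_right_left]

theorem per_block {P : ℕ → Prop} [DecidablePred P] {Q : ℕ} (hP : Function.Periodic P Q) (a : ℕ) :
    ((Ico a (a + Q)).filter P).card = ((range Q).filter P).card := by
  rw [Nat.filter_Ico_card_eq_of_periodic _ _ _ hP, Nat.count_eq_card_filter_range]

theorem per_blocks {P : ℕ → Prop} [DecidablePred P] {Q : ℕ} (hP : Function.Periodic P Q) (a m : ℕ) :
    ((Ico a (a + m * Q)).filter P).card = m * ((range Q).filter P).card := by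
  induction m with
  | zero => simp
  | succ m ih =>
    have h1 : Ico a (a + (m + 1) * Q) = Ico a (a + m * Q) ∪ Ico (a + m * Q) (a + m * Q + Q) := by
      rw [Ico_union_Ico_eq_Ico (by omega) (by omega)]
      congr 1
      ring
    rw [h1, filter_union, card_union_of_disjoint, ih, per_block hP]
    · ring
    · exact (Ico_disjoint_Ico_consecutive _ _ _).mono (filter_subset _ _) (filter_subset _ _)

/-- The number of solutions in an interval. -/
theorem per_real {P : ℕ → Prop} [DecidablePred P] {Q : ℕ} (hQ : 1 ≤ Q) (hP : Function.Periodic P Q) (a b : ℕ) (hab : a ≤ b) :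
    |∑ m ∈ Ico a b, ((if P m then (1 : ℝ) else 0) - (((range Q).filter P).card : ℝ) / Q)| ≤ Q := by
  obtain ⟨w, rfl⟩ : ∃ w, b = a + w := ⟨b - a, by omega⟩
  obtain ⟨C, hC⟩ : ∃ C, C = ((range Q).filter P).card := ⟨_, rfl⟩
  have hQ0 : (0 : ℝ) < Q := by exact_mod_cast hQ
  have hCQ : (C : ℝ) ≤ Q := by
    have : C ≤ Q := by
      rw [hC]
      exact (card_filter_le _ _).trans (by rw [card_range])
    exact_mod_cast this
  have g1 := Nat.div_mul_le_self w Q
  have g2 : w < (w / Q + 1) * Q := by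
    have := Nat.lt_div_mul_add (a := w) (b := Q) (by omega)
    linarith [this, show (w / Q + 1) * Q = w / Q * Q + Q by ring]
  have h1 : w / Q * C ≤ ((Ico a (a + w)).filter P).card := by
    rw [hC, ← per_blocks hP a]
    exact card_le_card (filter_subset_filter _ (Ico_subset_Ico_right (by omega)))
  have h2 : ((Ico a (a + w)).filter P).card ≤ (w / Q + 1) * C := by
    rw [hC, ← per_blocks hP a]
    exact card_le_card (filter_subset_filter _ (Ico_subset_Ico_right (by omega)))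
  have h1' : ((w / Q : ℕ) : ℝ) * C ≤ (((Ico a (a + w)).filter P).card : ℝ) := by exact_mod_cast h1
  have h2' : (((Ico a (a + w)).filter P).card : ℝ) ≤ (((w / Q : ℕ) : ℝ) + 1) * C := by exact_mod_cast h2
  have h3 : ((w / Q : ℕ) : ℝ) ≤ w / Q := Nat.cast_div_le
  have h4 : (w : ℝ) / Q < ((w / Q : ℕ) : ℝ) + 1 := by
    rw [div_lt_iff₀ hQ0]
    have := Nat.lt_div_mul_add (a := w) (b := Q) (by omega)
    have h5 : (w : ℝ) < ((w / Q * Q + Q : ℕ) : ℝ) := by exact_mod_cast this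
    push_cast at h5
    linarith
  have hc : (0 : ℝ) ≤ C := Nat.cast_nonneg _
  rw [sum_sub_distrib, sum_const, Nat.card_Ico, nsmul_eq_mul, ← sum_filter, sum_const, nsmul_eq_mul, mul_one, ← hC,
    Nat.add_sub_cancel_left]
  have h5 : (w : ℝ) * (C / Q) = w / Q * C := by ring
  rw [h5, abs_le]
  have h6 := mul_le_mul_of_nonneg_right h3 hc
  have h7 := mul_le_mul_of_nonneg_right h4.le hc
  constructor
  · linarith
  · linarith

/-- Summation by parts. -/
theorem abel_bv {f w V : ℕ → ℝ} {a b : ℕ} {B : ℝ} (hf : ∀ m, a ≤ m → m < b → |f (m + 1) - f m| ≤ V (m + 1) - V m)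
    (hw : ∀ b', a ≤ b' → b' ≤ b → |∑ m ∈ Ico a b', w m| ≤ B) (hab : a ≤ b) :
    |∑ m ∈ Ico a b, w m * f m| ≤ B * |f b| + B * (V b - V a) := by
  have key : ∀ b', a ≤ b' → b' ≤ b → |∑ m ∈ Ico a b', w m * f m - (∑ m ∈ Ico a b', w m) * f b'| ≤ B * (V b' - V a) := by
    intro b' hb'
    induction b', hb' using Nat.le_induction with
    | base => simp
    | succ b' hb' ih =>
      intro hb
      have h0 := ih (by omega)
      rw [sum_Ico_succ_top hb', sum_Ico_succ_top hb']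
      have h1 : ∑ m ∈ Ico a b', w m * f m + w b' * f b' - (∑ m ∈ Ico a b', w m + w b') * f (b' + 1) =
          (∑ m ∈ Ico a b', w m * f m - (∑ m ∈ Ico a b', w m) * f b') -
            (∑ m ∈ Ico a (b' + 1), w m) * (f (b' + 1) - f b') := by
        rw [sum_Ico_succ_top hb']
        ring
      rw [h1]
      refine (abs_sub _ _).trans ?_
      rw [abs_mul]
      have h2 := hf b' hb' (by omega)
      have h3 := hw (b' + 1) (by omega) hb
      have h4 : |∑ m ∈ Ico a (b' + 1), w m| * |f (b' + 1) - f b'| ≤ B * (V (b' + 1) - V b') :=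
        mul_le_mul h3 h2 (abs_nonneg _) ((abs_nonneg _).trans h3)
      linarith
  have h1 := key b hab le_rfl
  have h2 : |(∑ m ∈ Ico a b, w m) * f b| ≤ B * |f b| := by
    rw [abs_mul]
    exact mul_le_mul_of_nonneg_right (hw b hab le_rfl) (abs_nonneg _)
  have h3 : ∑ m ∈ Ico a b, w m * f m = (∑ m ∈ Ico a b, w m * f m - (∑ m ∈ Ico a b, w m) * f b) +
      (∑ m ∈ Ico a b, w m) * f b := by ring
  rw [h3]
  refine (abs_add_le _ _).trans ?_
  linarith

theorem log3 {m : ℕ} (hm : 3 ≤ m) : 1 ≤ Real.log m := by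
  have h1 : Real.exp 1 ≤ 3 := by
    have := Real.exp_one_lt_d9
    linarith
  have h2 : (3 : ℝ) ≤ m := by exact_mod_cast hm
  rw [Real.le_log_iff_exp_le (by linarith)]
  linarith

theorem linv {m : ℕ} (hm : 3 ≤ m) : 0 ≤ (Real.log m)⁻¹ ∧ (Real.log m)⁻¹ ≤ 1 :=
  ⟨inv_nonneg.2 (by linarith [log3 hm]), inv_le_one_of_one_le₀ (log3 hm)⟩

theorem linv_anti {m m' : ℕ} (hm : 3 ≤ m) (h : m ≤ m') : (Real.log m')⁻¹ ≤ (Real.log m)⁻¹ := by
  have h1 := log3 hm
  refine inv_anti₀ (by linarith) (Real.log_le_log ?_ (by exact_mod_cast h))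
  have : (3 : ℝ) ≤ m := by exact_mod_cast hm
  linarith

/-- One factor of the density. -/
noncomputable def gf (H : Finset ℕ) (m : ℕ) : ℝ := ∏ h ∈ H, (Real.log ((m + h : ℕ) : ℝ))⁻¹

theorem gf_nonneg (H : Finset ℕ) {m : ℕ} (hm : 3 ≤ m) : 0 ≤ gf H m := prod_nonneg (fun h _ => (linv (by omega)).1)

theorem gf_le_one (H : Finset ℕ) {m : ℕ} (hm : 3 ≤ m) : gf H m ≤ 1 :=
  prod_le_one (fun h _ => (linv (by omega)).1) (fun h _ => (linv (by omega)).2)

theorem gf_anti (H : Finset ℕ) {m m' : ℕ} (hm : 3 ≤ m) (h : m ≤ m') : gf H m' ≤ gf H m :=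
  prod_le_prod (fun h _ => (linv (by omega)).1) (fun h _ => linv_anti (by omega) (by omega))

theorem gwt_eq (H H' : Finset ℕ) (N m : ℕ) : gwt H H' N m = gf H m * gf H' (N - m) := rfl

theorem gwt_nonneg (H H' : Finset ℕ) {N m : ℕ} (hm : 3 ≤ m) (hN : 2 * m ≤ N) : 0 ≤ gwt H H' N m :=
  mul_nonneg (gf_nonneg H hm) (gf_nonneg H' (by omega))

theorem gwt_le_one (H H' : Finset ℕ) {N m : ℕ} (hm : 3 ≤ m) (hN : 2 * m ≤ N) : gwt H H' N m ≤ 1 :=
  mul_le_one₀ (gf_le_one H hm) (gf_nonneg H' (by omega)) (gf_le_one H' (by omega))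

/-- The weighted number of solutions. -/
theorem gsum {Q : ℕ} (hQ : 1 ≤ Q) (H H' : Finset ℕ) {N a b : ℕ} (hab : a ≤ b) (ha : 3 ≤ a) (hb : 2 * b ≤ N) :
    |∑ m ∈ Ico a b, ((if gcop Q H H' N m then (1 : ℝ) else 0) - (gcnt Q H H' N : ℝ) / Q) * gwt H H' N m| ≤ 3 * Q := by
  have h1 := abel_bv (f := fun m => gwt H H' N m) (V := fun m => gf H' (N - m) - gf H m)
    (w := fun m => (if gcop Q H H' N m then (1 : ℝ) else 0) - (gcnt Q H H' N : ℝ) / Q) (a := a) (b := b) (B := Q)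
    (fun m hm hmb => ?_) (fun b' hb' _ => per_real hQ (gcop_periodic Q H H' N) a b' hb') hab
  · refine h1.trans ?_
    have hQ0 : (0 : ℝ) < Q := by exact_mod_cast hQ
    have e1 : |gwt H H' N b| ≤ 1 := by
      rw [abs_of_nonneg (gwt_nonneg H H' (by omega) hb)]
      exact gwt_le_one H H' (by omega) hb
    have e2 := gf_le_one H' (m := N - b) (by omega)
    have e3 := gf_nonneg H (m := b) (by omega)
    have e4 := gf_nonneg H' (m := N - a) (by omega)
    have e5 := gf_le_one H (m := a) (by omega)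
    have e6 : (Q : ℝ) * |gwt H H' N b| ≤ Q * 1 := mul_le_mul_of_nonneg_left e1 hQ0.le
    have e7 : (Q : ℝ) * ((gf H' (N - b) - gf H b) - (gf H' (N - a) - gf H a)) ≤ Q * 2 :=
      mul_le_mul_of_nonneg_left (by linarith) hQ0.le
    linarith
  · rw [gwt_eq, gwt_eq]
    have e1 := gf_anti H (m := m) (m' := m + 1) (by omega) (by omega)
    have e2 := gf_anti H' (m := N - (m + 1)) (m' := N - m) (by omega) (by omega)
    have e3 := gf_nonneg H (m := m + 1) (by omega)
    have e4 := gf_le_one H (m := m) (by omega)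
    have e5 := gf_nonneg H' (m := N - m) (by omega)
    have e6 := gf_le_one H' (m := N - (m + 1)) (by omega)
    have e7 : gf H (m + 1) * gf H' (N - (m + 1)) - gf H m * gf H' (N - m) =
        gf H (m + 1) * (gf H' (N - (m + 1)) - gf H' (N - m)) - (gf H m - gf H (m + 1)) * gf H' (N - m) := by ring
    rw [e7]
    refine (abs_sub _ _).trans ?_
    rw [abs_of_nonneg (mul_nonneg e3 (by linarith)), abs_of_nonneg (mul_nonneg (by linarith) e5)]
    have e8 : gf H (m + 1) * (gf H' (N - (m + 1)) - gf H' (N - m)) ≤ 1 * (gf H' (N - (m + 1)) - gf H' (N - m)) :=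
      mul_le_mul_of_nonneg_right (by linarith) (by linarith)
    have e9 : (gf H m - gf H (m + 1)) * gf H' (N - m) ≤ (gf H m - gf H (m + 1)) * 1 :=
      mul_le_mul_of_nonneg_left (by linarith) (by linarith)
    linarith

/-- The probability of one factor. -/
theorem prob_tl {Q : ℕ} (H : Finset ℕ) {m y : ℕ} (hy : qq Q ≤ Real.log y) (hy1 : 1 ≤ Real.log y) (hm : y ≤ m) :
    ∏ b ∈ tl m H, level Q b = if Good Q H m then qq Q ^ H.card * gf H m else 0 := by
  have hy0 := pos_of_log hy1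
  by_cases hg : Good Q H m
  · rw [if_pos hg, prod_tl]
    unfold gf
    rw [← prod_const, ← prod_mul_distrib]
    refine prod_congr rfl (fun h hh => ?_)
    have h1 : Real.log y ≤ Real.log ((m + h : ℕ) : ℝ) := by
      refine Real.log_le_log (by linarith) ?_
      exact_mod_cast (show y ≤ m + h by omega)
    unfold level
    rw [if_pos (hg h hh), min_eq_right]
    · rfl
    · rw [div_le_one (by linarith)]
      unfold qq at hy
      linarith
  · rw [if_neg hg]
    exact tuple_zero hg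

/-- The probability of a pattern. -/
theorem prob_gp {Q : ℕ} (hQ : 1 ≤ Q) {H H' : Finset ℕ} {N m y c : ℕ} (hH : ∀ h ∈ H, h ≤ c)
    (hy : qq Q ≤ Real.log y) (hy1 : 1 ≤ Real.log y) (hm : y ≤ m) (hmN : 2 * m + 2 * c < N) :
    pT (level Q) (gp H H' N m) = qq Q ^ (H.card + H'.card) * ((if gcop Q H H' N m then 1 else 0) * gwt H H' N m) := by
  have hd : Disjoint (tl m H) (tl (N - m) H') := by
    rw [Finset.disjoint_left]
    intro x hx hx'
    rw [mem_tl] at hx hx'
    obtain ⟨h, hh, e⟩ := hx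
    obtain ⟨h', hh', e'⟩ := hx'
    have := hH h hh
    omega
  unfold pT gp
  rw [prod_union hd, prob_tl H hy hy1 hm, prob_tl H' hy hy1 (m := N - m) (by omega), gwt_eq]
  have hiff := gcop_iff hQ (H := H) (H' := H') (N := N) (m := m) (by omega)
  by_cases h1 : Good Q H m
  · by_cases h2 : Good Q H' (N - m)
    · rw [if_pos h1, if_pos h2, if_pos (hiff.2 ⟨h1, h2⟩), pow_add]
      ring
    · rw [if_neg h2, if_neg (fun h => h2 (hiff.1 h).2)]
      ring
  · rw [if_neg h1, if_neg (fun h => h1 (hiff.1 h).1)]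
    ring

/-- The predicted number. -/
noncomputable def gex (Q : ℕ) (H H' : Finset ℕ) (N a b : ℕ) : ℝ := gsing Q H H' N * ∑ m ∈ Ico a b, gwt H H' N m

/-- **The mean number of representations.** -/
theorem gmean {Q : ℕ} (hQ : 1 ≤ Q) {H H' : Finset ℕ} {N a b y c : ℕ} (hH : ∀ h ∈ H, h ≤ c) (hab : a ≤ b) (ha : 3 ≤ a)
    (hb : 2 * b ≤ N) (hy : qq Q ≤ Real.log y) (hy1 : 1 ≤ Real.log y) :
    |∑ m ∈ gJ a b y c N, pT (level Q) (gp H H' N m) - gex Q H H' N a b| ≤
      qq Q ^ (H.card + H'.card) * (3 * Q + y + c) := by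
  have hq0 := qq_pos hQ
  have hQ0 : (0 : ℝ) < Q := by exact_mod_cast hQ
  obtain ⟨q, hq⟩ : ∃ q, q = qq Q ^ (H.card + H'.card) := ⟨_, rfl⟩
  have hqp : 0 < q := by rw [hq]; positivity
  rw [← hq]
  have hsub : gJ a b y c N ⊆ Ico a b := filter_subset _ _
  have h1 : ∑ m ∈ gJ a b y c N, pT (level Q) (gp H H' N m) =
      q * ∑ m ∈ gJ a b y c N, (if gcop Q H H' N m then (1 : ℝ) else 0) * gwt H H' N m := by
    rw [mul_sum]
    refine sum_congr rfl (fun m hm => ?_)
    rw [mem_gJ] at hm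
    rw [prob_gp hQ hH hy hy1 hm.2.1 hm.2.2, hq]
  have h2 : gex Q H H' N a b = q * ∑ m ∈ Ico a b, (gcnt Q H H' N : ℝ) / Q * gwt H H' N m := by
    unfold gex gsing
    have : (Q : ℝ) / Nat.totient Q = qq Q := rfl
    rw [this, ← hq, ← mul_sum]
    ring
  have h3 : ∑ m ∈ Ico a b, (if gcop Q H H' N m then (1 : ℝ) else 0) * gwt H H' N m =
      ∑ m ∈ Ico a b \ gJ a b y c N, (if gcop Q H H' N m then (1 : ℝ) else 0) * gwt H H' N m +
      ∑ m ∈ gJ a b y c N, (if gcop Q H H' N m then (1 : ℝ) else 0) * gwt H H' N m := (sum_sdiff hsub).symm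
  have hterm : ∀ m ∈ Ico a b, 0 ≤ (if gcop Q H H' N m then (1 : ℝ) else 0) * gwt H H' N m ∧
      (if gcop Q H H' N m then (1 : ℝ) else 0) * gwt H H' N m ≤ 1 := by
    intro m hm
    rw [mem_Ico] at hm
    have e1 := gwt_nonneg H H' (N := N) (m := m) (by omega) (by omega)
    have e2 := gwt_le_one H H' (N := N) (m := m) (by omega) (by omega)
    split_ifs
    · rw [one_mul]
      exact ⟨e1, e2⟩
    · rw [zero_mul]
      exact ⟨le_rfl, zero_le_one⟩
  have hcard : (Ico a b \ gJ a b y c N).card ≤ y + c := by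
    have e1 : Ico a b \ gJ a b y c N ⊆ range y ∪ Ico (b - c) b := by
      intro m hm
      rw [Finset.mem_sdiff, mem_gJ, mem_Ico] at hm
      rw [mem_union, mem_range, mem_Ico]
      omega
    refine (card_le_card e1).trans ((card_union_le _ _).trans ?_)
    rw [card_range, Nat.card_Ico]
    omega
  have h4 : 0 ≤ ∑ m ∈ Ico a b \ gJ a b y c N, (if gcop Q H H' N m then (1 : ℝ) else 0) * gwt H H' N m :=
    sum_nonneg (fun m hm => (hterm m (Finset.mem_sdiff.1 hm).1).1)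
  have h5 : ∑ m ∈ Ico a b \ gJ a b y c N, (if gcop Q H H' N m then (1 : ℝ) else 0) * gwt H H' N m ≤ y + c := by
    refine (sum_le_sum (fun m hm => (hterm m (Finset.mem_sdiff.1 hm).1).2)).trans ?_
    rw [sum_const, nsmul_eq_mul, mul_one]
    exact_mod_cast hcard
  have h6 := gsum hQ H H' (N := N) hab ha hb
  have h7 : ∑ m ∈ Ico a b, ((if gcop Q H H' N m then (1 : ℝ) else 0) - (gcnt Q H H' N : ℝ) / Q) * gwt H H' N m =
      ∑ m ∈ Ico a b, (if gcop Q H H' N m then (1 : ℝ) else 0) * gwt H H' N m -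
      ∑ m ∈ Ico a b, (gcnt Q H H' N : ℝ) / Q * gwt H H' N m := by
    rw [← sum_sub_distrib]
    exact sum_congr rfl (fun m _ => by ring)
  rw [h7, h3, abs_le] at h6
  rw [h1, h2, ← mul_sub, abs_mul, abs_of_pos hqp]
  refine mul_le_mul_of_nonneg_left ?_ hqp.le
  rw [abs_le]
  constructor
  · linarith [h6.1]
  · linarith [h6.2]

theorem one_le_qq {Q : ℕ} (hQ : 1 ≤ Q) : 1 ≤ qq Q := by
  unfold qq
  have h1 : 0 < Nat.totient Q := Nat.totient_pos.2 hQ
  have h2 : (0 : ℝ) < Nat.totient Q := by exact_mod_cast h1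
  rw [one_le_div h2]
  exact_mod_cast Nat.totient_le Q

theorem gsing_ge {Q : ℕ} (hQ : 1 ≤ Q) {H H' : Finset ℕ} {N : ℕ} (hs : 0 < gsing Q H H' N) : 1 / (Q : ℝ) ≤ gsing Q H H' N := by
  have hQ0 : (0 : ℝ) < Q := by exact_mod_cast hQ
  have hc : 1 ≤ gcnt Q H H' N := by
    by_contra hcon
    have h0 : gcnt Q H H' N = 0 := by omega
    unfold gsing at hs
    rw [h0] at hs
    simp at hs
  have h1 : (1 : ℝ) ≤ gcnt Q H H' N := by exact_mod_cast hc
  have h2 : 1 ≤ qq Q ^ (H.card + H'.card) := one_le_pow₀ (one_le_qq hQ)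
  have h3 : gsing Q H H' N = (gcnt Q H H' N : ℝ) / Q * qq Q ^ (H.card + H'.card) := rfl
  rw [h3]
  have h4 : 1 / (Q : ℝ) ≤ (gcnt Q H H' N : ℝ) / Q := div_le_div_of_nonneg_right h1 hQ0.le
  have h5 : (gcnt Q H H' N : ℝ) / Q * 1 ≤ (gcnt Q H H' N : ℝ) / Q * qq Q ^ (H.card + H'.card) :=
    mul_le_mul_of_nonneg_left h2 (by positivity)
  linarith

theorem gf_ge (H : Finset ℕ) {m β R : ℕ} (hm : 3 ≤ m) (hβ3 : 3 ≤ β) (hβ : ∀ h ∈ H, m + h ≤ β) (hR : H.card ≤ R) :
    (Real.log β)⁻¹ ^ R ≤ gf H m := by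
  have h1 := linv hβ3
  refine (pow_le_pow_of_le_one h1.1 h1.2 hR).trans ?_
  unfold gf
  rw [← prod_const]
  exact prod_le_prod (fun _ _ => h1.1) (fun h hh => linv_anti (by omega) (hβ h hh))

/-- The predicted number is large. -/
theorem gex_ge {Q : ℕ} (hQ : 1 ≤ Q) {H H' : Finset ℕ} {N a b c R : ℕ} (hs : 0 < gsing Q H H' N) (hH : ∀ h ∈ H, h ≤ c)
    (hH' : ∀ h ∈ H', h ≤ c) (hab : a ≤ b) (ha : 3 ≤ a) (hb : 2 * b ≤ N) (hc : c ≤ N) (hN : 3 ≤ N)
    (hR : H.card + H'.card ≤ R) :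
    1 / (Q : ℝ) * (((b : ℝ) - a) * (Real.log ((2 * N : ℕ) : ℝ))⁻¹ ^ R) ≤ gex Q H H' N a b := by
  have h1 := gsing_ge hQ hs
  have hL := linv (m := 2 * N) (by omega)
  have h2 : ((b : ℝ) - a) * (Real.log ((2 * N : ℕ) : ℝ))⁻¹ ^ R ≤ ∑ m ∈ Ico a b, gwt H H' N m := by
    have h3 : ∀ m ∈ Ico a b, (Real.log ((2 * N : ℕ) : ℝ))⁻¹ ^ R ≤ gwt H H' N m := by
      intro m hm
      rw [mem_Ico] at hm
      have e1 := gf_ge H (m := m) (β := 2 * N) (R := H.card) (by omega) (by omega) (fun h hh => by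
        have := hH h hh
        omega) le_rfl
      have e2 := gf_ge H' (m := N - m) (β := 2 * N) (R := H'.card) (by omega) (by omega) (fun h hh => by
        have := hH' h hh
        omega) le_rfl
      have e3 := mul_le_mul e1 e2 (pow_nonneg hL.1 _) (gf_nonneg H (m := m) (by omega))
      rw [← pow_add] at e3
      exact (pow_le_pow_of_le_one hL.1 hL.2 hR).trans e3
    have h4 := sum_le_sum h3
    rw [sum_const, Nat.card_Ico, nsmul_eq_mul, Nat.cast_sub hab] at h4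
    exact h4
  unfold gex
  have h5 : 0 ≤ ((b : ℝ) - a) * (Real.log ((2 * N : ℕ) : ℝ))⁻¹ ^ R := by
    have : (a : ℝ) ≤ b := by exact_mod_cast hab
    exact mul_nonneg (by linarith) (pow_nonneg hL.1 _)
  exact mul_le_mul h1 h2 h5 hs.le

end Pool.Agent.Q106.CH
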