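import Pool.Agent.Q106.CH.Gold2

/-!
# The representations by sums: the law
-/

set_option autoImplicit false

namespace Pool.Agent.Q106.CH

open Finset MeasureTheory ProbabilityTheory Filter Pool.Agent.Q120.GM Pool.Agent.Q106.UR Pool.Agent.Q106.MD
open scoped Topology

theorem ev_pow_log (K : ℝ) (R : ℕ) {s t : ℝ} (h : s < t) :
    ∀ᶠ x : ℕ in atTop, K * (Real.log ((2 * x : ℕ) : ℝ) ^ R * (x : ℝ) ^ s) ≤ (x : ℝ) ^ t := by
  have h0 : 0 < t - s := by linarith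
  have hlim : Tendsto (fun x : ℕ => ((2 * x : ℕ) : ℝ)) atTop atTop := by
    push_cast
    exact tendsto_natCast_atTop_atTop.const_mul_atTop (by norm_num)
  have h1 := (isLittleO_log_rpow_rpow_atTop (R : ℝ) h0).comp_tendsto hlim
  have hc : 0 < 1 / ((|K| + 1) * 2 ^ (t - s)) := by positivity
  filter_upwards [h1.def hc, eventually_ge_atTop 1] with x h2 h3
  have hx : (0 : ℝ) < x := by exact_mod_cast h3
  have hlog : 0 ≤ Real.log ((2 * x : ℕ) : ℝ) := Real.log_natCast_nonneg _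
  simp only [Function.comp, Real.rpow_natCast] at h2
  rw [Real.norm_of_nonneg (by positivity), Real.norm_of_nonneg (by positivity)] at h2
  have h4 : ((2 * x : ℕ) : ℝ) ^ (t - s) = 2 ^ (t - s) * (x : ℝ) ^ (t - s) := by
    push_cast
    exact Real.mul_rpow (by norm_num) hx.le
  rw [h4] at h2
  have h5 : (|K| + 1) * Real.log ((2 * x : ℕ) : ℝ) ^ R ≤ (x : ℝ) ^ (t - s) := by
    have h6 := mul_le_mul_of_nonneg_left h2 (by positivity : 0 ≤ |K| + 1)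
    have h7 : (|K| + 1) * (1 / ((|K| + 1) * 2 ^ (t - s)) * (2 ^ (t - s) * (x : ℝ) ^ (t - s))) = (x : ℝ) ^ (t - s) := by
      have : (0 : ℝ) < 2 ^ (t - s) := by positivity
      field_simp
    rwa [h7] at h6
  have h6 : K * Real.log ((2 * x : ℕ) : ℝ) ^ R ≤ (x : ℝ) ^ (t - s) :=
    (mul_le_mul_of_nonneg_right (by linarith [le_abs_self K]) (by positivity)).trans h5
  calc K * (Real.log ((2 * x : ℕ) : ℝ) ^ R * (x : ℝ) ^ s) = (K * Real.log ((2 * x : ℕ) : ℝ) ^ R) * (x : ℝ) ^ s := by ring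
    _ ≤ (x : ℝ) ^ (t - s) * (x : ℝ) ^ s := mul_le_mul_of_nonneg_right h6 (by positivity)
    _ = (x : ℝ) ^ t := by
      rw [← Real.rpow_add hx]
      congr 1
      ring

/-- The data: patterns, targets, windows. -/
structure GD (Q : ℕ) {r : ℕ} (H H' : Fin r → Finset ℕ) (N : ℕ → ℕ) (a b : ℕ → Fin r → ℕ) (M : ℕ → ℝ) (δ : ℝ) : Prop where
  zero : ∀ i, 0 ∈ H i
  uniq : ∀ n n' i i', H i = H i' → tl (N n) (H' i) = tl (N n') (H' i') →
    n = n' ∧ (i = i' ∨ Disjoint (Ico (a n i) (b n i)) (Ico (a n i') (b n i')))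
  grow : ∀ n, n ≤ N n
  sing : ∀ n i, 0 < gsing Q (H i) (H' i) (N n)
  win : ∀ n i, 3 ≤ a n i ∧ a n i ≤ b n i ∧ 2 * b n i ≤ N n
  size : ∀ n, (N n : ℝ) ^ δ ≤ M n
  low : ∀ n i, M n ≤ (b n i : ℝ) - a n i
  high : ∀ n i, (b n i : ℝ) - a n i ≤ M n ^ (3 / 2 - δ)

/-- The cut. -/
noncomputable def gy (δ : ℝ) (N : ℕ → ℕ) (n : ℕ) : ℕ := ⌈(N n : ℝ) ^ (δ / 3)⌉₊

/-- The lower bound for the predicted numbers. -/
noncomputable def ge0 (Q R : ℕ) (N : ℕ → ℕ) (M : ℕ → ℝ) (n : ℕ) : ℝ :=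
  1 / (Q : ℝ) * (M n * (Real.log ((2 * N n : ℕ) : ℝ))⁻¹ ^ R)

section

variable {Q r : ℕ} {H H' : Fin r → Finset ℕ} {N : ℕ → ℕ} {a b : ℕ → Fin r → ℕ} {M : ℕ → ℝ} {δ : ℝ}

theorem GD.lim (hG : GD Q H H' N a b M δ) : Tendsto N atTop atTop := tendsto_atTop_mono hG.grow tendsto_id

theorem gy_lim (hG : GD Q H H' N a b M δ) (hδ : 0 < δ) : Tendsto (fun n => Real.log (gy δ N n)) atTop atTop := by
  refine Real.tendsto_log_atTop.comp ?_
  have h1 : Tendsto (fun n => (N n : ℝ) ^ (δ / 3)) atTop atTop :=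
    (tendsto_rpow_atTop (by positivity)).comp (tendsto_natCast_atTop_atTop.comp hG.lim)
  exact tendsto_atTop_mono (fun n => Nat.le_ceil _) h1

/-- The growth facts. -/
theorem gfacts (hG : GD Q H H' N a b M δ) (hQ : 1 ≤ Q) (hδ : 0 < δ) (hδ1 : δ ≤ 1 / 2) (R : ℕ) (K : ℝ) :
    ∀ᶠ n : ℕ in atTop, (n : ℝ) ^ (δ ^ 2) ≤ ge0 Q R N M n ∧
      K * M n ^ (3 - 2 * δ) * (n : ℝ) ^ (δ ^ 2) ≤ ge0 Q R N M n ^ 3 ∧
      (K * (gy δ N n + 1)) ^ 2 ≤ ge0 Q R N M n ∧ 1 ≤ M n ∧ 3 ≤ N n ∧ K ≤ N n := by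
  have hQ0 : (0 : ℝ) < Q := by exact_mod_cast hQ
  have g1 := hG.lim.eventually (ev_pow_log (Q : ℝ) R (s := δ ^ 2) (t := δ) (by nlinarith))
  have g2 := hG.lim.eventually (ev_pow_log ((|K| + 1) * (Q : ℝ) ^ 3) (3 * R) (s := δ ^ 2) (t := 2 * δ ^ 2) (by nlinarith))
  have g3 := hG.lim.eventually (ev_pow_log ((3 * (|K| + 1)) ^ 2 * (Q : ℝ)) R (s := 2 * δ / 3) (t := δ) (by linarith))
  have g4 := (tendsto_natCast_atTop_atTop (R := ℝ)).comp hG.lim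
  filter_upwards [g1, g2, g3, g4.eventually_ge_atTop K, hG.lim.eventually_ge_atTop 3] with n h1 h2 h3 h4 h5
  have hN1 : (1 : ℝ) ≤ N n := by exact_mod_cast (show 1 ≤ N n by omega)
  have hN0 : (0 : ℝ) < N n := by linarith
  obtain ⟨L, hL⟩ : ∃ L, L = Real.log ((2 * N n : ℕ) : ℝ) := ⟨_, rfl⟩
  rw [← hL] at h1 h2 h3
  have hL0 : 0 < L := by
    rw [hL]
    have := log3 (m := 2 * N n) (by omega)
    linarith
  have hsz := hG.size n
  have hM1 : 1 ≤ M n := (Real.one_le_rpow hN1 hδ.le).trans hsz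
  have he : ge0 Q R N M n = M n / (Q * L ^ R) := by
    unfold ge0
    rw [← hL, inv_pow]
    field_simp
  have hn : (n : ℝ) ^ (δ ^ 2) ≤ (N n : ℝ) ^ (δ ^ 2) := by
    refine Real.rpow_le_rpow (Nat.cast_nonneg n) ?_ (by positivity)
    exact_mod_cast hG.grow n
  have hQL : 0 < Q * L ^ R := by positivity
  refine ⟨?_, ?_, ?_, hM1, h5, h4⟩
  · rw [he, le_div_iff₀ hQL]
    have e1 : (n : ℝ) ^ (δ ^ 2) * (Q * L ^ R) ≤ (N n : ℝ) ^ (δ ^ 2) * (Q * L ^ R) :=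
      mul_le_mul_of_nonneg_right hn hQL.le
    linarith
  · have hM0 : 0 < M n := by linarith
    rw [he, div_pow, le_div_iff₀ (by positivity)]
    have e1 : M n ^ 3 = M n ^ (3 - 2 * δ) * M n ^ (2 * δ) := by
      rw [← Real.rpow_natCast, ← Real.rpow_add hM0]
      congr 1
      push_cast
      ring
    have e2 : (N n : ℝ) ^ (2 * δ ^ 2) ≤ M n ^ (2 * δ) := by
      have e3 : (N n : ℝ) ^ (2 * δ ^ 2) = ((N n : ℝ) ^ δ) ^ (2 * δ) := by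
        rw [← Real.rpow_mul hN0.le]
        congr 1
        ring
      rw [e3]
      exact Real.rpow_le_rpow (by positivity) hsz (by positivity)
    have e3 : (|K| + 1) * (n : ℝ) ^ (δ ^ 2) * (Q * L ^ R) ^ 3 ≤ M n ^ (2 * δ) := by
      have e4 : (|K| + 1) * (n : ℝ) ^ (δ ^ 2) * (Q * L ^ R) ^ 3 ≤ (|K| + 1) * (N n : ℝ) ^ (δ ^ 2) * (Q * L ^ R) ^ 3 := by
        gcongr
      have e5 : (|K| + 1) * (N n : ℝ) ^ (δ ^ 2) * (Q * L ^ R) ^ 3 = (|K| + 1) * (Q : ℝ) ^ 3 * (L ^ (3 * R) * (N n : ℝ) ^ (δ ^ 2)) := by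
        rw [mul_pow, ← pow_mul, mul_comm R 3]
        ring
      rw [e5] at e4
      exact e4.trans (h2.trans e2)
    have e4 : K * M n ^ (3 - 2 * δ) * (n : ℝ) ^ (δ ^ 2) * (Q * L ^ R) ^ 3 ≤
        M n ^ (3 - 2 * δ) * ((|K| + 1) * (n : ℝ) ^ (δ ^ 2) * (Q * L ^ R) ^ 3) := by
      have e5 : K * M n ^ (3 - 2 * δ) * (n : ℝ) ^ (δ ^ 2) * (Q * L ^ R) ^ 3 =
          K * (M n ^ (3 - 2 * δ) * ((n : ℝ) ^ (δ ^ 2) * (Q * L ^ R) ^ 3)) := by ring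
      have e6 : M n ^ (3 - 2 * δ) * ((|K| + 1) * (n : ℝ) ^ (δ ^ 2) * (Q * L ^ R) ^ 3) =
          (|K| + 1) * (M n ^ (3 - 2 * δ) * ((n : ℝ) ^ (δ ^ 2) * (Q * L ^ R) ^ 3)) := by ring
      rw [e5, e6]
      exact mul_le_mul_of_nonneg_right (by linarith [le_abs_self K]) (by positivity)
    rw [e1]
    exact e4.trans (mul_le_mul_of_nonneg_left e3 (by positivity))
  · rw [he, le_div_iff₀ hQL]
    have e1 : (gy δ N n : ℝ) + 1 ≤ 3 * (N n : ℝ) ^ (δ / 3) := by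
      have e2 := Nat.ceil_lt_add_one (show 0 ≤ (N n : ℝ) ^ (δ / 3) by positivity)
      have e3 : 1 ≤ (N n : ℝ) ^ (δ / 3) := Real.one_le_rpow hN1 (by positivity)
      unfold gy
      linarith
    have e2 : (K * (gy δ N n + 1)) ^ 2 ≤ (3 * (|K| + 1)) ^ 2 * (N n : ℝ) ^ (2 * δ / 3) := by
      have e3 : |K * ((gy δ N n : ℝ) + 1)| ≤ (3 * (|K| + 1)) * (N n : ℝ) ^ (δ / 3) := by
        rw [abs_mul, abs_of_nonneg (by positivity : 0 ≤ (gy δ N n : ℝ) + 1)]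
        have e4 := mul_le_mul_of_nonneg_left e1 (abs_nonneg K)
        have e5 : 0 ≤ (N n : ℝ) ^ (δ / 3) := by positivity
        nlinarith
      have e4 : (K * ((gy δ N n : ℝ) + 1)) ^ 2 ≤ ((3 * (|K| + 1)) * (N n : ℝ) ^ (δ / 3)) ^ 2 := by
        rw [← sq_abs (K * ((gy δ N n : ℝ) + 1))]
        exact pow_le_pow_left₀ (abs_nonneg _) e3 2
      refine e4.trans (le_of_eq ?_)
      rw [mul_pow]
      congr 1
      rw [← Real.rpow_natCast, ← Real.rpow_mul hN0.le]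
      congr 1
      push_cast
      ring
    have e3 : (K * ((gy δ N n : ℝ) + 1)) ^ 2 * (Q * L ^ R) ≤ (3 * (|K| + 1)) ^ 2 * (N n : ℝ) ^ (2 * δ / 3) * (Q * L ^ R) :=
      mul_le_mul_of_nonneg_right e2 hQL.le
    have e4 : (3 * (|K| + 1)) ^ 2 * (N n : ℝ) ^ (2 * δ / 3) * (Q * L ^ R) =
        (3 * (|K| + 1)) ^ 2 * (Q : ℝ) * (L ^ R * (N n : ℝ) ^ (2 * δ / 3)) := by ring
    linarith

end

end Pool.Agent.Q106.CH
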