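import Pool.Agent.Q106.CH.Gold3

/-!
# The representations by sums: the system
-/

set_option autoImplicit false

namespace Pool.Agent.Q106.CH

open Finset MeasureTheory ProbabilityTheory Filter Pool.Agent.Q120.GM Pool.Agent.Q106.UR Pool.Agent.Q106.MD
open scoped Topology

variable {Q r : ℕ} {H H' : Fin r → Finset ℕ} {N : ℕ → ℕ} {a b : ℕ → Fin r → ℕ} {M : ℕ → ℝ} {δ : ℝ}

/-- The places. -/
noncomputable def gJs (N : ℕ → ℕ) (a b : ℕ → Fin r → ℕ) (δ : ℝ) (c : ℕ) (n : ℕ) (i : Fin r) : Finset ℕ :=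
  gJ (a n i) (b n i) (gy δ N n) c (N n)

/-- The patterns. -/
def gTs (H H' : Fin r → Finset ℕ) (N : ℕ → ℕ) (n : ℕ) (i : Fin r) (m : ℕ) : Finset ℕ := gp (H i) (H' i) (N n) m

/-- The predicted numbers. -/
noncomputable def ges (Q : ℕ) (H H' : Fin r → Finset ℕ) (N : ℕ → ℕ) (a b : ℕ → Fin r → ℕ) (n : ℕ) (i : Fin r) : ℝ :=
  gex Q (H i) (H' i) (N n) (a n i) (b n i)

/-- The number of the elements of the patterns. -/
def gR (H H' : Fin r → Finset ℕ) : ℕ := ∑ i, ((H i).card + (H' i).card)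

theorem gR_le (H H' : Fin r → Finset ℕ) (i : Fin r) : (H i).card + (H' i).card ≤ gR H H' :=
  single_le_sum (f := fun i => (H i).card + (H' i).card) (fun _ _ => Nat.zero_le _) (mem_univ i)

theorem gs_inj (hG : GD Q H H' N a b M δ) {c : ℕ} (hH : ∀ i, ∀ h ∈ H i, h ≤ c) (n n' : ℕ) (i i' : Fin r) (j j' : ℕ)
    (hj : j ∈ gJs N a b δ c n i) (hj' : j' ∈ gJs N a b δ c n' i') (h : gTs H H' N n i j = gTs H H' N n' i' j') :
    n = n' ∧ i = i' ∧ j = j' := by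
  unfold gJs at hj hj'
  rw [mem_gJ] at hj hj'
  obtain ⟨h1, h2, h3⟩ := gp_inj (hG.zero i) (hG.zero i') (hH i) (hH i') hj.2.2 hj'.2.2 h
  obtain ⟨h4, h5⟩ := hG.uniq n n' i i' h2 h3
  refine ⟨h4, ?_, h1⟩
  rcases h5 with h5 | h5
  · exact h5
  · exfalso
    subst h4
    subst h1
    exact Finset.disjoint_left.1 h5 (mem_Ico.2 hj.1) (mem_Ico.2 hj'.1)

theorem gs_deg (N : ℕ → ℕ) (a b : ℕ → Fin r → ℕ) (δ : ℝ) (c : ℕ) (n n' : ℕ) (i : Fin r) (j : ℕ) :
    (((univ.sigma (gJs N a b δ c n')).filter (fun x => ¬ Disjoint (gTs H H' N n' x.1 x.2) (gTs H H' N n i j))).card : ℝ) ≤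
      (gR H H' : ℝ) ^ 2 + 1 := by
  unfold gTs
  refine gp_deg H H' (gJs N a b δ c n') _ (R := gR H H') rfl ((gp_card _ _ _ _).trans (gR_le H H' i)) (fun i' m hm => ?_)
  unfold gJs at hm
  rw [mem_gJ] at hm
  omega

theorem gs_card (hG : GD Q H H' N a b M δ) (c : ℕ) (n : ℕ) :
    ((univ.sigma (gJs N a b δ c n)).card : ℝ) ≤ ∑ i, ((b n i : ℝ) - a n i) + 1 := by
  rw [card_sigma]
  push_cast
  have h1 : ∀ i ∈ (univ : Finset (Fin r)), ((gJs N a b δ c n i).card : ℝ) ≤ (b n i : ℝ) - a n i := by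
    intro i _
    have h2 : (gJs N a b δ c n i).card ≤ b n i - a n i := by
      unfold gJs gJ
      refine (card_filter_le _ _).trans ?_
      rw [Nat.card_Ico]
    have h3 : ((gJs N a b δ c n i).card : ℝ) ≤ ((b n i - a n i : ℕ) : ℝ) := by exact_mod_cast h2
    rwa [Nat.cast_sub (hG.win n i).2.1] at h3
  linarith [sum_le_sum h1]

theorem gs_w (hG : GD Q H H' N a b M δ) (n : ℕ) : 0 ≤ ∑ i, ((b n i : ℝ) - a n i) + 1 := by
  have : 0 ≤ ∑ i, ((b n i : ℝ) - a n i) := by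
    refine sum_nonneg (fun i _ => ?_)
    have : (a n i : ℝ) ≤ b n i := by exact_mod_cast (hG.win n i).2.1
    linarith
  linarith

theorem gs_w_le (hG : GD Q H H' N a b M δ) (hδ1 : δ ≤ 1 / 2) (n : ℕ) (hM : 1 ≤ M n) :
    (∑ i, ((b n i : ℝ) - a n i) + 1) ^ 2 ≤ ((r : ℝ) + 1) ^ 2 * M n ^ (3 - 2 * δ) := by
  have h1 : ∑ i, ((b n i : ℝ) - a n i) ≤ r * M n ^ (3 / 2 - δ) := by
    refine (sum_le_sum (fun i _ => hG.high n i)).trans (le_of_eq ?_)
    simp
  have h2 : 1 ≤ M n ^ (3 / 2 - δ) := Real.one_le_rpow hM (by linarith)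
  have h3 : ∑ i, ((b n i : ℝ) - a n i) + 1 ≤ ((r : ℝ) + 1) * M n ^ (3 / 2 - δ) := by linarith
  have h4 := pow_le_pow_left₀ (gs_w hG n) h3 2
  refine h4.trans (le_of_eq ?_)
  rw [mul_pow]
  congr 1
  rw [← Real.rpow_natCast, ← Real.rpow_mul (by linarith)]
  congr 1
  push_cast
  ring

/-- The system. -/
theorem gs_psys (hG : GD Q H H' N a b M δ) (hQ : 1 ≤ Q) (hδ : 0 < δ) (hδ1 : δ ≤ 1 / 2) {c : ℕ}
    (hH : ∀ i, ∀ h ∈ H i, h ≤ c) (hH' : ∀ i, ∀ h ∈ H' i, h ≤ c) :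
    PSys (level Q) atTop (gJs N a b δ c) (gTs H H' N) (ges Q H H' N a b) (ge0 Q (gR H H') N M)
      (fun n : ℕ => Real.log n) ((gR H H' : ℝ) ^ 2 + 1) := by
  have hQ0 : (0 : ℝ) < Q := by exact_mod_cast hQ
  have hq0 := qq_pos hQ
  have hlim : Tendsto (fun n : ℕ => Real.log n) atTop atTop := UR.log_tendsto
  have hle : ∀ᶠ n in atTop, ∀ i, ge0 Q (gR H H') N M n ≤ ges Q H H' N a b n i := by
    filter_upwards [gfacts hG hQ hδ hδ1 (gR H H') c] with n h1 i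
    obtain ⟨_, _, _, h4, h5, h6⟩ := h1
    have hcN : c ≤ N n := by exact_mod_cast h6
    obtain ⟨w1, w2, w3⟩ := hG.win n i
    have e1 := gex_ge hQ (hG.sing n i) (hH i) (hH' i) w2 w1 w3 hcN h5 (gR_le H H' i)
    refine le_trans ?_ e1
    unfold ge0
    refine mul_le_mul_of_nonneg_left ?_ (by positivity)
    refine mul_le_mul_of_nonneg_right (hG.low n i) ?_
    exact pow_nonneg (linv (by omega)).1 _
  have hbig : ∀ R : ℝ, ∀ᶠ n : ℕ in atTop, R * Real.log n ≤ ge0 Q (gR H H') N M n := by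
    intro R
    filter_upwards [gfacts hG hQ hδ hδ1 (gR H H') 0, ev_pow_log (|R|) 1 (s := 0) (t := δ ^ 2) (by positivity),
      eventually_ge_atTop 1] with n h1 h2 h3
    refine le_trans ?_ h1.1
    refine le_trans ?_ h2
    have hn : (0 : ℝ) < n := by exact_mod_cast h3
    rw [pow_one, Real.rpow_zero, mul_one]
    have e1 : Real.log n ≤ Real.log ((2 * n : ℕ) : ℝ) := by
      refine Real.log_le_log hn ?_
      push_cast
      linarith
    have e2 : 0 ≤ Real.log (n : ℝ) := Real.log_natCast_nonneg n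
    calc R * Real.log n ≤ |R| * Real.log n := mul_le_mul_of_nonneg_right (le_abs_self R) e2
      _ ≤ _ := mul_le_mul_of_nonneg_left e1 (abs_nonneg R)
  refine ⟨hlim, ?_, ?_, ?_, ?_, ?_, hle, hbig, ?_, ?_⟩
  · intro n i j i' j' hj hj' h
    exact (gs_inj hG hH n n i i' j j' hj hj' h).2
  · intro n i j _
    refine ⟨j, ?_⟩
    unfold gTs
    exact mem_gp.2 (Or.inl ⟨0, hG.zero i, rfl⟩)
  · have := sq_nonneg (gR H H' : ℝ)
    linarith
  · intro n i j _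
    exact gs_deg N a b δ c n n i j
  · intro s hs
    filter_upwards [(gy_lim hG hδ).eventually_ge_atTop (qq Q / s), (gy_lim hG hδ).eventually_ge_atTop 1]
      with n h1 h2 i m hm b' hb'
    have h6 := pos_of_log h2
    unfold gJs at hm
    rw [mem_gJ] at hm
    have h3 : gy δ N n ≤ b' := by
      unfold gTs at hb'
      rcases mem_gp.1 hb' with ⟨h, hh, e⟩ | ⟨h, hh, e⟩
      · omega
      · omega
    refine (level_le (x := (gy δ N n : ℝ)) (by linarith) (by linarith) (by exact_mod_cast h3)).trans ?_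
    rw [div_le_iff₀ hs] at h1
    rw [div_le_iff₀ (by linarith)]
    linarith
  · intro η hη
    obtain ⟨K, hK⟩ : ∃ K, K = qq Q ^ gR H H' * (3 * Q + c + 1) / η := ⟨_, rfl⟩
    filter_upwards [hle, gfacts hG hQ hδ hδ1 (gR H H') K, (gy_lim hG hδ).eventually_ge_atTop (qq Q),
      (gy_lim hG hδ).eventually_ge_atTop 1] with n h1 h2 h3 h4 i
    obtain ⟨w1, w2, w3⟩ := hG.win n i
    have e1 := gmean hQ (N := N n) (a := a n i) (b := b n i) (y := gy δ N n) (H' := H' i) (hH i) w2 w1 w3 h3 h4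
    refine e1.trans ?_
    have e2 : qq Q ^ ((H i).card + (H' i).card) ≤ qq Q ^ gR H H' := pow_le_pow_right₀ (one_le_qq hQ) (gR_le H H' i)
    have hc0 : (0 : ℝ) ≤ c := Nat.cast_nonneg c
    have hy0 : (0 : ℝ) ≤ gy δ N n := Nat.cast_nonneg _
    have e3 : 3 * (Q : ℝ) + gy δ N n + c ≤ (3 * Q + c + 1) * (gy δ N n + 1) := by nlinarith
    have e4 : qq Q ^ ((H i).card + (H' i).card) * (3 * Q + gy δ N n + c) ≤
        qq Q ^ gR H H' * ((3 * Q + c + 1) * (gy δ N n + 1)) := mul_le_mul e2 e3 (by positivity) (by positivity)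
    have e5 : qq Q ^ gR H H' * ((3 * Q + c + 1) * (gy δ N n + 1)) = η * (K * (gy δ N n + 1)) := by
      rw [hK]
      field_simp
    have e6 : K * ((gy δ N n : ℝ) + 1) ≤ Real.sqrt (ges Q H H' N a b n i) :=
      Real.le_sqrt_of_sq_le (h2.2.2.1.trans (h1 i))
    exact e4.trans (e5.le.trans (mul_le_mul_of_nonneg_left e6 hη.le))
  · intro η hη
    filter_upwards [gfacts hG hQ hδ hδ1 (gR H H') (((r : ℝ) + 1) ^ 2),
      ev_pow_log (1 / η) 1 (s := 0) (t := δ ^ 2) (by positivity), eventually_ge_atTop 1] with n h1 h2 h3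
    obtain ⟨f1, f2, f3, f4, f5, f6⟩ := h1
    have hn : (0 : ℝ) < n := by exact_mod_cast h3
    rw [pow_one, Real.rpow_zero, mul_one] at h2
    have e1 : Real.log n ≤ Real.log ((2 * n : ℕ) : ℝ) := by
      refine Real.log_le_log hn ?_
      push_cast
      linarith
    have e2 : Real.log n ≤ η * (n : ℝ) ^ (δ ^ 2) := by
      have e3 := mul_le_mul_of_nonneg_left h2 hη.le
      have e4 : η * (1 / η * Real.log ((2 * n : ℕ) : ℝ)) = Real.log ((2 * n : ℕ) : ℝ) := by field_simp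
      linarith
    have e3 : (((univ.sigma (gJs N a b δ c n)).card : ℕ) : ℝ) ^ 2 ≤ ((r : ℝ) + 1) ^ 2 * M n ^ (3 - 2 * δ) :=
      (pow_le_pow_left₀ (Nat.cast_nonneg _) (gs_card hG c n) 2).trans (gs_w_le hG hδ1 n f4)
    have e4 : Real.log n * (((univ.sigma (gJs N a b δ c n)).card : ℕ) : ℝ) ^ 2 ≤
        (η * (n : ℝ) ^ (δ ^ 2)) * (((r : ℝ) + 1) ^ 2 * M n ^ (3 - 2 * δ)) :=
      mul_le_mul e2 e3 (by positivity) (by positivity)
    refine e4.trans ?_
    have e5 : (η * (n : ℝ) ^ (δ ^ 2)) * (((r : ℝ) + 1) ^ 2 * M n ^ (3 - 2 * δ)) =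
        η * (((r : ℝ) + 1) ^ 2 * M n ^ (3 - 2 * δ) * (n : ℝ) ^ (δ ^ 2)) := by ring
    rw [e5]
    exact mul_le_mul_of_nonneg_left f2 hη.le

variable {Ω : Type*} [MeasurableSpace Ω] {μ : Measure Ω} [IsProbabilityMeasure μ] {A : Ω → Set ℕ}

/-- **The law of the numbers of representations, with truncated windows.** -/
theorem gs_law (hA : IsModel μ (level Q) A) (hG : GD Q H H' N a b M δ) (hQ : 1 ≤ Q) (hδ : 0 < δ) (hδ1 : δ ≤ 1 / 2) {c : ℕ}
    (hH : ∀ i, ∀ h ∈ H i, h ≤ c) (hH' : ∀ i, ∀ h ∈ H' i, h ≤ c) :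
    ∀ᵐ ω ∂μ, Law (fun n i => dev A (gJs N a b δ c) (gTs H H' N) (ges Q H H' N a b) (fun n : ℕ => Real.log n) n i ω) := by
  have hS := gs_psys hG hQ hδ hδ1 hH hH'
  have hk : ∀ n i, ∀ j ∈ gJs N a b δ c n i, (gTs H H' N n i j).card ≤ gR H H' := by
    intro n i j _
    exact (gp_card _ _ _ _).trans (gR_le H H' i)
  refine law hA hS hk (D' := (gR H H' : ℝ) ^ 2 + 1) ?_
  refine bsys_of hA hS hk (w := fun n => ∑ i, ((b n i : ℝ) - a n i) + 1) (γ := δ ^ 2)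
    (C := 4 * r * (r * (2 * c + 1) + 1) + 8 * r * r * c) (by positivity) ?_ ?_ (gs_w hG) (gs_card hG c) (by positivity) ?_ ?_ ?_ ?_
  · filter_upwards [gfacts hG hQ hδ hδ1 (gR H H') 0] with n h1
    exact h1.1
  · filter_upwards [gfacts hG hQ hδ hδ1 (gR H H') (((r : ℝ) + 1) ^ 2)] with n h1
    obtain ⟨f1, f2, f3, f4, f5, f6⟩ := h1
    refine le_trans ?_ f2
    exact mul_le_mul_of_nonneg_right (gs_w_le hG hδ1 n f4) (by positivity)
  · have := sq_nonneg (gR H H' : ℝ)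
    linarith
  · exact gs_inj hG hH
  · intro n n' i j _
    exact gs_deg N a b δ c n n' i j
  · intro n n' _
    exact gp_sep H H' N a b (gy δ N) hH hH' (fun n i => (hG.win n i).2.1) n n'

/-- The number of representations. -/
noncomputable def gN (A : Set ℕ) (H H' : Finset ℕ) (N a b : ℕ) : ℝ :=
  ({m : ℕ | a ≤ m ∧ m < b ∧ (∀ h ∈ H, m + h ∈ A) ∧ ∀ h ∈ H', N - m + h ∈ A}.ncard : ℝ)

omit [MeasurableSpace Ω] [IsProbabilityMeasure μ] in
theorem gN_close (A : Ω → Set ℕ) (H H' : Finset ℕ) {N a b y c : ℕ} (hb : 2 * b ≤ N) (ω : Ω) :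
    |gN (A ω) H H' N a b - nm A (gJ a b y c N) (fun m => gp H H' N m) ω| ≤ y + c := by
  classical
  have h1 : {m : ℕ | a ≤ m ∧ m < b ∧ (∀ h ∈ H, m + h ∈ A ω) ∧ ∀ h ∈ H', N - m + h ∈ A ω} =
      (((Ico a b).filter (fun m => ω ∈ all A (gp H H' N m))) : Finset ℕ) := by
    ext m
    simp only [Set.mem_setOf_eq, Finset.coe_filter, mem_Ico]
    constructor
    · rintro ⟨h1, h2, h3, h4⟩
      refine ⟨⟨h1, h2⟩, fun x hx => ?_⟩
      rcases mem_gp.1 hx with ⟨h, hh, rfl⟩ | ⟨h, hh, rfl⟩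
      · exact h3 h hh
      · exact h4 h hh
    · rintro ⟨⟨h1, h2⟩, h3⟩
      exact ⟨h1, h2, fun h hh => h3 _ (mem_gp.2 (Or.inl ⟨h, hh, rfl⟩)), fun h hh => h3 _ (mem_gp.2 (Or.inr ⟨h, hh, rfl⟩))⟩
  have h2 : gN (A ω) H H' N a b = ∑ m ∈ Ico a b, ind A (gp H H' N m) ω := by
    unfold gN
    rw [h1, Set.ncard_coe_finset, card_filter]
    push_cast
    refine sum_congr rfl (fun m _ => ?_)
    unfold ind
    by_cases h : ω ∈ all A (gp H H' N m)
    · rw [if_pos h, Set.indicator_of_mem h]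
    · rw [if_neg h, Set.indicator_of_notMem h]
  have hsub : gJ a b y c N ⊆ Ico a b := filter_subset _ _
  have h3 : ∑ m ∈ Ico a b, ind A (gp H H' N m) ω = ∑ m ∈ Ico a b \ gJ a b y c N, ind A (gp H H' N m) ω +
      ∑ m ∈ gJ a b y c N, ind A (gp H H' N m) ω := (sum_sdiff hsub).symm
  have h4 : nm A (gJ a b y c N) (fun m => gp H H' N m) ω = ∑ m ∈ gJ a b y c N, ind A (gp H H' N m) ω := rfl
  rw [h2, h3, h4, add_sub_cancel_right, abs_of_nonneg (sum_nonneg (fun m _ => ind_nonneg _ _))]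
  have hcard : (Ico a b \ gJ a b y c N).card ≤ y + c := by
    have e1 : Ico a b \ gJ a b y c N ⊆ range y ∪ Ico (b - c) b := by
      intro m hm
      rw [Finset.mem_sdiff, mem_gJ, mem_Ico] at hm
      rw [mem_union, mem_range, mem_Ico]
      omega
    refine (card_le_card e1).trans ((card_union_le _ _).trans ?_)
    rw [card_range, Nat.card_Ico]
    omega
  refine (sum_le_sum (g := fun _ => (1 : ℝ)) (fun m _ => ind_le_one _ _)).trans ?_
  rw [sum_const, nsmul_eq_mul, mul_one]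
  exact_mod_cast hcard

/-- The normalized deviation. -/
noncomputable def gD (Q : ℕ) (A : Set ℕ) (H H' : Fin r → Finset ℕ) (N : ℕ → ℕ) (a b : ℕ → Fin r → ℕ) (n : ℕ)
    (i : Fin r) : ℝ :=
  (gN A (H i) (H' i) (N n) (a n i) (b n i) - gex Q (H i) (H' i) (N n) (a n i) (b n i)) /
    Real.sqrt (2 * gex Q (H i) (H' i) (N n) (a n i) (b n i) * Real.log n)

/-- **The law of the numbers of representations.** -/
theorem g_law (hA : IsModel μ (level Q) A) (hG : GD Q H H' N a b M δ) (hQ : 1 ≤ Q) (hδ : 0 < δ) (hδ1 : δ ≤ 1 / 2) :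
    ∀ᵐ ω ∂μ, Law (gD Q (A ω) H H' N a b) := by
  obtain ⟨c, hc⟩ : ∃ c : ℕ, c = univ.sup (fun i => (H i ∪ H' i).sup id) := ⟨_, rfl⟩
  have hcc : ∀ i, ∀ h ∈ H i ∪ H' i, h ≤ c := by
    intro i h hh
    rw [hc]
    exact (le_sup (f := id) hh).trans (le_sup (f := fun i => (H i ∪ H' i).sup id) (mem_univ i))
  have hH : ∀ i, ∀ h ∈ H i, h ≤ c := fun i h hh => hcc i h (mem_union_left _ hh)
  have hH' : ∀ i, ∀ h ∈ H' i, h ≤ c := fun i h hh => hcc i h (mem_union_right _ hh)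
  have hS := gs_psys hG hQ hδ hδ1 hH hH'
  filter_upwards [gs_law hA hG hQ hδ hδ1 hH hH'] with ω hω
  refine hω.congr (fun i => ?_)
  rw [Metric.tendsto_nhds]
  intro ε hε
  filter_upwards [hS.le, gfacts hG hQ hδ hδ1 (gR H H') (((c : ℝ) + 1) / ε), hS.lim.eventually_ge_atTop 1] with n h1 h2 h3
  obtain ⟨f1, f2, f3, f4, f5, f6⟩ := h2
  have h4 := h1 i
  obtain ⟨E, hE⟩ : ∃ E, E = ges Q H H' N a b n i := ⟨_, rfl⟩
  have hc0 : (0 : ℝ) ≤ c := Nat.cast_nonneg c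
  have hy0 : (0 : ℝ) ≤ gy δ N n := Nat.cast_nonneg _
  have hK : 0 < ((c : ℝ) + 1) / ε * (gy δ N n + 1) := by positivity
  rw [← hE] at h4
  have hE1 : (((c : ℝ) + 1) / ε * (gy δ N n + 1)) ^ 2 ≤ E := f3.trans h4
  have hE0 : 0 < E := lt_of_lt_of_le (by positivity) hE1
  have h5 : ((c : ℝ) + 1) / ε * (gy δ N n + 1) < Real.sqrt (2 * E * Real.log n) := by
    refine Real.lt_sqrt_of_sq_lt ?_
    nlinarith
  have h6 : 0 < Real.sqrt (2 * E * Real.log n) := lt_trans hK h5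
  have h7 := gN_close (y := gy δ N n) (c := c) A (H i) (H' i) (hG.win n i).2.2 (a := a n i) ω
  have h8 : gD Q (A ω) H H' N a b n i -
      dev A (gJs N a b δ c) (gTs H H' N) (ges Q H H' N a b) (fun n : ℕ => Real.log n) n i ω =
      (gN (A ω) (H i) (H' i) (N n) (a n i) (b n i) - nm A (gJ (a n i) (b n i) (gy δ N n) c (N n))
        (fun m => gp (H i) (H' i) (N n) m) ω) / Real.sqrt (2 * E * Real.log n) := by
    rw [hE]
    unfold gD dev gJs gTs ges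
    rw [← sub_div]
    congr 1
    ring
  rw [Real.dist_eq, sub_zero, h8, abs_div, abs_of_pos h6, div_lt_iff₀ h6]
  refine lt_of_le_of_lt h7 ?_
  have h9 := mul_lt_mul_of_pos_left h5 hε
  have h10 : ε * (((c : ℝ) + 1) / ε * (gy δ N n + 1)) = ((c : ℝ) + 1) * (gy δ N n + 1) := by field_simp
  rw [h10] at h9
  nlinarith

end Pool.Agent.Q106.CH
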