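import Pool.Agent.Q106.CH.Seq2

/-!
# The law of the deviations along a sequence
-/

set_option autoImplicit false

namespace Pool.Agent.Q106.CH

open Finset MeasureTheory ProbabilityTheory Filter Pool.Agent.Q120.GM Pool.Agent.Q106.UR Pool.Agent.Q106.MD
open scoped Topology

variable {Ω : Type*} [MeasurableSpace Ω] {μ : Measure Ω} [IsProbabilityMeasure μ] {ι κ : Type*} [DecidableEq ι]
  [DecidableEq κ] {p : ι → ℝ} {A : Ω → Set ι} {r : ℕ}

/-- The spectrum, from the lower bounds at single points. -/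
theorem spectrum_of {D : ℕ → Fin r → Ω → ℝ} (hG : Gau μ atTop D (fun n : ℕ => Real.log n))
    (hlow0 : ∀ d : Fin r → ℝ, ∑ i, d i ^ 2 < 1 → ∀ ε > 0, ∀ δ > 0, ∀ᵐ ω ∂μ, ∀ᶠ x : ℕ in atTop,
      (x : ℝ) ^ (1 - ∑ i, d i ^ 2 - δ) ≤ num (range (x + 1)) (fun n => near D n d ε) ω) :
    ∀ᵐ ω ∂μ, ∀ d : Fin r → ℝ, ∑ i, d i ^ 2 < 1 → ∀ δ > 0, ∃ ε₀ > 0, ∀ ε, 0 < ε → ε ≤ ε₀ → ∀ᶠ x : ℕ in atTop,
      (x : ℝ) ^ (1 - ∑ i, d i ^ 2 - δ) ≤ num (range (x + 1)) (fun n => near D n d ε) ω ∧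
      num (range (x + 1)) (fun n => near D n d ε) ω ≤ (x : ℝ) ^ (1 - ∑ i, d i ^ 2 + δ) := by
  have h1 : ∀ᵐ ω ∂μ, ∀ q : Fin r → ℚ, ∀ m j : ℕ, ∑ i, (q i : ℝ) ^ 2 < 1 → ∀ᶠ x : ℕ in atTop,
      (x : ℝ) ^ (1 - ∑ i, (q i : ℝ) ^ 2 - 1 / ((j : ℝ) + 1)) ≤
        num (range (x + 1)) (fun n => near D n (fun i => (q i : ℝ)) (1 / ((m : ℝ) + 1))) ω := by
    refine ae_all_iff.2 (fun q => ae_all_iff.2 (fun m => ae_all_iff.2 (fun j => ?_)))
    by_cases hq : ∑ i, (q i : ℝ) ^ 2 < 1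
    · filter_upwards [hlow0 (fun i => (q i : ℝ)) hq (1 / ((m : ℝ) + 1)) (by positivity) (1 / ((j : ℝ) + 1))
        (by positivity)] with ω hω _
      exact hω
    · exact Eventually.of_forall (fun ω h2 => absurd h2 hq)
  have h2 : ∀ᵐ ω ∂μ, ∀ q : Fin r → ℚ, ∀ m j : ℕ, ∑ i, (q i : ℝ) ^ 2 < 1 →
      2 * (1 / ((m : ℝ) + 1)) * ∑ i, |(q i : ℝ)| ≤ 1 / ((j : ℝ) + 1) / 2 → ∀ᶠ x : ℕ in atTop,
        num (range (x + 1)) (fun n => near D n (fun i => (q i : ℝ)) (1 / ((m : ℝ) + 1))) ω ≤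
      (x : ℝ) ^ (1 - ∑ i, (q i : ℝ) ^ 2 + 2 * (1 / ((j : ℝ) + 1))) := by
    refine ae_all_iff.2 (fun q => ae_all_iff.2 (fun m => ae_all_iff.2 (fun j => ?_)))
    by_cases hq : ∑ i, (q i : ℝ) ^ 2 < 1
    · by_cases hq2 : 2 * (1 / ((m : ℝ) + 1)) * ∑ i, |(q i : ℝ)| ≤ 1 / ((j : ℝ) + 1) / 2
      · have h0 : (0 : ℝ) < 1 / ((j : ℝ) + 1) := by positivity
        filter_upwards [spec_up hG (fun i => (q i : ℝ)) (η := 1 / ((j : ℝ) + 1)) (δ := 1 / ((m : ℝ) + 1))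
          h0 (by positivity) hq2 (by linarith)] with ω hω _ _
        exact hω
      · exact Eventually.of_forall (fun ω _ h3 => absurd h3 hq2)
    · exact Eventually.of_forall (fun ω h2 => absurd h2 hq)
  have hdense : DenseRange (Pi.map (fun (_ : Fin r) (q : ℚ) => (q : ℝ))) := DenseRange.piMap (fun _ => Rat.denseRange_cast)
  have happ : ∀ (d : Fin r → ℝ) (t s : ℝ), 0 < t → 0 < s → ∃ q : Fin r → ℚ, (∀ i, |(q i : ℝ) - d i| < t) ∧
      ∑ i, (q i : ℝ) ^ 2 < ∑ i, d i ^ 2 + s ∧ ∑ i, d i ^ 2 - s < ∑ i, (q i : ℝ) ^ 2 := by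
    intro d t s ht hs
    have hopen : IsOpen ((⋂ i, {d' : Fin r → ℝ | |d' i - d i| < t}) ∩ ({d' : Fin r → ℝ | ∑ i, d' i ^ 2 < ∑ i, d i ^ 2 + s} ∩
        {d' : Fin r → ℝ | ∑ i, d i ^ 2 - s < ∑ i, d' i ^ 2})) := by
      refine IsOpen.inter (isOpen_iInter_of_finite (fun i => ?_)) (IsOpen.inter ?_ ?_)
      · exact isOpen_lt ((continuous_apply i).sub continuous_const).abs continuous_const
      · exact isOpen_lt (continuous_finsetSum _ (fun i _ => (continuous_apply i).pow 2)) continuous_const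
      · exact isOpen_lt continuous_const (continuous_finsetSum _ (fun i _ => (continuous_apply i).pow 2))
    obtain ⟨q, hq1, hq2, hq3⟩ := hdense.exists_mem_open hopen ⟨d, by
      rw [Set.mem_iInter]
      intro i
      show |d i - d i| < t
      rw [sub_self, abs_zero]
      exact ht, by
      show ∑ i, d i ^ 2 < ∑ i, d i ^ 2 + s
      linarith, by
      show ∑ i, d i ^ 2 - s < ∑ i, d i ^ 2
      linarith⟩
    rw [Set.mem_iInter] at hq1
    exact ⟨q, hq1, hq2, hq3⟩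
  filter_upwards [h1, h2] with ω hlow hup d hd1 δ hδ
  obtain ⟨B, hB⟩ : ∃ B, B = ∑ i, |d i| := ⟨_, rfl⟩
  have hB0 : 0 ≤ B := by rw [hB]; exact sum_nonneg (fun _ _ => abs_nonneg _)
  obtain ⟨j, hj⟩ := exists_nat_one_div_lt (show (0 : ℝ) < δ / 4 by positivity)
  have hj0 : (0 : ℝ) < 1 / ((j : ℝ) + 1) := by positivity
  obtain ⟨m, hm'⟩ := exists_nat_one_div_lt (show (0 : ℝ) < 1 / ((j : ℝ) + 1) / (4 * (B + r + 1)) by positivity)
  have hm0 : (0 : ℝ) < 1 / ((m : ℝ) + 1) := by positivity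
  refine ⟨1 / ((m : ℝ) + 1) / 2, by positivity, fun ε hε hε2 => ?_⟩
  have hv1 : 0 < 1 - ∑ i, d i ^ 2 := by linarith
  -- the upper bound
  obtain ⟨q, hq1, hq2, hq3⟩ := happ d (min (1 / ((m : ℝ) + 1) / 2) 1) (min (δ / 4) (1 - ∑ i, d i ^ 2))
    (lt_min (by positivity) one_pos) (lt_min (by positivity) hv1)
  have hU := hup q m j (by
    have := min_le_right (δ / 4) (1 - ∑ i, d i ^ 2)
    linarith) (by
    have e1 : ∑ i, |(q i : ℝ)| ≤ B + r := by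
      have e2 : ∑ i, |(q i : ℝ)| ≤ ∑ i, (|d i| + 1) := by
        refine sum_le_sum (fun i _ => ?_)
        have e3 : |(q i : ℝ) - d i| ≤ 1 := (hq1 i).le.trans (min_le_right _ _)
        have e4 : |(q i : ℝ)| ≤ |(q i : ℝ) - d i| + |d i| := by
          have := abs_add_le ((q i : ℝ) - d i) (d i)
          simpa using this
        linarith
      refine e2.trans (le_of_eq ?_)
      rw [sum_add_distrib, ← hB]
      simp
    have e2 : 1 / ((m : ℝ) + 1) * (4 * (B + r + 1)) ≤ 1 / ((j : ℝ) + 1) := by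
      rw [← le_div_iff₀ (by positivity)]
      exact hm'.le
    have e3 : 2 * (1 / ((m : ℝ) + 1)) * ∑ i, |(q i : ℝ)| ≤ 2 * (1 / ((m : ℝ) + 1)) * (B + r + 1) :=
      mul_le_mul_of_nonneg_left (by linarith) (by positivity)
    linarith)
  -- the lower bound
  obtain ⟨m', hm''⟩ := exists_nat_one_div_lt (show (0 : ℝ) < ε / 2 by positivity)
  obtain ⟨q', hq1', hq2', hq3'⟩ := happ d (ε / 2) (min (δ / 4) (1 - ∑ i, d i ^ 2)) (by positivity)
    (lt_min (by positivity) hv1)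
  have hLw := hlow q' m' j (by
    have := min_le_right (δ / 4) (1 - ∑ i, d i ^ 2)
    linarith)
  filter_upwards [hU, hLw, eventually_ge_atTop 1] with x h3 h4 h5
  have hx1 : (1 : ℝ) ≤ x := by exact_mod_cast h5
  have hmin := min_le_left (δ / 4) (1 - ∑ i, d i ^ 2)
  constructor
  · refine ((Real.rpow_le_rpow_of_exponent_le hx1 (by linarith)).trans h4).trans (num_mono' (fun n _ hn i => ?_))
    have e1 : |D n i ω - q' i| < 1 / ((m' : ℝ) + 1) := hn i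
    have e2 := hq1' i
    have e3 : D n i ω - d i = (D n i ω - q' i) + (q' i - d i) := by ring
    rw [e3]
    refine (abs_add_le _ _).trans_lt ?_
    linarith
  · refine ((num_mono' (fun n _ hn i => ?_)).trans h3).trans (Real.rpow_le_rpow_of_exponent_le hx1 (by linarith))
    have e1 : |D n i ω - d i| < ε := hn i
    have e2 : |(q i : ℝ) - d i| < 1 / ((m : ℝ) + 1) / 2 := (hq1 i).trans_le (min_le_left _ _)
    have e3 : D n i ω - (q i : ℝ) = (D n i ω - d i) + (d i - q i) := by ring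
    rw [e3]
    refine (abs_add_le _ _).trans_lt ?_
    rw [abs_sub_comm (d i)]
    linarith

/-- All points of the ball are limit points, from the numbers of members near the points of the open ball. -/
theorem freq_of {D : ℕ → Fin r → ℝ} (h : ∀ d : Fin r → ℝ, ∑ i, d i ^ 2 < 1 → ∀ δ > 0, ∃ ε₀ > 0, ∀ ε, 0 < ε → ε ≤ ε₀ →
      ∀ᶠ x : ℕ in atTop, (x : ℝ) ^ (1 - ∑ i, d i ^ 2 - δ) ≤ ((nearSet D d ε x).ncard : ℝ)) (d : Fin r → ℝ)
    (hd1 : ∑ i, d i ^ 2 ≤ 1) {ε : ℝ} (hε : 0 < ε) : ∃ᶠ n in atTop, ∀ i, |D n i - d i| < ε := by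
  obtain ⟨t, ht⟩ : ∃ t, t = min (1 / 2) (ε / 4) := ⟨_, rfl⟩
  have ht0 : 0 < t := by rw [ht]; exact lt_min (by norm_num) (by positivity)
  have ht1 : t ≤ 1 / 2 := by rw [ht]; exact min_le_left _ _
  have ht2 : t ≤ ε / 4 := by rw [ht]; exact min_le_right _ _
  obtain ⟨d', hd'⟩ : ∃ d' : Fin r → ℝ, d' = fun i => (1 - t) * d i := ⟨_, rfl⟩
  have hs : ∑ i, d' i ^ 2 < 1 := by
    have e1 : ∑ i, d' i ^ 2 = (1 - t) ^ 2 * ∑ i, d i ^ 2 := by
      rw [mul_sum, hd']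
      exact sum_congr rfl (fun i _ => by ring)
    rw [e1]
    have e2 : (1 - t) ^ 2 < 1 := by nlinarith
    have e3 : 0 ≤ ∑ i, d i ^ 2 := sum_nonneg (fun _ _ => sq_nonneg _)
    nlinarith [sq_nonneg (1 - t)]
  have hdd : ∀ i, |d' i - d i| < ε / 2 := by
    intro i
    rw [hd']
    have e1 : (1 - t) * d i - d i = -(t * d i) := by ring
    have e2 : |d i| ≤ 1 := by
      have e3 : d i ^ 2 ≤ ∑ i, d i ^ 2 := single_le_sum (f := fun i => d i ^ 2) (fun _ _ => sq_nonneg _) (mem_univ i)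
      rw [abs_le_one_iff_mul_self_le_one]
      nlinarith
    simp only
    rw [e1, abs_neg, abs_mul, abs_of_pos ht0]
    nlinarith [abs_nonneg (d i)]
  obtain ⟨δ, hδ⟩ : ∃ δ, δ = (1 - ∑ i, d' i ^ 2) / 2 := ⟨_, rfl⟩
  have hδ0 : 0 < δ := by rw [hδ]; linarith
  obtain ⟨ε₀, hε₀, h1⟩ := h d' hs δ hδ0
  obtain ⟨ε₁, hε₁⟩ : ∃ ε₁, ε₁ = min ε₀ (ε / 2) := ⟨_, rfl⟩
  have hε₁0 : 0 < ε₁ := by rw [hε₁]; exact lt_min hε₀ (by positivity)
  have h2 := h1 ε₁ hε₁0 (by rw [hε₁]; exact min_le_left _ _)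
  rw [frequently_atTop]
  intro N
  have h3 : Tendsto (fun x : ℕ => (x : ℝ) ^ δ) atTop atTop := (tendsto_rpow_atTop hδ0).comp tendsto_natCast_atTop_atTop
  obtain ⟨x, h4, h5⟩ := (h2.and (h3.eventually_ge_atTop ((N : ℝ) + 1))).exists
  have h6 : 1 - ∑ i, d' i ^ 2 - δ = δ := by rw [hδ]; ring
  rw [h6] at h4
  by_contra hcon
  push Not at hcon
  have h7 : nearSet D d' ε₁ x ⊆ (Finset.range N : Set ℕ) := by
    intro n hn
    rw [Finset.mem_coe, mem_range]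
    by_contra h8
    push Not at h8
    obtain ⟨i, h9⟩ := hcon n h8
    have h10 := hn.2 i
    have h11 : ε₁ ≤ ε / 2 := by rw [hε₁]; exact min_le_right _ _
    have e3 : D n i - d i = (D n i - d' i) + (d' i - d i) := by ring
    rw [e3] at h9
    have h12 := (abs_add_le (D n i - d' i) (d' i - d i)).trans_lt (add_lt_add h10 (hdd i))
    linarith
  have h8 := Set.ncard_le_ncard h7 (Finset.finite_toSet _)
  rw [Set.ncard_coe_finset, card_range] at h8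
  have h9 : ((nearSet D d' ε₁ x).ncard : ℝ) ≤ N := by exact_mod_cast h8
  linarith

/-- **The law of the deviations along a sequence.** -/
theorem law (hA : IsModel μ p A) {J : ℕ → Fin r → Finset κ} {T : ℕ → Fin r → κ → Finset ι} {e : ℕ → Fin r → ℝ}
    {e₀ : ℕ → ℝ} {D D' : ℝ} {k : ℕ} (hS : PSys p atTop J T e e₀ (fun n : ℕ => Real.log n) D)
    (hk : ∀ n i, ∀ j ∈ J n i, (T n i j).card ≤ k) (hB : BSys p J T D') :
    ∀ᵐ ω ∂μ, Law (fun n i => dev A J T e (fun n : ℕ => Real.log n) n i ω) := by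
  have hG : Gau μ atTop (dev A J T e (fun n : ℕ => Real.log n)) (fun n : ℕ => Real.log n) := gau_of hA hS
  have h1 := ball_up hG (fun a ha => log_summable.2 ha)
  have h2 := spectrum_of hG (fun d hd ε hε δ hδ => low_all hA hS hk hB d hd hε hδ)
  filter_upwards [h1, h2] with ω h3 h4
  have h5 : ∀ (d : Fin r → ℝ) (ε : ℝ) (x : ℕ), ((nearSet (fun n i => dev A J T e (fun n : ℕ => Real.log n) n i ω) d ε x).ncard : ℝ) =
      num (range (x + 1)) (fun n => near (dev A J T e (fun n : ℕ => Real.log n)) n d ε) ω := by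
    intro d ε x
    classical
    rw [num_card]
    congr 1
    rw [← Set.ncard_coe_finset]
    congr 1
    ext n
    rw [Finset.mem_coe, mem_filter, mem_range, Nat.lt_succ_iff]
    rfl
  have h6 : ∀ d : Fin r → ℝ, ∑ i, d i ^ 2 < 1 → ∀ δ > 0, ∃ ε₀ > 0, ∀ ε, 0 < ε → ε ≤ ε₀ → ∀ᶠ x : ℕ in atTop,
      (x : ℝ) ^ (1 - ∑ i, d i ^ 2 - δ) ≤
        ((nearSet (fun n i => dev A J T e (fun n : ℕ => Real.log n) n i ω) d ε x).ncard : ℝ) ∧
      ((nearSet (fun n i => dev A J T e (fun n : ℕ => Real.log n) n i ω) d ε x).ncard : ℝ) ≤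
        (x : ℝ) ^ (1 - ∑ i, d i ^ 2 + δ) := by
    intro d hd δ hδ
    obtain ⟨ε₀, hε₀, h7⟩ := h4 d hd δ hδ
    refine ⟨ε₀, hε₀, fun ε hε hε2 => ?_⟩
    filter_upwards [h7 ε hε hε2] with x h8
    rw [h5]
    exact h8
  refine ⟨h3, fun d hd ε hε => freq_of (fun d hd δ hδ => ?_) d hd hε, h6⟩
  obtain ⟨ε₀, hε₀, h7⟩ := h6 d hd δ hδ
  exact ⟨ε₀, hε₀, fun ε hε hε2 => (h7 ε hε hε2).mono (fun x hx => hx.1)⟩

end Pool.Agent.Q106.CH
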