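import Pool.Agent.Q106.CH.Sep

/-!
# Blocks of normalized orthogonal sums
-/

set_option autoImplicit false

namespace Pool.Agent.Q106.CH

open Finset MeasureTheory ProbabilityTheory Filter Pool.Agent.Q120.GM Pool.Agent.Q106.UR Pool.Agent.Q106.MD

variable {Ω : Type*} [MeasurableSpace Ω] {μ : Measure Ω} [IsProbabilityMeasure μ] {ι κ K : Type*} [DecidableEq ι]
  [DecidableEq κ] [DecidableEq K] {p : ι → ℝ} {A : Ω → Set ι} {r : ℕ} {J : K → Fin r → Finset κ}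
  {T : K → Fin r → κ → Finset ι}

/-- The coefficients. -/
noncomputable def cf (p : ι → ℝ) (J : K → Fin r → Finset κ) (T : K → Fin r → κ → Finset ι) (L : ℝ) (θ : Fin r → ℝ)
    (n : K) (i : Fin r) : ℝ := θ i * Real.sqrt (L / (2 * Vs p J T n i))

omit [DecidableEq ι] [DecidableEq κ] [DecidableEq K] [MeasurableSpace Ω] in
theorem cf_dq {L : ℝ} (hL : 0 < L) {n : K} {i : Fin r} (hV : 0 < Vs p J T n i) (θ : Fin r → ℝ) (ω : Ω) :
    cf p J T L θ n i * Qs p A J T n i ω = L * (θ i * dq p A J T L n i ω) := by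
  unfold cf dq
  have h1 := sqrt_id hV hL (Qs p A J T n i ω)
  linear_combination -(θ i) * h1

omit [DecidableEq ι] [DecidableEq κ] [DecidableEq K] in
theorem cf_sq {L : ℝ} (hL : 0 < L) {n : K} {i : Fin r} (hV : 0 < Vs p J T n i) (θ : Fin r → ℝ) :
    cf p J T L θ n i ^ 2 * Vs p J T n i = L * (θ i ^ 2 / 2) := by
  unfold cf
  rw [mul_pow, Real.sq_sqrt (by positivity)]
  field_simp

omit [DecidableEq ι] [DecidableEq κ] [DecidableEq K] in
theorem dq_meas (hA : IsModel μ p A) (L : ℝ) (n : K) (i : Fin r) : Measurable (dq p A J T L n i) :=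
  (Qs_meas hA n i).div_const _

/-- Sums at different scales. -/
def Apart (J : K → Fin r → Finset κ) (T : K → Fin r → κ → Finset ι) (D e : ℝ) (h : K → ℝ) (n n' : K) : Prop :=
  h n' ≤ h n ∧ ∃ X Bf Y : Fin r → Finset κ, (∀ i, J n' i = X i ∪ (Bf i ∪ Y i)) ∧ (∀ i, Disjoint (X i) (Bf i ∪ Y i)) ∧
    (∀ i, Disjoint (Bf i) (Y i)) ∧ (∀ i i' j j', j ∈ X i → j' ∈ Y i' → Disjoint (T n' i j) (T n' i' j')) ∧
    (∀ i i' j j', j ∈ J n i → j' ∈ Y i' → Disjoint (T n i j) (T n' i' j')) ∧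
    116 * (D ^ 2 * h n ^ 3) * ((univ.sigma X).card : ℝ) ≤ e / 8 ∧ h n' * ((univ.sigma Bf).card : ℝ) ≤ e / 8

/-- The hypotheses on a block. -/
structure CB (p : ι → ℝ) (J : K → Fin r → Finset κ) (T : K → Fin r → κ → Finset ι) (N : Finset K) (D L e : ℝ)
    (b : Fin r → ℝ) (h : K → ℝ) : Prop where
  ne : ∀ n ∈ N, ∀ i, ∀ j ∈ J n i, (T n i j).Nonempty
  inj : ∀ n ∈ N, ∀ n' ∈ N, ∀ i i' j j', j ∈ J n i → j' ∈ J n' i' → T n i j = T n' i' j' → n = n' ∧ i = i' ∧ j = j'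
  oneD : 1 ≤ D
  deg : ∀ n ∈ N, ∀ n' ∈ N, ∀ i, ∀ j ∈ J n i,
      (((univ.sigma (J n')).filter (fun x => ¬ Disjoint (T n' x.1 x.2) (T n i j))).card : ℝ) ≤ D
  pos : 0 < L
  var : ∀ n ∈ N, ∀ i, 0 < Vs p J T n i
  cf : ∀ n ∈ N, ∀ i, b i * Real.sqrt (L / (2 * Vs p J T n i)) ≤ h n
  hD : ∀ n ∈ N, 112 * (D * h n) ≤ 1
  h0 : ∀ n ∈ N, 0 ≤ h n
  err : ∀ n ∈ N, 116 * (D ^ 2 * h n ^ 3) * ((univ.sigma (J n)).card : ℝ) ≤ e / 8
  e0 : 0 ≤ e
  e1 : e ≤ 1 / 2
  pair : ∀ n ∈ N, ∀ n' ∈ N, n ≠ n' →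
    (116 * (D ^ 2 * h n ^ 3) * ((univ.sigma (J n')).card : ℝ) ≤ e / 8 ∧ h n' ≤ h n) ∨ Apart J T D e h n n' ∨
    (116 * (D ^ 2 * h n' ^ 3) * ((univ.sigma (J n)).card : ℝ) ≤ e / 8 ∧ h n ≤ h n') ∨ Apart J T D e h n' n

theorem CB.mg (hA : IsModel μ p A) {N : Finset K} {D L e : ℝ} {b : Fin r → ℝ} {h : K → ℝ}
    (hB : CB p J T N D L e b h) : MG μ N (dq p A J T L) L e b := by
  classical
  have he0 := hB.e0
  have hcf : ∀ n ∈ N, ∀ θ : Fin r → ℝ, (∀ i, |θ i| ≤ b i) → ∀ i, |CH.cf p J T L θ n i| ≤ h n := by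
    intro n hn θ hθ i
    unfold CH.cf
    rw [abs_mul, abs_of_nonneg (Real.sqrt_nonneg _)]
    exact (mul_le_mul_of_nonneg_right (hθ i) (Real.sqrt_nonneg _)).trans (hB.cf n hn i)
  have hcd : ∀ n ∈ N, ∀ (θ : Fin r → ℝ) ω, ∑ i, CH.cf p J T L θ n i * Qs p A J T n i ω =
      L * ∑ i, θ i * dq p A J T L n i ω := by
    intro n hn θ ω
    rw [mul_sum]
    exact sum_congr rfl (fun i _ => cf_dq hB.pos (hB.var n hn i) θ ω)
  have hcs : ∀ n ∈ N, ∀ θ : Fin r → ℝ, (∑ i, CH.cf p J T L θ n i ^ 2 * Vs p J T n i) / 2 = L * ((∑ i, θ i ^ 2) / 4) := by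
    intro n hn θ
    rw [sum_congr rfl (fun i _ => cf_sq hB.pos (hB.var n hn i) θ), ← mul_sum, ← sum_div]
    ring
  have hsub : ∀ n ∈ N, ∀ n' ∈ N, ∀ m ∈ ({n, n'} : Finset K), m ∈ N := by
    intro n hn n' hn' m hm
    rw [mem_insert, mem_singleton] at hm
    rcases hm with rfl | rfl
    · exact hn
    · exact hn'
  have hcomp : ∀ n ∈ N, ∀ n' ∈ N, n ≠ n' → 116 * (D ^ 2 * h n ^ 3) * ((univ.sigma (J n')).card : ℝ) ≤ e / 8 →
      h n' ≤ h n → ∀ θ : Fin r → ℝ, (∀ i, |θ i| ≤ b i) →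
      ∫ ω, Real.exp (L * ∑ i, θ i * dq p A J T L n i ω + L * ∑ i, θ i * dq p A J T L n' i ω) ∂μ ≤
      Real.exp (2 * (L * ((∑ i, θ i ^ 2) / 4)) + 2 * e) := by
    intro n hn n' hn' hnn h1 h2 θ hθ
    have hs := hsub n hn n' hn'
    have h3 := (sys_mgf hA {n, n'} (CH.cf p J T L θ) (h := h n) (D := D) (E := e / 8) (hB.h0 n hn)
      (fun m hm i => by
        rw [mem_insert, mem_singleton] at hm
        rcases hm with rfl | rfl
        · exact hcf _ hn θ hθ i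
        · exact (hcf _ hn' θ hθ i).trans h2)
      (by rw [card_pair hnn]; norm_num) (by rw [card_pair hnn]) hB.oneD (hB.hD n hn) (fun m hm => hB.ne m (hs m hm))
      (fun m hm m' hm' => hB.inj m (hs m hm) m' (hs m' hm')) (fun m hm m' hm' => hB.deg m (hs m hm) m' (hs m' hm'))
      (fun m hm => by
        rw [mem_insert, mem_singleton] at hm
        rcases hm with rfl | rfl
        · exact hB.err _ hn
        · exact h1)).2
    rw [card_pair hnn] at h3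
    simp_rw [sum_pair hnn] at h3
    simp_rw [hcd n hn, hcd n' hn'] at h3
    have h4 : (∑ i, CH.cf p J T L θ n i ^ 2 * Vs p J T n i + ∑ i, CH.cf p J T L θ n' i ^ 2 * Vs p J T n' i) / 2 =
        2 * (L * ((∑ i, θ i ^ 2) / 4)) := by
      rw [add_div, hcs n hn, hcs n' hn']
      ring
    rw [h4] at h3
    refine h3.trans (Real.exp_le_exp.2 ?_)
    push_cast
    linarith
  have hsep : ∀ n ∈ N, ∀ n' ∈ N, n ≠ n' → Apart J T D e h n n' → ∀ θ : Fin r → ℝ, (∀ i, |θ i| ≤ b i) →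
      ∫ ω, Real.exp (L * ∑ i, θ i * dq p A J T L n i ω + L * ∑ i, θ i * dq p A J T L n' i ω) ∂μ ≤
      Real.exp (2 * (L * ((∑ i, θ i ^ 2) / 4)) + 2 * e) := by
    intro n hn n' hn' hnn h1 θ hθ
    obtain ⟨g0, X, Bf, Y, g1, g2, g3, g4, g5, g6, g7⟩ := h1
    have hs := hsub n hn n' hn'
    have hYJ : ∀ i, Y i ⊆ J n' i := by
      intro i
      rw [g1 i]
      exact subset_union_right.trans subset_union_right
    have hYc : ((univ.sigma Y).card : ℝ) ≤ ((univ.sigma (J n')).card : ℝ) := by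
      have : (univ.sigma Y).card ≤ (univ.sigma (J n')).card := by
        refine card_le_card ?_
        intro x hx
        rw [mem_sigma] at hx ⊢
        exact ⟨hx.1, hYJ x.1 hx.2⟩
      exact_mod_cast this
    have h3 := sep hA hnn X Bf Y (CH.cf p J T L θ) (h := h n) (h' := h n') (D := D) (E := e / 8) (hB.h0 n' hn') g0
      (hcf n hn θ hθ) (hcf n' hn' θ hθ) hB.oneD (hB.hD n hn) g1 g2 g3 g4 g5 (fun m hm => hB.ne m (hs m hm))
      (fun m hm m' hm' => hB.inj m (hs m hm) m' (hs m' hm')) (fun m hm m' hm' => hB.deg m (hs m hm) m' (hs m' hm'))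
      (hB.err n hn) g6 (by
        refine le_trans (mul_le_mul_of_nonneg_left hYc ?_) (hB.err n' hn')
        have := hB.h0 n' hn'
        positivity) g7
    simp_rw [hcd n hn, hcd n' hn'] at h3
    rw [hcs n hn, hcs n' hn'] at h3
    refine h3.trans (Real.exp_le_exp.2 ?_)
    linarith
  have hswap : ∀ (n n' : K) (θ : Fin r → ℝ), ∫ ω, Real.exp (L * ∑ i, θ i * dq p A J T L n i ω +
      L * ∑ i, θ i * dq p A J T L n' i ω) ∂μ = ∫ ω, Real.exp (L * ∑ i, θ i * dq p A J T L n' i ω +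
      L * ∑ i, θ i * dq p A J T L n i ω) ∂μ := by
    intro n n' θ
    refine integral_congr_ae (Eventually.of_forall (fun ω => ?_))
    simp only
    rw [add_comm]
  refine ⟨fun n i => dq_meas hA L n i, fun n => ?_, hB.pos, hB.e0, hB.e1, fun n hn θ hθ => ?_,
    fun n hn n' hn' hnn θ hθ => ?_⟩
  · refine ⟨∑ i, ((J n i).card : ℝ) / Real.sqrt (2 * Vs p J T n i * L), fun i ω => ?_⟩
    have h1 : |dq p A J T L n i ω| ≤ ((J n i).card : ℝ) / Real.sqrt (2 * Vs p J T n i * L) := by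
      unfold dq
      rw [abs_div, abs_of_nonneg (Real.sqrt_nonneg _)]
      exact div_le_div_of_nonneg_right (Qs_abs hA n i ω) (Real.sqrt_nonneg _)
    exact h1.trans (single_le_sum (f := fun i => ((J n i).card : ℝ) / Real.sqrt (2 * Vs p J T n i * L))
      (fun i _ => by positivity) (mem_univ i))
  · have hs : ∀ m ∈ ({n} : Finset K), m ∈ N := by
      intro m hm
      rw [mem_singleton] at hm
      rw [hm]
      exact hn
    have h1 := sys_mgf hA {n} (CH.cf p J T L θ) (h := h n) (D := D) (E := e / 8) (hB.h0 n hn)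
      (fun m hm i => by
        rw [mem_singleton] at hm
        rw [hm]
        exact hcf n hn θ hθ i)
      (by simp) (by simp) hB.oneD (hB.hD n hn) (fun m hm => hB.ne m (hs m hm))
      (fun m hm m' hm' => hB.inj m (hs m hm) m' (hs m' hm')) (fun m hm m' hm' => hB.deg m (hs m hm) m' (hs m' hm'))
      (fun m hm => by
        rw [mem_singleton] at hm
        rw [hm]
        exact hB.err n hn)
    simp only [sum_singleton, card_singleton, Nat.cast_one, one_mul] at h1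
    simp_rw [hcd n hn] at h1
    rw [hcs n hn] at h1
    exact ⟨(Real.exp_le_exp.2 (by linarith)).trans h1.1, h1.2.trans (Real.exp_le_exp.2 (by linarith))⟩
  · rcases hB.pair n hn n' hn' hnn with h1 | h1 | h1 | h1
    · exact hcomp n hn n' hn' hnn h1.1 h1.2 θ hθ
    · exact hsep n hn n' hn' hnn h1 θ hθ
    · rw [hswap]
      exact hcomp n' hn' n hn (Ne.symm hnn) h1.1 h1.2 θ hθ
    · rw [hswap]
      exact hsep n' hn' n hn (Ne.symm hnn) h1 θ hθ

end Pool.Agent.Q106.CH
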