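import Pool.Agent.Q106.CH.Chaos

/-!
# The lower order part of a number of configurations

`∑ (1_{T ⊆ A} - p T)` and `∑ ∏_{b ∈ T} (1_b - p b)` are close.
-/

set_option autoImplicit false

namespace Pool.Agent.Q106.CH

open Finset MeasureTheory ProbabilityTheory Filter Pool.Agent.Q120.GM Pool.Agent.Q106.UR Pool.Agent.Q106.MD

variable {Ω : Type*} [MeasurableSpace Ω] {μ : Measure Ω} [IsProbabilityMeasure μ] {ι κ : Type*} [DecidableEq ι]
  [DecidableEq κ] {p : ι → ℝ} {A : Ω → Set ι}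

/-- The difference. -/
noncomputable def rem (p : ι → ℝ) (A : Ω → Set ι) (T : Finset ι) (ω : Ω) : ℝ := ind A T ω - pT p T - xi p A T ω

omit [DecidableEq ι] [DecidableEq κ] in
theorem rem_meas (hA : IsModel μ p A) (T : Finset ι) : Measurable (rem p A T) :=
  ((meas_ind hA T).sub_const _).sub (xi_meas hA T)

omit [DecidableEq ι] [DecidableEq κ] in
theorem rem_abs (hA : IsModel μ p A) (T : Finset ι) (ω : Ω) : |rem p A T ω| ≤ 2 := by
  unfold rem
  have h1 := ind_nonneg (A := A) T ω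
  have h2 := ind_le_one (A := A) T ω
  have h3 := pT_nonneg hA T
  have h4 := pT_le_one hA T
  have h5 := abs_le.1 (xi_abs hA T ω)
  rw [abs_le]
  constructor <;> linarith [h5.1, h5.2]

omit [DecidableEq ι] [DecidableEq κ] in
theorem rem_int (hA : IsModel μ p A) {T : Finset ι} (hT : T.Nonempty) : ∫ ω, rem p A T ω ∂μ = 0 := by
  obtain ⟨h1, h2⟩ := int_ind hA T
  have h3 : Integrable (xi p A T) μ := int_bdd (xi_meas hA T) 1 (xi_abs hA T)
  have h4 : Integrable (fun ω => ind A T ω - pT p T) μ := h1.sub (integrable_const _)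
  unfold rem
  rw [integral_sub h4 h3, integral_sub h1 (integrable_const _), h2, xi_int hA hT, integral_const]
  simp

omit [DecidableEq κ] in
theorem rem_cov (hA : IsModel μ p A) {T U : Finset ι} (hT : T.Nonempty) (hU : U.Nonempty) :
    ∫ ω, rem p A T ω * rem p A U ω ∂μ = (pT p (T ∪ U) - pT p T * pT p U) - ∫ ω, ind A T ω * xi p A U ω ∂μ -
      ∫ ω, ind A U ω * xi p A T ω ∂μ + ∫ ω, xi p A T ω * xi p A U ω ∂μ := by
  have hb : ∀ (f g : Ω → ℝ), Measurable f → Measurable g → (∀ ω, |f ω| ≤ 1) → (∀ ω, |g ω| ≤ 1) →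
      Integrable (fun ω => f ω * g ω) μ := by
    intro f g hf hg h1 h2
    refine int_bdd (hf.mul hg) 1 (fun ω => ?_)
    rw [abs_mul]
    have := h1 ω
    have := h2 ω
    have := abs_nonneg (f ω)
    have := abs_nonneg (g ω)
    nlinarith
  have hi : ∀ (V : Finset ι) ω, |ind A V ω| ≤ 1 := by
    intro V ω
    have h1 := ind_nonneg (A := A) V ω
    have h2 := ind_le_one (A := A) V ω
    rw [abs_le]
    constructor <;> linarith
  have hc : ∀ (V : Finset ι) ω, |ind A V ω - pT p V| ≤ 1 := by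
    intro V ω
    have h1 := ind_nonneg (A := A) V ω
    have h2 := ind_le_one (A := A) V ω
    have h3 := pT_nonneg hA V
    have h4 := pT_le_one hA V
    rw [abs_le]
    constructor <;> linarith
  have mi : ∀ V : Finset ι, Measurable (ind A V) := fun V => meas_ind hA V
  have mx : ∀ V : Finset ι, Measurable (xi p A V) := fun V => xi_meas hA V
  have mc : ∀ V : Finset ι, Measurable (fun ω => ind A V ω - pT p V) := fun V => (mi V).sub_const _
  have i1 := hb _ _ (mc T) (mc U) (hc T) (hc U)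
  have i2 := hb _ _ (mi T) (mx U) (hi T) (xi_abs hA U)
  have i3 := hb _ _ (mi U) (mx T) (hi U) (xi_abs hA T)
  have i4 := hb _ _ (mx T) (mx U) (xi_abs hA T) (xi_abs hA U)
  have ixT : Integrable (xi p A T) μ := int_bdd (mx T) 1 (xi_abs hA T)
  have ixU : Integrable (xi p A U) μ := int_bdd (mx U) 1 (xi_abs hA U)
  have e1 : ∀ ω, rem p A T ω * rem p A U ω = (ind A T ω - pT p T) * (ind A U ω - pT p U) - ind A T ω * xi p A U ω -
      ind A U ω * xi p A T ω + xi p A T ω * xi p A U ω + (pT p T * xi p A U ω + pT p U * xi p A T ω) := by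
    intro ω
    unfold rem
    ring
  have j1 : Integrable (fun ω => (ind A T ω - pT p T) * (ind A U ω - pT p U) - ind A T ω * xi p A U ω) μ := i1.sub i2
  have j2 : Integrable (fun ω => (ind A T ω - pT p T) * (ind A U ω - pT p U) - ind A T ω * xi p A U ω -
      ind A U ω * xi p A T ω) μ := j1.sub i3
  have j3 : Integrable (fun ω => (ind A T ω - pT p T) * (ind A U ω - pT p U) - ind A T ω * xi p A U ω -
      ind A U ω * xi p A T ω + xi p A T ω * xi p A U ω) μ := j2.add i4
  have j4 : Integrable (fun ω => pT p T * xi p A U ω) μ := ixU.const_mul _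
  have j5 : Integrable (fun ω => pT p U * xi p A T ω) μ := ixT.const_mul _
  have j6 : Integrable (fun ω => pT p T * xi p A U ω + pT p U * xi p A T ω) μ := j4.add j5
  simp_rw [e1]
  rw [integral_add j3 j6, integral_add j2 i4, integral_sub j1 i3, integral_sub i1 i2, integral_add j4 j5,
    integral_const_mul, integral_const_mul, xi_int hA hT, xi_int hA hU, int_cov hA]
  ring

/-- **Exponential moments of the difference.** -/
theorem rem_mgf (hA : IsModel μ p A) (J : Finset κ) (T : κ → Finset ι) {c D s : ℝ} {k : ℕ} (hD : 1 ≤ D)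
    (hcD : 112 * (D * |c|) ≤ 1) (hs : 0 < s) (hs1 : s ≤ 1) (hp : ∀ j ∈ J, ∀ b ∈ T j, p b ≤ s ^ 2)
    (hne : ∀ j ∈ J, (T j).Nonempty) (hk : ∀ j ∈ J, (T j).card ≤ k) (hinj : ∀ i ∈ J, ∀ j ∈ J, T i = T j → i = j)
    (hdeg : ∀ j ∈ J, ((nb T J j).card : ℝ) ≤ D) :
    ∫ ω, Real.exp (c * ∑ j ∈ J, rem p A (T j) ω) ∂μ ≤
      Real.exp (c ^ 2 / 2 * ((s * D + k * s ^ 2) * ∑ j ∈ J, pT p (T j)) + 232 * (D ^ 2 * |c| ^ 3) * J.card) := by
  obtain ⟨Y, hY⟩ : ∃ Y : κ → Ω → ℝ, Y = fun j ω => if j ∈ J then rem p A (T j) ω / 2 else 0 := ⟨_, rfl⟩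
  have hYm : ∀ j, Measurable[F A (T j : Set ι)] (Y j) := by
    intro j
    rw [hY]
    let _ : MeasurableSpace Ω := F A (T j : Set ι)
    simp only
    split_ifs
    · have h1 : Measurable[F A (T j : Set ι)] (ind A (T j)) := F_ind (A := A) (S := (T j : Set ι)) (fun i hi => hi)
      have h2 : Measurable[F A (T j : Set ι)] (xi p A (T j)) := xi_F (p := p) (A := A) (T j)
      exact ((h1.sub_const _).sub h2).div_const _
    · exact measurable_const
  have hYb : ∀ j ω, |Y j ω| ≤ 1 := by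
    intro j ω
    rw [hY]
    simp only
    split_ifs
    · have h1 := rem_abs hA (T j) ω
      rw [abs_div, abs_of_pos (by norm_num : (0 : ℝ) < 2)]
      linarith
    · simp
  have hY0 : ∀ j, ∫ ω, Y j ω ∂μ = 0 := by
    intro j
    rw [hY]
    simp only
    split_ifs with hj
    · rw [integral_div, rem_int hA (hne j hj), zero_div]
    · simp
  have hm := (mgf hA hYm hYb hY0 hD (h := 2 * c) (by
    rw [abs_mul, abs_of_pos (by norm_num : (0 : ℝ) < 2)]
    linarith) J hdeg).2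
  have e1 : ∀ ω, 2 * c * SS Y J ω = c * ∑ j ∈ J, rem p A (T j) ω := by
    intro ω
    unfold SS
    rw [mul_assoc, mul_left_comm, mul_sum]
    congr 1
    refine sum_congr rfl (fun j hj => ?_)
    rw [hY]
    simp only [if_pos hj]
    ring
  simp_rw [e1] at hm
  refine hm.trans (Real.exp_le_exp.2 ?_)
  obtain ⟨M, hM⟩ : ∃ M, M = ∑ j ∈ J, pT p (T j) := ⟨_, rfl⟩
  rw [← hM]
  have hV : VV μ Y J ≤ (s * D + k * s ^ 2) * M / 4 := by
    have e2 : VV μ Y J = (∑ i ∈ J, ∑ j ∈ J, ∫ ω, rem p A (T i) ω * rem p A (T j) ω ∂μ) / 4 := by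
      unfold VV
      rw [sum_div]
      refine sum_congr rfl (fun i hi => ?_)
      rw [sum_div]
      refine sum_congr rfl (fun j hj => ?_)
      have e3 : ∀ ω, Y i ω * Y j ω = (1 / 4) * (rem p A (T i) ω * rem p A (T j) ω) := by
        intro ω
        rw [hY]
        simp only [if_pos hi, if_pos hj]
        ring
      simp_rw [e3]
      rw [integral_const_mul]
      ring
    rw [e2]
    refine div_le_div_of_nonneg_right ?_ (by norm_num)
    have hv := var_bound hA J T (fun _ => 1) hs hs1 hp hne hinj hdeg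
    simp only [one_mul, one_pow] at hv
    rw [← hM] at hv
    have hv1 := (abs_le.1 hv).2
    have e3 : ∀ i ∈ J, ∑ j ∈ J, ∫ ω, rem p A (T i) ω * rem p A (T j) ω ∂μ ≤
        ∑ j ∈ J, (pT p (T i ∪ T j) - pT p (T i) * pT p (T j)) - vT p (T i) := by
      intro i hi
      have e4 : ∀ j ∈ J, ∫ ω, rem p A (T i) ω * rem p A (T j) ω ∂μ ≤
          (pT p (T i ∪ T j) - pT p (T i) * pT p (T j)) - if i = j then vT p (T i) else 0 := by
        intro j hj
        rw [rem_cov hA (hne i hi) (hne j hj), xi_orth hA]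
        have h1 := (ind_xi hA (T i) (T j)).1
        have h2 := (ind_xi hA (T j) (T i)).1
        by_cases hij : i = j
        · subst hij
          rw [if_pos rfl, if_pos rfl, (ind_xi hA (T i) (T i)).2]
          linarith
        · rw [if_neg hij, if_neg (fun h' => hij (hinj i hi j hj h'))]
          linarith
      refine (sum_le_sum e4).trans (le_of_eq ?_)
      rw [sum_sub_distrib, Finset.sum_ite_eq J i, if_pos hi]
    refine (sum_le_sum e3).trans ?_
    rw [sum_sub_distrib]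
    have e5 : (1 - k * s ^ 2) * M ≤ ∑ i ∈ J, vT p (T i) := by
      rw [hM, mul_sum]
      exact sum_le_sum (fun i hi => le_vT hA (hp i hi) (by positivity) (hk i hi))
    linarith
  have e6 : (2 * c) ^ 2 / 2 * VV μ Y J ≤ (2 * c) ^ 2 / 2 * ((s * D + k * s ^ 2) * M / 4) :=
    mul_le_mul_of_nonneg_left hV (by positivity)
  have e7 : |2 * c| ^ 3 = 8 * |c| ^ 3 := by
    rw [abs_mul, abs_of_pos (by norm_num : (0 : ℝ) < 2)]
    ring
  rw [e7]
  have e8 : 29 * (D ^ 2 * (8 * |c| ^ 3)) * (J.card : ℝ) = 232 * (D ^ 2 * |c| ^ 3) * J.card := by ring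
  rw [e8]
  linarith

/-- **The difference is small.** -/
theorem rem_tail (hA : IsModel μ p A) (J : Finset κ) (T : κ → Finset ι) {c D s M t : ℝ} {k : ℕ} (hc : 0 ≤ c) (hD : 1 ≤ D)
    (hcD : 112 * (D * c) ≤ 1) (hs : 0 < s) (hs1 : s ≤ 1) (hp : ∀ j ∈ J, ∀ b ∈ T j, p b ≤ s ^ 2)
    (hne : ∀ j ∈ J, (T j).Nonempty) (hk : ∀ j ∈ J, (T j).card ≤ k) (hinj : ∀ i ∈ J, ∀ j ∈ J, T i = T j → i = j)
    (hdeg : ∀ j ∈ J, ((nb T J j).card : ℝ) ≤ D) (hM : ∑ j ∈ J, pT p (T j) ≤ M) :
    μ.real {ω | t ≤ |∑ j ∈ J, rem p A (T j) ω|} ≤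
      2 * Real.exp (c ^ 2 / 2 * ((s * D + k * s ^ 2) * M) + 232 * (D ^ 2 * c ^ 3) * J.card - c * t) := by
  obtain ⟨R, hR⟩ : ∃ R : Ω → ℝ, R = fun ω => ∑ j ∈ J, rem p A (T j) ω := ⟨_, rfl⟩
  have hRm : Measurable R := by
    rw [hR]
    exact Finset.measurable_fun_sum _ (fun j _ => rem_meas hA (T j))
  have hRb : ∀ ω, |R ω| ≤ 2 * J.card := by
    intro ω
    rw [hR]
    refine (abs_sum_le_sum_abs _ _).trans ((sum_le_sum (fun j _ => rem_abs hA (T j) ω)).trans ?_)
    rw [sum_const, nsmul_eq_mul, mul_comm]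
  have key : ∀ σ : ℝ, |σ| = 1 → μ.real {ω | t ≤ σ * R ω} ≤
      Real.exp (c ^ 2 / 2 * ((s * D + k * s ^ 2) * M) + 232 * (D ^ 2 * c ^ 3) * J.card - c * t) := by
    intro σ hσ
    have h1 := rem_mgf hA J T (c := c * σ) hD (by rw [abs_mul, hσ, mul_one, abs_of_nonneg hc]; exact hcD) hs hs1 hp hne hk
      hinj hdeg
    have hσ2 : σ ^ 2 = 1 := by rw [← sq_abs, hσ, one_pow]
    rw [abs_mul, hσ, mul_one, abs_of_nonneg hc, mul_pow, hσ2, mul_one] at h1
    have hint : Integrable (fun ω => Real.exp (c * σ * R ω)) μ := by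
      refine int_bdd ((hRm.const_mul _).exp) (Real.exp (c * (2 * J.card))) (fun ω => ?_)
      rw [abs_of_pos (Real.exp_pos _)]
      refine Real.exp_le_exp.2 ((le_abs_self _).trans ?_)
      rw [abs_mul, abs_mul, hσ, mul_one, abs_of_nonneg hc]
      exact mul_le_mul_of_nonneg_left (hRb ω) hc
    have h2 := mul_meas_ge_le_integral_of_nonneg (μ := μ) (f := fun ω => Real.exp (c * σ * R ω))
      (Eventually.of_forall (fun ω => (Real.exp_pos _).le)) hint (Real.exp (c * t))
    have h3 : μ.real {ω | t ≤ σ * R ω} ≤ μ.real {ω | Real.exp (c * t) ≤ Real.exp (c * σ * R ω)} := by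
      refine measureReal_mono ?_ (measure_ne_top _ _)
      intro ω hω
      have hω' : t ≤ σ * R ω := hω
      show Real.exp (c * t) ≤ Real.exp (c * σ * R ω)
      refine Real.exp_le_exp.2 ?_
      rw [mul_assoc]
      exact mul_le_mul_of_nonneg_left hω' hc
    have h4 : Real.exp (c * t) * μ.real {ω | t ≤ σ * R ω} ≤
        Real.exp (c ^ 2 / 2 * ((s * D + k * s ^ 2) * M) + 232 * (D ^ 2 * c ^ 3) * J.card) := by
      refine (mul_le_mul_of_nonneg_left h3 (Real.exp_pos _).le).trans (h2.trans ?_)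
      simp only [hR]
      refine h1.trans (Real.exp_le_exp.2 ?_)
      have h5 : (s * D + k * s ^ 2) * ∑ j ∈ J, pT p (T j) ≤ (s * D + k * s ^ 2) * M :=
        mul_le_mul_of_nonneg_left hM (by positivity)
      have h6 := mul_le_mul_of_nonneg_left h5 (by positivity : 0 ≤ c ^ 2 / 2)
      linarith
    rw [Real.exp_sub, le_div_iff₀ (Real.exp_pos _), mul_comm]
    exact h4
  have h1 := key 1 (by norm_num)
  have h2 := key (-1) (by norm_num)
  have h3 : {ω | t ≤ |∑ j ∈ J, rem p A (T j) ω|} ⊆ {ω | t ≤ 1 * R ω} ∪ {ω | t ≤ -1 * R ω} := by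
    intro ω hω
    have hω' : t ≤ |R ω| := by rw [hR]; exact hω
    rcases le_abs'.1 hω' with h4 | h4
    · right
      show t ≤ -1 * R ω
      linarith
    · left
      show t ≤ 1 * R ω
      linarith
  have h4 := (measureReal_mono h3 (measure_ne_top μ _)).trans (measureReal_union_le _ _)
  linarith

end Pool.Agent.Q106.CH
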