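import Pool.Agent.Q106.CH.Blk2

/-!
# Pairs of sums at different scales
-/

set_option autoImplicit false

namespace Pool.Agent.Q106.CH

open Finset MeasureTheory ProbabilityTheory Filter Pool.Agent.Q120.GM Pool.Agent.Q106.UR Pool.Agent.Q106.MD

variable {Ω : Type*} [MeasurableSpace Ω] {μ : Measure Ω} [IsProbabilityMeasure μ] {ι κ K : Type*} [DecidableEq ι]
  [DecidableEq κ] [DecidableEq K] {p : ι → ℝ} {A : Ω → Set ι} {r : ℕ} {J : K → Fin r → Finset κ}
  {T : K → Fin r → κ → Finset ι}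

omit [DecidableEq ι] [DecidableEq κ] [DecidableEq K] [MeasurableSpace Ω] in
theorem Qs_F {S : Set ι} {n : K} {i : Fin r} (h : ∀ j ∈ J n i, (T n i j : Set ι) ⊆ S) :
    Measurable[F A S] (Qs p A J T n i) := by
  unfold Qs
  refine Finset.measurable_fun_sum _ (fun j hj => ?_)
  exact (xi_F (p := p) (A := A) (T n i j)).mono (F_mono (h j hj)) le_rfl

/-- **Pairs at different scales.** -/
theorem sep (hA : IsModel μ p A) {n n' : K} (hnn : n ≠ n') (X Bf Y : Fin r → Finset κ) (c : K → Fin r → ℝ)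
    {h h' D E : ℝ} (hh' : 0 ≤ h') (hh : h' ≤ h) (hc : ∀ i, |c n i| ≤ h) (hc' : ∀ i, |c n' i| ≤ h') (hD : 1 ≤ D)
    (hhD : 112 * (D * h) ≤ 1) (hpart : ∀ i, J n' i = X i ∪ (Bf i ∪ Y i)) (hd1 : ∀ i, Disjoint (X i) (Bf i ∪ Y i))
    (hd2 : ∀ i, Disjoint (Bf i) (Y i)) (hYX : ∀ i i' j j', j ∈ X i → j' ∈ Y i' → Disjoint (T n' i j) (T n' i' j'))
    (hYn : ∀ i i' j j', j ∈ J n i → j' ∈ Y i' → Disjoint (T n i j) (T n' i' j'))
    (hne : ∀ m ∈ ({n, n'} : Finset K), ∀ i, ∀ j ∈ J m i, (T m i j).Nonempty)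
    (hinj : ∀ m ∈ ({n, n'} : Finset K), ∀ m' ∈ ({n, n'} : Finset K), ∀ i i' j j', j ∈ J m i → j' ∈ J m' i' →
      T m i j = T m' i' j' → m = m' ∧ i = i' ∧ j = j')
    (hdeg : ∀ m ∈ ({n, n'} : Finset K), ∀ m' ∈ ({n, n'} : Finset K), ∀ i, ∀ j ∈ J m i,
      (((univ.sigma (J m')).filter (fun x => ¬ Disjoint (T m' x.1 x.2) (T m i j))).card : ℝ) ≤ D)
    (hE1 : 116 * (D ^ 2 * h ^ 3) * ((univ.sigma (J n)).card : ℝ) ≤ E)
    (hE2 : 116 * (D ^ 2 * h ^ 3) * ((univ.sigma X).card : ℝ) ≤ E)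
    (hE3 : 116 * (D ^ 2 * h' ^ 3) * ((univ.sigma Y).card : ℝ) ≤ E)
    (hBf : h' * ((univ.sigma Bf).card : ℝ) ≤ E) :
    ∫ ω, Real.exp (∑ i, c n i * Qs p A J T n i ω + ∑ i, c n' i * Qs p A J T n' i ω) ∂μ ≤
      Real.exp ((∑ i, c n i ^ 2 * Vs p J T n i) / 2 + (∑ i, c n' i ^ 2 * Vs p J T n' i) / 2 + 4 * E) := by
  have hn1 : n ∈ ({n, n'} : Finset K) := mem_insert_self _ _
  have hn2 : n' ∈ ({n, n'} : Finset K) := mem_insert_of_mem (mem_singleton_self _)
  have hXJ : ∀ i, X i ⊆ J n' i := by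
    intro i
    rw [hpart i]
    exact subset_union_left
  have hYJ : ∀ i, Y i ⊆ J n' i := by
    intro i
    rw [hpart i]
    exact subset_union_right.trans subset_union_right
  obtain ⟨J1, hJ1⟩ : ∃ J1 : K → Fin r → Finset κ, J1 = fun m => if m = n then J n else X := ⟨_, rfl⟩
  obtain ⟨J2, hJ2⟩ : ∃ J2 : K → Fin r → Finset κ, J2 = fun _ => Y := ⟨_, rfl⟩
  have e11 : J1 n = J n := by rw [hJ1]; simp
  have e12 : J1 n' = X := by
    rw [hJ1]
    simp only
    rw [if_neg (Ne.symm hnn)]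
  have hsub1 : ∀ m ∈ ({n, n'} : Finset K), ∀ i, J1 m i ⊆ J m i := by
    intro m hm i
    rw [mem_insert, mem_singleton] at hm
    rcases hm with rfl | rfl
    · rw [e11]
    · rw [e12]
      exact hXJ i
  have hdeg1 : ∀ m ∈ ({n, n'} : Finset K), ∀ (U : Finset ι) (J' : Fin r → Finset κ), (∀ i, J' i ⊆ J m i) →
      (((univ.sigma (J m)).filter (fun x => ¬ Disjoint (T m x.1 x.2) U)).card : ℝ) ≤ D →
      (((univ.sigma J').filter (fun x => ¬ Disjoint (T m x.1 x.2) U)).card : ℝ) ≤ D := by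
    intro m _ U J' hJ' h1
    refine le_trans ?_ h1
    have : ((univ.sigma J').filter (fun x => ¬ Disjoint (T m x.1 x.2) U)).card ≤
        ((univ.sigma (J m)).filter (fun x => ¬ Disjoint (T m x.1 x.2) U)).card := by
      refine card_le_card (filter_subset_filter _ ?_)
      intro x hx
      rw [mem_sigma] at hx ⊢
      exact ⟨hx.1, hJ' x.1 hx.2⟩
    exact_mod_cast this
  have hh0 : 0 ≤ h := hh'.trans hh
  -- the first group
  have g1 := (sys_mgf (J := J1) hA {n, n'} c (h := h) (D := D) (E := E) hh0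
    (fun m hm i => by
      rw [mem_insert, mem_singleton] at hm
      rcases hm with rfl | rfl
      · exact hc i
      · exact (hc' i).trans hh)
    (by rw [card_pair hnn]; norm_num) (by rw [card_pair hnn]) hD hhD (fun m hm i j hj => hne m hm i j (hsub1 m hm i hj))
    (fun m hm m' hm' i i' j j' hj hj' => hinj m hm m' hm' i i' j j' (hsub1 m hm i hj) (hsub1 m' hm' i' hj'))
    (fun m hm m' hm' i j hj => hdeg1 m' hm' _ _ (hsub1 m' hm') (hdeg m hm m' hm' i j (hsub1 m hm i hj)))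
    (fun m hm => by
      rw [mem_insert, mem_singleton] at hm
      rcases hm with rfl | rfl
      · rw [e11]
        exact hE1
      · rw [e12]
        exact hE2)).2
  rw [card_pair hnn] at g1
  simp_rw [sum_pair hnn] at g1
  -- the second group
  have hsing : ∀ m ∈ ({n'} : Finset K), m = n' := fun m hm => mem_singleton.1 hm
  have g2 := (sys_mgf (J := J2) hA {n'} c (h := h') (D := D) (E := E) hh'
    (fun m hm i => by
      rw [hsing m hm]
      exact hc' i)
    (by simp) (by simp) hD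
    (by
      have := mul_le_mul_of_nonneg_left hh (by linarith : 0 ≤ D)
      linarith)
    (fun m hm i j hj => by
      rw [hsing m hm] at *
      rw [hJ2] at hj
      exact hne n' hn2 i j (hYJ i hj))
    (fun m hm m' hm' i i' j j' hj hj' h1 => by
      have em := hsing m hm
      have em' := hsing m' hm'
      subst em
      subst em'
      rw [hJ2] at hj hj'
      exact hinj _ hn2 _ hn2 i i' j j' (hYJ i hj) (hYJ i' hj') h1)
    (fun m hm m' hm' i j hj => by
      have em := hsing m hm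
      have em' := hsing m' hm'
      subst em
      subst em'
      rw [hJ2] at hj ⊢
      exact hdeg1 _ hn2 _ _ hYJ (hdeg _ hn2 _ hn2 i j (hYJ i hj)))
    (fun m hm => by
      rw [hJ2]
      exact hE3)).2
  simp only [sum_singleton, card_singleton, Nat.cast_one, one_mul] at g2
  -- the decomposition
  obtain ⟨QX, hQX⟩ : ∃ QX : Fin r → Ω → ℝ, QX = fun i => Qs p A J1 T n' i := ⟨_, rfl⟩
  obtain ⟨QY, hQY⟩ : ∃ QY : Fin r → Ω → ℝ, QY = fun i => Qs p A J2 T n' i := ⟨_, rfl⟩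
  have hQXe : ∀ i ω, QX i ω = ∑ j ∈ X i, xi p A (T n' i j) ω := by
    intro i ω
    rw [hQX]
    simp only
    unfold Qs
    rw [e12]
  have hQYe : ∀ i ω, QY i ω = ∑ j ∈ Y i, xi p A (T n' i j) ω := by
    intro i ω
    rw [hQY]
    simp only
    unfold Qs
    rw [hJ2]
  have hQ1 : ∀ i, Qs p A J1 T n i = Qs p A J T n i := by
    intro i
    funext ω
    unfold Qs
    rw [e11]
  have hpt : ∀ ω, ∑ i, c n' i * Qs p A J T n' i ω ≤ E + (∑ i, c n' i * QX i ω + ∑ i, c n' i * QY i ω) := by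
    intro ω
    have h1 : ∀ i, c n' i * Qs p A J T n' i ω = c n' i * (∑ j ∈ Bf i, xi p A (T n' i j) ω) +
        (c n' i * QX i ω + c n' i * QY i ω) := by
      intro i
      have h2 : Qs p A J T n' i ω = QX i ω + (∑ j ∈ Bf i, xi p A (T n' i j) ω + QY i ω) := by
        rw [hQXe, hQYe]
        unfold Qs
        rw [hpart i, sum_union (hd1 i), sum_union (hd2 i)]
      rw [h2]
      ring
    rw [sum_congr rfl (fun i _ => h1 i), sum_add_distrib, sum_add_distrib]
    refine add_le_add ?_ le_rfl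
    refine le_trans ?_ hBf
    rw [card_sigma]
    push_cast
    rw [mul_sum]
    refine sum_le_sum (fun i _ => ?_)
    refine (le_abs_self _).trans ?_
    rw [abs_mul]
    refine mul_le_mul (hc' i) ?_ (abs_nonneg _) hh'
    refine (abs_sum_le_sum_abs _ _).trans ((sum_le_sum (fun j _ => xi_abs hA _ ω)).trans ?_)
    simp
  -- measurability with respect to disjoint sets
  obtain ⟨S1, hS1⟩ : ∃ S1 : Set ι, S1 = {b | (∃ i, ∃ j ∈ J n i, b ∈ T n i j) ∨ ∃ i, ∃ j ∈ X i, b ∈ T n' i j} := ⟨_, rfl⟩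
  obtain ⟨S2, hS2⟩ : ∃ S2 : Set ι, S2 = {b | ∃ i, ∃ j ∈ Y i, b ∈ T n' i j} := ⟨_, rfl⟩
  have hSd : Disjoint S1 S2 := by
    rw [Set.disjoint_left]
    intro b hb1 hb2
    rw [hS1] at hb1
    rw [hS2] at hb2
    obtain ⟨i', j', hj', hb'⟩ := hb2
    rcases hb1 with ⟨i, j, hj, hb⟩ | ⟨i, j, hj, hb⟩
    · exact (Finset.disjoint_left.1 (hYn i i' j j' hj hj')) hb hb'
    · exact (Finset.disjoint_left.1 (hYX i i' j j' hj hj')) hb hb'
  have hF1 : Measurable[F A S1] (fun ω => Real.exp (∑ i, c n i * Qs p A J T n i ω + ∑ i, c n' i * QX i ω)) := by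
    let _ : MeasurableSpace Ω := F A S1
    refine Measurable.exp (Measurable.add ?_ ?_)
    · refine Finset.measurable_fun_sum _ (fun i _ => Measurable.const_mul ?_ _)
      refine Qs_F (fun j hj b hb => ?_)
      rw [hS1]
      exact Or.inl ⟨i, j, hj, hb⟩
    · refine Finset.measurable_fun_sum _ (fun i _ => Measurable.const_mul ?_ _)
      rw [hQX]
      refine Qs_F (fun j hj b hb => ?_)
      rw [e12] at hj
      rw [hS1]
      exact Or.inr ⟨i, j, hj, hb⟩
  have hF2 : Measurable[F A S2] (fun ω => Real.exp (∑ i, c n' i * QY i ω)) := by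
    let _ : MeasurableSpace Ω := F A S2
    refine Measurable.exp ?_
    refine Finset.measurable_fun_sum _ (fun i _ => Measurable.const_mul ?_ _)
    rw [hQY]
    refine Qs_F (fun j hj b hb => ?_)
    rw [hJ2] at hj
    rw [hS2]
    exact ⟨i, j, hj, hb⟩
  have hmul := int_mul hA hSd hF1 hF2
  have hbd : ∀ (m : K) ω, |∑ i, c n' i * Qs p A J T m i ω| ≤ ∑ i, |c n' i| * (J m i).card := by
    intro m ω
    refine (abs_sum_le_sum_abs _ _).trans (sum_le_sum (fun i _ => ?_))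
    rw [abs_mul]
    exact mul_le_mul_of_nonneg_left (Qs_abs hA m i ω) (abs_nonneg _)
  have hgen : ∀ (J' : K → Fin r → Finset κ) (m : K) (a : Fin r → ℝ),
      Measurable (fun ω => ∑ i, a i * Qs p A J' T m i ω) ∧ ∃ C : ℝ, ∀ ω, |∑ i, a i * Qs p A J' T m i ω| ≤ C := by
    intro J' m a
    refine ⟨Finset.measurable_fun_sum _ (fun i _ => (Qs_meas hA m i).const_mul _), ∑ i, |a i| * (J' m i).card, fun ω => ?_⟩
    refine (abs_sum_le_sum_abs _ _).trans (sum_le_sum (fun i _ => ?_))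
    rw [abs_mul]
    exact mul_le_mul_of_nonneg_left (Qs_abs hA m i ω) (abs_nonneg _)
  obtain ⟨m1, C1, b1⟩ := hgen J n (c n)
  obtain ⟨m2, C2, b2⟩ := hgen J n' (c n')
  obtain ⟨m3, C3, b3⟩ := hgen J1 n' (c n')
  obtain ⟨m4, C4, b4⟩ := hgen J2 n' (c n')
  have hint0 : Integrable (fun ω => Real.exp (∑ i, c n i * Qs p A J T n i ω + ∑ i, c n' i * Qs p A J T n' i ω)) μ := by
    refine int_bdd (m1.add m2).exp (Real.exp (C1 + C2)) (fun ω => ?_)
    rw [abs_of_pos (Real.exp_pos _)]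
    exact Real.exp_le_exp.2 (add_le_add ((le_abs_self _).trans (b1 ω)) ((le_abs_self _).trans (b2 ω)))
  have hint1 : Integrable (fun ω => Real.exp (∑ i, c n i * Qs p A J T n i ω + ∑ i, c n' i * QX i ω) *
      Real.exp (∑ i, c n' i * QY i ω)) μ := by
    rw [hQX, hQY]
    refine int_bdd ((m1.add m3).exp.mul m4.exp) (Real.exp (C1 + C3) * Real.exp C4) (fun ω => ?_)
    rw [abs_mul, abs_of_pos (Real.exp_pos _), abs_of_pos (Real.exp_pos _)]
    refine mul_le_mul ?_ ?_ (Real.exp_pos _).le (Real.exp_pos _).le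
    · exact Real.exp_le_exp.2 (add_le_add ((le_abs_self _).trans (b1 ω)) ((le_abs_self _).trans (b3 ω)))
    · exact Real.exp_le_exp.2 ((le_abs_self _).trans (b4 ω))
  have h1 : ∫ ω, Real.exp (∑ i, c n i * Qs p A J T n i ω + ∑ i, c n' i * Qs p A J T n' i ω) ∂μ ≤
      Real.exp E * ∫ ω, Real.exp (∑ i, c n i * Qs p A J T n i ω + ∑ i, c n' i * QX i ω) *
        Real.exp (∑ i, c n' i * QY i ω) ∂μ := by
    rw [← integral_const_mul]
    refine integral_mono hint0 (hint1.const_mul _) (fun ω => ?_)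
    simp only
    rw [← Real.exp_add, ← Real.exp_add]
    refine Real.exp_le_exp.2 ?_
    have := hpt ω
    linarith
  refine h1.trans ?_
  rw [hmul]
  have g1' : ∫ ω, Real.exp (∑ i, c n i * Qs p A J T n i ω + ∑ i, c n' i * QX i ω) ∂μ ≤
      Real.exp ((∑ i, c n i ^ 2 * Vs p J T n i + ∑ i, c n' i ^ 2 * Vs p J1 T n' i) / 2 + 2 * E) := by
    have e1 : ∀ i, Vs p J1 T n i = Vs p J T n i := by
      intro i
      unfold Vs
      rw [e11]
    simp_rw [hQ1, e1] at g1
    rw [hQX]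
    exact_mod_cast g1
  have g2' : ∫ ω, Real.exp (∑ i, c n' i * QY i ω) ∂μ ≤ Real.exp ((∑ i, c n' i ^ 2 * Vs p J2 T n' i) / 2 + E) := by
    rw [hQY]
    exact g2
  have hVle : ∀ i, Vs p J1 T n' i + Vs p J2 T n' i ≤ Vs p J T n' i := by
    intro i
    unfold Vs
    rw [e12, hJ2, hpart i, sum_union (hd1 i), sum_union (hd2 i)]
    have : 0 ≤ ∑ j ∈ Bf i, vT p (T n' i j) := sum_nonneg (fun j _ => vT_nonneg hA _)
    linarith
  have hVsum : ∑ i, c n' i ^ 2 * Vs p J1 T n' i + ∑ i, c n' i ^ 2 * Vs p J2 T n' i ≤ ∑ i, c n' i ^ 2 * Vs p J T n' i := by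
    rw [← sum_add_distrib]
    refine sum_le_sum (fun i _ => ?_)
    rw [← mul_add]
    exact mul_le_mul_of_nonneg_left (hVle i) (sq_nonneg _)
  calc Real.exp E * ((∫ ω, Real.exp (∑ i, c n i * Qs p A J T n i ω + ∑ i, c n' i * QX i ω) ∂μ) *
        ∫ ω, Real.exp (∑ i, c n' i * QY i ω) ∂μ)
      ≤ Real.exp E * (Real.exp ((∑ i, c n i ^ 2 * Vs p J T n i + ∑ i, c n' i ^ 2 * Vs p J1 T n' i) / 2 + 2 * E) *
        Real.exp ((∑ i, c n' i ^ 2 * Vs p J2 T n' i) / 2 + E)) := by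
        refine mul_le_mul_of_nonneg_left ?_ (Real.exp_pos _).le
        exact mul_le_mul g1' g2' (integral_nonneg (fun _ => (Real.exp_pos _).le)) (Real.exp_pos _).le
    _ ≤ _ := by
        rw [← Real.exp_add, ← Real.exp_add]
        refine Real.exp_le_exp.2 ?_
        linarith

end Pool.Agent.Q106.CH
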