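import Pool.Agent.Q106.CH.Mk
import Pool.Agent.Q106.MD.Spec
import Pool.Agent.Q106.MD.Tr

/-!
# The normalized deviations of a system and the orthogonal sums
-/

set_option autoImplicit false

namespace Pool.Agent.Q106.CH

open Finset MeasureTheory ProbabilityTheory Filter Pool.Agent.Q120.GM Pool.Agent.Q106.UR Pool.Agent.Q106.MD
open scoped Topology

variable {Ω : Type*} [MeasurableSpace Ω] {μ : Measure Ω} [IsProbabilityMeasure μ] {ι κ K : Type*} [DecidableEq ι]
  [DecidableEq κ] [DecidableEq K] {p : ι → ℝ} {A : Ω → Set ι} {r : ℕ} {J : K → Fin r → Finset κ}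
  {T : K → Fin r → κ → Finset ι}

theorem CB.mono {N : Finset K} {D L e : ℝ} {b b' : Fin r → ℝ} {h : K → ℝ} (hB : CB p J T N D L e b h)
    (hbb : ∀ i, b' i ≤ b i) : CB p J T N D L e b' h :=
  { hB with cf := fun n hn i => (mul_le_mul_of_nonneg_right (hbb i) (Real.sqrt_nonneg _)).trans (hB.cf n hn i) }

/-- The remainders of a system. -/
theorem rem_ev {l : Filter K} {e : K → Fin r → ℝ} {e₀ L : K → ℝ} {D : ℝ} {k : ℕ} (hA : IsModel μ p A)
    (hS : PSys p l J T e e₀ L D) (hk : ∀ n i, ∀ j ∈ J n i, (T n i j).card ≤ k) {η C : ℝ} (hη : 0 < η) (hC : 0 ≤ C) :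
    ∀ᶠ n in l, μ.real {ω | ∃ i, η * Real.sqrt (2 * e n i * L n) ≤ |∑ j ∈ J n i, rem p A (T n i j) ω|} ≤
      r * (2 * Real.exp (-(C * L n))) := by
  have hD := hS.oneD
  have hD0 : 0 < D := by linarith
  obtain ⟨C₁, hC₁⟩ : ∃ C₁, C₁ = (C + 2) / η := ⟨_, rfl⟩
  have hC₁0 : 0 < C₁ := by rw [hC₁]; positivity
  have hC₁η : C₁ * η = C + 2 := by rw [hC₁]; field_simp
  obtain ⟨s, hs⟩ : ∃ s, s = 1 / ((D + k + 1) * (C₁ ^ 2 + 1)) := ⟨_, rfl⟩
  have hk0 : (0 : ℝ) ≤ k := Nat.cast_nonneg k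
  have hs0 : 0 < s := by rw [hs]; positivity
  have hs1 : s ≤ 1 := by
    rw [hs, div_le_one (by positivity)]
    nlinarith [sq_nonneg C₁]
  have hsD : (s * D + k * s ^ 2) * (C₁ ^ 2 + 1) ≤ 1 := by
    have h1 : s * ((D + k + 1) * (C₁ ^ 2 + 1)) = 1 := by rw [hs]; field_simp
    have h2 : s * D + k * s ^ 2 ≤ s * (D + k + 1) := by nlinarith [mul_nonneg hk0 hs0.le]
    have h3 := mul_le_mul_of_nonneg_right h2 (by positivity : 0 ≤ C₁ ^ 2 + 1)
    linarith
  obtain ⟨θ, hθ⟩ : ∃ θ, θ = 1 / (232 * D ^ 2 * C₁ ^ 3 + 1) := ⟨_, rfl⟩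
  have hθ0 : 0 < θ := by rw [hθ]; positivity
  have hθ1 : 232 * D ^ 2 * C₁ ^ 3 * θ ≤ 1 := by
    rw [hθ, mul_one_div, div_le_one (by positivity)]
    linarith
  filter_upwards [hS.lim.eventually_ge_atTop 1, hS.small (s ^ 2) (by positivity), hS.le,
    hS.big ((112 * D * C₁) ^ 2 + 1), hS.mean 1 one_pos, hS.rat (θ ^ 2) (by positivity)] with n hL hsm hle hbig hmean hrat
  have hL0 : 0 < L n := by linarith
  have he0 : L n ≤ e₀ n := by nlinarith [sq_nonneg (112 * D * C₁)]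
  have key : ∀ i, μ.real {ω | η * Real.sqrt (2 * e n i * L n) ≤ |∑ j ∈ J n i, rem p A (T n i j) ω|} ≤
      2 * Real.exp (-(C * L n)) := by
    intro i
    have he1 : 1 ≤ e n i := hL.trans (he0.trans (hle i))
    have he0' : 0 < e n i := by linarith
    obtain ⟨g, hg⟩ : ∃ g, g = Real.sqrt (L n / (2 * e n i)) := ⟨_, rfl⟩
    have hg0 : 0 ≤ g := by rw [hg]; exact Real.sqrt_nonneg _
    have hg2 : g ^ 2 = L n / (2 * e n i) := by rw [hg]; exact Real.sq_sqrt (by positivity)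
    have hgL : g * Real.sqrt (2 * e n i * L n) = L n := by
      rw [hg, ← Real.sqrt_mul (by positivity)]
      have : L n / (2 * e n i) * (2 * e n i * L n) = L n ^ 2 := by field_simp
      rw [this, Real.sqrt_sq hL0.le]
    have hcD : 112 * (D * (C₁ * g)) ≤ 1 := by
      by_contra hcon
      push Not at hcon
      have h1 : 1 < (112 * (D * (C₁ * g))) ^ 2 := by nlinarith
      have h2 : (112 * (D * (C₁ * g))) ^ 2 = (112 * D * C₁) ^ 2 * (L n / (2 * e n i)) := by
        rw [← hg2]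
        ring
      rw [h2, mul_div_assoc', lt_div_iff₀ (by positivity)] at h1
      have := hle i
      nlinarith
    have hM : ∑ j ∈ J n i, pT p (T n i j) ≤ 2 * e n i := by
      have h1 := (le_abs_self _).trans (hmean i)
      have h2 : Real.sqrt (e n i) ≤ e n i := by
        rw [Real.sqrt_le_left (by linarith)]
        nlinarith
      linarith
    have hJc : ((J n i).card : ℝ) ≤ ((univ.sigma (J n)).card : ℝ) := by
      rw [card_sigma]
      have : (J n i).card ≤ ∑ a, (J n a).card := single_le_sum (f := fun a => (J n a).card) (fun _ _ => Nat.zero_le _)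
        (mem_univ i)
      exact_mod_cast this
    have h1 := rem_tail hA (J n i) (T n i) (c := C₁ * g) (D := D) (s := s) (M := 2 * e n i)
      (t := η * Real.sqrt (2 * e n i * L n)) (k := k) (by positivity) hD hcD hs0 hs1 (fun j hj b hb => hsm i j hj b hb)
      (fun j hj => hS.ne n i j hj) (fun j hj => hk n i j hj) (fun j hj j' hj' h => (hS.inj n i j i j' hj hj' h).2)
      (fun j hj => by
        refine le_trans ?_ (hS.deg n i j hj)
        have h2 : (nb (T n i) (J n i) j).card ≤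
            ((univ.sigma (J n)).filter (fun x => ¬ Disjoint (T n x.1 x.2) (T n i j))).card := by
          refine card_le_card_of_injOn (fun j' => (⟨i, j'⟩ : (_ : Fin r) × κ)) ?_ ?_
          · intro j' hj'
            have hj2 : j' ∈ nb (T n i) (J n i) j := hj'
            unfold nb at hj2
            rw [mem_filter] at hj2
            rw [Finset.mem_coe, mem_filter, mem_sigma]
            exact ⟨⟨mem_univ _, hj2.1⟩, hj2.2⟩
          · intro a _ b _ hab
            simpa using hab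
        exact_mod_cast h2) hM
    refine h1.trans ?_
    refine mul_le_mul_of_nonneg_left (Real.exp_le_exp.2 ?_) (by norm_num)
    have e1 : (C₁ * g) ^ 2 / 2 * ((s * D + k * s ^ 2) * (2 * e n i)) ≤ L n := by
      have e2 : (C₁ * g) ^ 2 / 2 * ((s * D + k * s ^ 2) * (2 * e n i)) = (s * D + k * s ^ 2) * C₁ ^ 2 * L n / 2 := by
        rw [mul_pow, hg2]
        field_simp
      rw [e2]
      have e3 : (s * D + k * s ^ 2) * C₁ ^ 2 ≤ 1 := by
        have e4 : 0 ≤ s * D + k * s ^ 2 := by positivity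
        nlinarith
      nlinarith
    have e2 : 232 * (D ^ 2 * (C₁ * g) ^ 3) * ((J n i).card : ℝ) ≤ L n := by
      have e3 : g ^ 3 * ((univ.sigma (J n)).card : ℝ) ≤ θ * L n := by
        by_contra hcon
        push Not at hcon
        have h2 := pow_lt_pow_left₀ hcon (by positivity) two_ne_zero
        have h3 : (g ^ 3 * ((univ.sigma (J n)).card : ℝ)) ^ 2 = (g ^ 2) ^ 3 * ((univ.sigma (J n)).card : ℝ) ^ 2 := by ring
        rw [h3, hg2] at h2
        have h4 : (L n / (2 * e n i)) ^ 3 * ((univ.sigma (J n)).card : ℝ) ^ 2 =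
            L n ^ 2 * (L n * ((univ.sigma (J n)).card : ℝ) ^ 2) / (8 * e n i ^ 3) := by
          field_simp
          ring
        rw [h4, lt_div_iff₀ (by positivity)] at h2
        have h5 := mul_le_mul_of_nonneg_left hrat (by positivity : 0 ≤ L n ^ 2)
        have h6 : e₀ n ^ 3 ≤ e n i ^ 3 := pow_le_pow_left₀ (by linarith) (hle i) 3
        have h7 : 0 < (θ * L n) ^ 2 * e n i ^ 3 := by positivity
        have h8 : L n ^ 2 * (θ ^ 2 * e₀ n ^ 3) ≤ L n ^ 2 * (θ ^ 2 * e n i ^ 3) := by gcongr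
        nlinarith
      have e4 : 232 * (D ^ 2 * (C₁ * g) ^ 3) * ((J n i).card : ℝ) ≤
          232 * (D ^ 2 * (C₁ * g) ^ 3) * ((univ.sigma (J n)).card : ℝ) :=
        mul_le_mul_of_nonneg_left hJc (by positivity)
      have e5 : 232 * (D ^ 2 * (C₁ * g) ^ 3) * ((univ.sigma (J n)).card : ℝ) =
          232 * D ^ 2 * C₁ ^ 3 * (g ^ 3 * ((univ.sigma (J n)).card : ℝ)) := by ring
      have e6 : 232 * D ^ 2 * C₁ ^ 3 * (g ^ 3 * ((univ.sigma (J n)).card : ℝ)) ≤ 232 * D ^ 2 * C₁ ^ 3 * (θ * L n) :=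
        mul_le_mul_of_nonneg_left e3 (by positivity)
      have e7 : 232 * D ^ 2 * C₁ ^ 3 * (θ * L n) ≤ 1 * L n := by
        have := mul_le_mul_of_nonneg_right hθ1 hL0.le
        linarith
      linarith
    have e3 : C₁ * g * (η * Real.sqrt (2 * e n i * L n)) = (C + 2) * L n := by
      calc C₁ * g * (η * Real.sqrt (2 * e n i * L n)) = (C₁ * η) * (g * Real.sqrt (2 * e n i * L n)) := by ring
        _ = _ := by rw [hC₁η, hgL]
    rw [e3]
    linarith
  have h1 : {ω | ∃ i, η * Real.sqrt (2 * e n i * L n) ≤ |∑ j ∈ J n i, rem p A (T n i j) ω|} =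
      ⋃ i, {ω | η * Real.sqrt (2 * e n i * L n) ≤ |∑ j ∈ J n i, rem p A (T n i j) ω|} := by
    ext ω
    simp
  rw [h1]
  refine (measureReal_iUnion_fintype_le _).trans ((sum_le_sum (fun i _ => key i)).trans (le_of_eq ?_))
  simp

/-- The variances of a system. -/
theorem vs_close {l : Filter K} {e : K → Fin r → ℝ} {e₀ L : K → ℝ} {D : ℝ} {k : ℕ} (hA : IsModel μ p A)
    (hS : PSys p l J T e e₀ L D) (hk : ∀ n i, ∀ j ∈ J n i, (T n i j).card ≤ k) {η : ℝ} (hη : 0 < η) (hη1 : η ≤ 1) :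
    ∀ᶠ n in l, ∀ i, (1 - η) * e n i ≤ Vs p J T n i ∧ Vs p J T n i ≤ (1 + η) * e n i := by
  have hk0 : (0 : ℝ) ≤ k := Nat.cast_nonneg k
  filter_upwards [hS.lim.eventually_ge_atTop 1, hS.small (η / (2 * (k + 1))) (by positivity), hS.le,
    hS.big 1, hS.mean (η / 2) (by positivity)] with n hL hsm hle hbig hmean i
  have he1 : 1 ≤ e n i := by linarith [hle i]
  have h1 := hmean i
  have h2 : Real.sqrt (e n i) ≤ e n i := by
    rw [Real.sqrt_le_left (by linarith)]
    nlinarith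
  rw [abs_le] at h1
  have h3 : η / 2 * Real.sqrt (e n i) ≤ η / 2 * e n i := mul_le_mul_of_nonneg_left h2 (by positivity)
  have h4 : Vs p J T n i ≤ ∑ j ∈ J n i, pT p (T n i j) := sum_le_sum (fun j _ => vT_le hA _)
  have h5 : (1 - k * (η / (2 * (k + 1)))) * ∑ j ∈ J n i, pT p (T n i j) ≤ Vs p J T n i := by
    unfold Vs
    rw [mul_sum]
    exact sum_le_sum (fun j hj => le_vT hA (hsm i j hj) (by positivity) (hk n i j hj))
  have h6 : k * (η / (2 * (k + 1))) ≤ η / 2 := by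
    rw [mul_div_assoc', div_le_iff₀ (by positivity)]
    have e1 : η / 2 * (2 * ((k : ℝ) + 1)) = η * k + η := by ring
    rw [e1]
    linarith
  have h7 : 0 ≤ ∑ j ∈ J n i, pT p (T n i j) := sum_nonneg (fun j _ => pT_nonneg hA _)
  constructor
  · have e1 : (1 - η / 2) * ∑ j ∈ J n i, pT p (T n i j) ≤ Vs p J T n i := by
      refine le_trans (mul_le_mul_of_nonneg_right (by linarith) h7) h5
    have e2 : (1 - η / 2) * ((1 - η / 2) * e n i) ≤ (1 - η / 2) * ∑ j ∈ J n i, pT p (T n i j) :=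
      mul_le_mul_of_nonneg_left (by linarith) (by linarith)
    nlinarith [sq_nonneg η]
  · linarith

/-- Comparison of two normalizations. -/
theorem cmp {e ℓ V L x y d η : ℝ} (he : 0 < e) (hℓ : 0 < ℓ) (hη0 : 0 ≤ η) (hη1 : η < 1) (hV1 : (1 - η) * e ≤ V)
    (hV2 : V ≤ (1 + η) * e) (hL1 : (1 - η) * ℓ ≤ L) (hL2 : L ≤ (1 + η) * ℓ) (hy : |y| ≤ 2 * η * Real.sqrt (2 * e * ℓ)) :
    |(x + y) / Real.sqrt (2 * e * ℓ) - d| ≤ 2 * |x / Real.sqrt (2 * V * L) - d| + η * |d| + 2 * η := by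
  obtain ⟨u, hu⟩ : ∃ u, u = Real.sqrt (2 * e * ℓ) := ⟨_, rfl⟩
  obtain ⟨v, hv⟩ : ∃ v, v = Real.sqrt (2 * V * L) := ⟨_, rfl⟩
  have hu0 : 0 < u := by rw [hu]; exact Real.sqrt_pos.2 (by positivity)
  have h1η : 0 < 1 - η := by linarith
  have hV0 : 0 < V := lt_of_lt_of_le (by positivity) hV1
  have hL0 : 0 < L := lt_of_lt_of_le (by positivity) hL1
  have hv0 : 0 < v := by rw [hv]; exact Real.sqrt_pos.2 (by positivity)
  have hu2 : u ^ 2 = 2 * e * ℓ := by rw [hu]; exact Real.sq_sqrt (by positivity)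
  have hv2 : v ^ 2 = 2 * V * L := by rw [hv]; exact Real.sq_sqrt (by positivity)
  have e1 : v ≤ (1 + η) * u := by
    refine le_of_sq_le_sq ?_ (by positivity)
    rw [hv2, mul_pow, hu2]
    have : V * L ≤ ((1 + η) * e) * ((1 + η) * ℓ) := mul_le_mul hV2 hL2 hL0.le (by positivity)
    nlinarith
  have e2 : (1 - η) * u ≤ v := by
    refine le_of_sq_le_sq ?_ hv0.le
    rw [hv2, mul_pow, hu2]
    have : ((1 - η) * e) * ((1 - η) * ℓ) ≤ V * L := mul_le_mul hV1 hL1 (by positivity) hV0.le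
    nlinarith
  rw [← hu, ← hv]
  rw [← hu] at hy
  have e3 : (x + y) / u - d = (x / v - d) * (v / u) + d * (v / u - 1) + y / u := by
    field_simp
    ring
  have e4 : v / u ≤ 1 + η := by rwa [div_le_iff₀ hu0]
  have e5 : 1 - η ≤ v / u := by rwa [le_div_iff₀ hu0]
  have e6 : |v / u - 1| ≤ η := by
    rw [abs_le]
    constructor <;> linarith
  have e7 : |y / u| ≤ 2 * η := by
    rw [abs_div, abs_of_pos hu0, div_le_iff₀ hu0]
    exact hy
  rw [e3]
  refine (abs_add_le _ _).trans (add_le_add ((abs_add_le _ _).trans (add_le_add ?_ ?_)) e7)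
  · rw [abs_mul, abs_of_pos (div_pos hv0 hu0), mul_comm]
    exact mul_le_mul_of_nonneg_right (by linarith) (abs_nonneg _)
  · rw [abs_mul, mul_comm]
    exact mul_le_mul_of_nonneg_right e6 (abs_nonneg _)

end Pool.Agent.Q106.CH
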