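import Pool.Agent.Q106.CH.Seq
import Pool.Agent.Q106.MD.Cons

/-!
# The law of a sequence of vectors of deviations
-/

set_option autoImplicit false

namespace Pool.Agent.Q106.CH

open Finset MeasureTheory ProbabilityTheory Filter Pool.Agent.Q120.GM Pool.Agent.Q106.UR Pool.Agent.Q106.MD
open scoped Topology

variable {Ω : Type*} [MeasurableSpace Ω] {μ : Measure Ω} [IsProbabilityMeasure μ] {ι κ : Type*} [DecidableEq ι]
  [DecidableEq κ] {p : ι → ℝ} {A : Ω → Set ι} {r : ℕ} {J : ℕ → Fin r → Finset κ}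
  {T : ℕ → Fin r → κ → Finset ι}

/-- The conditions on the dyadic blocks. -/
def BSys (p : ι → ℝ) (J : ℕ → Fin r → Finset κ) (T : ℕ → Fin r → κ → Finset ι) (D : ℝ) : Prop :=
  ∀ B : ℝ, 0 ≤ B → ∃ e : ℕ → ℝ, Summable e ∧ ∀ᶠ m : ℕ in atTop, ∃ h : ℕ → ℝ,
    CB p J T (Ico (2 ^ m) (2 ^ (m + 1))) D (m * Real.log 2) (e m) (fun _ => B) h

theorem exp_sum {c : ℝ} (hc : 0 < c) : Summable (fun m : ℕ => Real.exp (-((m : ℝ) * Real.log 2 * c))) := by
  have h1 : -(Real.log 2 * c) < 0 := by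
    have := Real.log_pos (show (1 : ℝ) < 2 by norm_num)
    have := mul_pos this hc
    linarith
  refine (Real.summable_exp_nat_mul_iff.2 h1).congr (fun m => ?_)
  congr 1
  ring

/-- Every large block has many members near a given point. -/
theorem blk_as (hA : IsModel μ p A) {D : ℝ} (hB : BSys p J T D) (d : Fin r → ℝ) {ε : ℝ} (hε : 0 < ε)
    (hv : ∑ i, d i ^ 2 + 2 * ε * ∑ i, |d i| < 1) : ∀ᵐ ω ∂μ, ∀ᶠ m : ℕ in atTop,
    (2 : ℝ) ^ m * Real.exp (-(m * Real.log 2 * (∑ i, d i ^ 2 + 2 * ε * ∑ i, |d i|))) / 2 <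
      num (Ico (2 ^ m) (2 ^ (m + 1))) (fun n => {ω | ∀ i, |dq p A J T (m * Real.log 2) n i ω - d i| < ε}) ω := by
  obtain ⟨v, hv'⟩ : ∃ v, v = ∑ i, d i ^ 2 + 2 * ε * ∑ i, |d i| := ⟨_, rfl⟩
  rw [← hv'] at hv ⊢
  obtain ⟨B, hBd⟩ : ∃ B, B = ∑ i, (2 * |d i| + 2 * ε) := ⟨_, rfl⟩
  have hB0 : 0 ≤ B := by
    rw [hBd]
    exact sum_nonneg (fun _ _ => by positivity)
  obtain ⟨e, he1, he2⟩ := hB B hB0
  have hsum : Summable (fun m : ℕ => 32 * (Real.exp (-((m : ℝ) * Real.log 2 * (1 - v))) + 5 * e m +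
      4 * r * Real.exp (-((m : ℝ) * Real.log 2 * ε ^ 2)))) :=
    (((exp_sum (by linarith)).add (he1.mul_left 5)).add ((exp_sum (by positivity)).mul_left _)).mul_left 32
  have h1 : ∀ᶠ m : ℕ in atTop, μ.real {ω | num (Ico (2 ^ m) (2 ^ (m + 1)))
      (fun n => {ω | ∀ i, |dq p A J T (m * Real.log 2) n i ω - d i| < ε}) ω ≤
      (2 : ℝ) ^ m * Real.exp (-(m * Real.log 2 * v)) / 2} ≤
      32 * (Real.exp (-((m : ℝ) * Real.log 2 * (1 - v))) + 5 * e m +
      4 * r * Real.exp (-((m : ℝ) * Real.log 2 * ε ^ 2))) := by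
    filter_upwards [he2] with m h2
    obtain ⟨h, h3⟩ := h2
    have h4 := (h3.mono (b' := fun i => 2 * |d i| + 2 * ε) (fun i => by
      rw [hBd]
      exact single_le_sum (f := fun i => 2 * |d i| + 2 * ε) (fun _ _ => by positivity) (mem_univ i))).mg hA
    have hne : (Ico (2 ^ m) (2 ^ (m + 1))).Nonempty := by
      rw [nonempty_Ico]
      exact Nat.pow_lt_pow_right (by norm_num) (by omega)
    have h5 := block hne d hε h4
    have hcard : ((Ico (2 ^ m) (2 ^ (m + 1))).card : ℝ) = 2 ^ m := by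
      rw [Nat.card_Ico, pow_succ]
      have : 2 ^ m * 2 - 2 ^ m = 2 ^ m := by omega
      rw [this]
      push_cast
      rfl
    rw [hcard, ← hv'] at h5
    refine h5.trans (le_of_eq ?_)
    have h6 : Real.exp ((m : ℝ) * Real.log 2 * v) / 2 ^ m = Real.exp (-((m : ℝ) * Real.log 2 * (1 - v))) := by
      have h7 : (2 : ℝ) ^ m = Real.exp ((m : ℝ) * Real.log 2) := by
        rw [mul_comm, Real.exp_mul, Real.exp_log (by norm_num), Real.rpow_natCast]
      rw [h7, ← Real.exp_sub]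
      congr 1
      ring
    rw [h6]
  filter_upwards [bc hsum h1] with ω hω
  filter_upwards [hω] with m h2
  have h3 : ¬ num (Ico (2 ^ m) (2 ^ (m + 1)))
      (fun n => {ω | ∀ i, |dq p A J T (m * Real.log 2) n i ω - d i| < ε}) ω ≤
      (2 : ℝ) ^ m * Real.exp (-(m * Real.log 2 * v)) / 2 := h2
  exact not_le.1 h3

/-- The numbers of members near a given point. -/
theorem low_all (hA : IsModel μ p A) {e : ℕ → Fin r → ℝ} {e₀ : ℕ → ℝ} {D D' : ℝ} {k : ℕ}
    (hS : PSys p atTop J T e e₀ (fun n : ℕ => Real.log n) D) (hk : ∀ n i, ∀ j ∈ J n i, (T n i j).card ≤ k)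
    (hB : BSys p J T D') (d : Fin r → ℝ) (hd1 : ∑ i, d i ^ 2 < 1) {ε δ : ℝ} (hε : 0 < ε) (hδ : 0 < δ) :
    ∀ᵐ ω ∂μ, ∀ᶠ x : ℕ in atTop, (x : ℝ) ^ (1 - ∑ i, d i ^ 2 - δ) ≤
      num (range (x + 1)) (fun n => near (dev A J T e (fun n : ℕ => Real.log n)) n d ε) ω := by
  obtain ⟨v, hv⟩ : ∃ v, v = ∑ i, d i ^ 2 := ⟨_, rfl⟩
  obtain ⟨S, hSd⟩ : ∃ S, S = ∑ i, |d i| := ⟨_, rfl⟩
  have hv0 : 0 ≤ v := by rw [hv]; exact sum_nonneg (fun _ _ => sq_nonneg _)
  have hS0 : 0 ≤ S := by rw [hSd]; exact sum_nonneg (fun _ _ => abs_nonneg _)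
  rw [← hv] at hd1 ⊢
  have hlog2 := Real.log_pos (show (1 : ℝ) < 2 by norm_num)
  obtain ⟨δ', hδ'⟩ : ∃ δ', δ' = min δ (1 - v) / 4 := ⟨_, rfl⟩
  have hδ'0 : 0 < δ' := by
    rw [hδ']
    have := lt_min hδ (show 0 < 1 - v by linarith)
    positivity
  have hδ'1 : 4 * δ' ≤ δ := by
    rw [hδ']
    have := min_le_left δ (1 - v)
    linarith
  have hδ'2 : 4 * δ' ≤ 1 - v := by
    rw [hδ']
    have := min_le_right δ (1 - v)
    linarith
  obtain ⟨ε', hε'⟩ : ∃ ε', ε' = min (ε / 4) (δ' / (2 * (S + 1))) := ⟨_, rfl⟩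
  have hε'0 : 0 < ε' := by rw [hε']; exact lt_min (by positivity) (by positivity)
  have hε'1 : ε' ≤ ε / 4 := by rw [hε']; exact min_le_left _ _
  have hε'2 : 2 * ε' * S ≤ δ' := by
    have h1 : ε' ≤ δ' / (2 * (S + 1)) := by rw [hε']; exact min_le_right _ _
    rw [le_div_iff₀ (by positivity)] at h1
    nlinarith
  obtain ⟨η, hη⟩ : ∃ η, η = min (1 / 2) (ε / (4 * (S + 2))) := ⟨_, rfl⟩
  have hη0 : 0 < η := by rw [hη]; exact lt_min (by norm_num) (by positivity)
  have hη1 : η ≤ 1 / 2 := by rw [hη]; exact min_le_left _ _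
  have hη2 : η * (S + 2) ≤ ε / 4 := by
    have h1 : η ≤ ε / (4 * (S + 2)) := by rw [hη]; exact min_le_right _ _
    rw [le_div_iff₀ (by positivity)] at h1
    linarith
  have hdS : ∀ i, |d i| ≤ S := fun i => by
    rw [hSd]
    exact single_le_sum (f := fun i => |d i|) (fun _ _ => abs_nonneg _) (mem_univ i)
  -- the remainders
  have hrem : ∀ᵐ ω ∂μ, ∀ᶠ n : ℕ in atTop, ω ∉ {ω | ∃ i, η * Real.sqrt (2 * e n i * Real.log n) ≤
      |∑ j ∈ J n i, rem p A (T n i j) ω|} := by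
    refine bc ?_ (rem_ev hA hS hk hη0 (C := 2) (by norm_num))
    refine (((log_summable (a := 2)).2 (by norm_num)).mul_left ((r : ℝ) * 2)).congr (fun n => ?_)
    rw [mul_comm (Real.log n) 2, mul_assoc]
  filter_upwards [hrem, blk_as hA hB d hε'0 (by rw [← hv, ← hSd]; linarith)] with ω hω1 hω2
  rw [← hv, ← hSd] at hω2
  have hgood : ∀ᶠ n : ℕ in atTop, (∀ i, |∑ j ∈ J n i, rem p A (T n i j) ω| ≤ η * Real.sqrt (2 * e n i * Real.log n)) ∧
      (∀ i, (1 - η) * e n i ≤ Vs p J T n i ∧ Vs p J T n i ≤ (1 + η) * e n i) ∧ (∀ i, 0 < e n i) ∧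
      (∀ i, |∑ j ∈ J n i, pT p (T n i j) - e n i| ≤ η * Real.sqrt (2 * e n i * Real.log n)) := by
    filter_upwards [hω1, vs_close hA hS hk hη0 (by linarith), hS.le, hS.big 1, hS.lim.eventually_ge_atTop 1,
      hS.mean η hη0] with n h1 h2 h3 h4 h5 h6
    have h7 : ¬ ∃ i, η * Real.sqrt (2 * e n i * Real.log n) ≤ |∑ j ∈ J n i, rem p A (T n i j) ω| := h1
    push Not at h7
    have h8 : ∀ i, 0 < e n i := fun i => by linarith [h3 i]
    refine ⟨fun i => (h7 i).le, h2, h8, fun i => (h6 i).trans (mul_le_mul_of_nonneg_left (Real.sqrt_le_sqrt ?_) hη0.le)⟩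
    have := h8 i
    nlinarith
  obtain ⟨N, hN⟩ := eventually_atTop.1 hgood
  obtain ⟨m₀, hm₀⟩ := eventually_atTop.1 hω2
  obtain ⟨M, hM⟩ : ∃ M : ℕ, 1 / η ≤ M := exists_nat_ge _
  have hblk : ∀ᶠ m : ℕ in atTop, (2 : ℝ) ^ m * Real.exp (-(m * Real.log 2 * (v + δ'))) / 2 ≤
      num (Ico (2 ^ m) (2 ^ (m + 1))) (fun n => near (dev A J T e (fun n : ℕ => Real.log n)) n d ε) ω := by
    filter_upwards [hω2, eventually_ge_atTop N, eventually_ge_atTop M, eventually_ge_atTop 1] with m h1 h2 h3 h0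
    have hm0 : (1 : ℝ) ≤ m := by exact_mod_cast h0
    have h4 : (2 : ℝ) ^ m * Real.exp (-(m * Real.log 2 * (v + δ'))) / 2 ≤
        (2 : ℝ) ^ m * Real.exp (-(m * Real.log 2 * (v + 2 * ε' * S))) / 2 := by
      have h5 : Real.exp (-(m * Real.log 2 * (v + δ'))) ≤ Real.exp (-(m * Real.log 2 * (v + 2 * ε' * S))) := by
        refine Real.exp_le_exp.2 (neg_le_neg (mul_le_mul_of_nonneg_left (by linarith) (by positivity)))
      have h6 : (0 : ℝ) < 2 ^ m := by positivity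
      have := mul_le_mul_of_nonneg_left h5 h6.le
      linarith
    refine h4.trans (h1.le.trans (num_mono' (fun n hn hn' i => ?_)))
    rw [mem_Ico] at hn
    have h5 : m < 2 ^ m := Nat.lt_two_pow_self
    obtain ⟨g1, g2, g3, g4⟩ := hN n (by omega)
    have h6 : |dq p A J T (m * Real.log 2) n i ω - d i| < ε' := hn' i
    have hn1 : (2 : ℝ) ^ m ≤ n := by exact_mod_cast hn.1
    have hn2 : (n : ℝ) ≤ 2 ^ (m + 1) := by exact_mod_cast hn.2.le
    have hn0 : (0 : ℝ) < n := lt_of_lt_of_le (by positivity) hn1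
    have hl1 : m * Real.log 2 ≤ Real.log n := by
      rw [← Real.log_pow]
      exact Real.log_le_log (by positivity) hn1
    have hl2 : Real.log n ≤ (m + 1) * Real.log 2 := by
      have := Real.log_le_log hn0 hn2
      rw [Real.log_pow] at this
      push_cast at this
      exact this
    have hmη : 1 ≤ η * m := by
      have h7 : (M : ℝ) ≤ m := by exact_mod_cast h3
      have h8 : 1 / η ≤ m := hM.trans h7
      rw [div_le_iff₀ hη0] at h8
      linarith
    have hL2 : m * Real.log 2 ≤ (1 + η) * Real.log n := by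
      have : 0 ≤ η * Real.log n := mul_nonneg hη0.le (le_trans (by positivity) hl1)
      linarith
    have hL1 : (1 - η) * Real.log n ≤ m * Real.log 2 := by
      have e1 : (1 - η) * Real.log n ≤ (1 - η) * ((m + 1) * Real.log 2) := mul_le_mul_of_nonneg_left hl2 (by linarith)
      have e2 : (1 - η) * ((m : ℝ) + 1) ≤ m := by nlinarith
      have e3 := mul_le_mul_of_nonneg_right e2 hlog2.le
      linarith
    have h7 := cmp (e := e n i) (ℓ := Real.log n) (V := Vs p J T n i) (L := m * Real.log 2) (x := Qs p A J T n i ω)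
      (y := ∑ j ∈ J n i, rem p A (T n i j) ω + (∑ j ∈ J n i, pT p (T n i j) - e n i)) (d := d i) (g3 i)
      (by
        have : 0 < m * Real.log 2 := by positivity
        linarith) hη0.le (by linarith) (g2 i).1 (g2 i).2 hL1 hL2 (by
        refine (abs_add_le _ _).trans ?_
        linarith [g1 i, g4 i])
    have h8 : Qs p A J T n i ω + (∑ j ∈ J n i, rem p A (T n i j) ω + (∑ j ∈ J n i, pT p (T n i j) - e n i)) =
        nm A (J n i) (T n i) ω - e n i := by
      have e1 : nm A (J n i) (T n i) ω = ∑ j ∈ J n i, (pT p (T n i j) + xi p A (T n i j) ω + rem p A (T n i j) ω) := by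
        refine sum_congr rfl (fun j _ => ?_)
        unfold rem
        ring
      rw [e1, sum_add_distrib, sum_add_distrib]
      unfold Qs
      ring
    rw [h8] at h7
    show |dev A J T e (fun n : ℕ => Real.log n) n i ω - d i| < ε
    have h9 : dev A J T e (fun n : ℕ => Real.log n) n i ω = (nm A (J n i) (T n i) ω - e n i) / Real.sqrt (2 * e n i * Real.log n) := rfl
    rw [h9]
    refine lt_of_le_of_lt h7 ?_
    have h10 : Qs p A J T n i ω / Real.sqrt (2 * Vs p J T n i * (m * Real.log 2)) = dq p A J T (m * Real.log 2) n i ω := rfl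
    rw [h10]
    have h11 : η * |d i| ≤ η * S := mul_le_mul_of_nonneg_left (hdS i) hη0.le
    linarith
  -- from the blocks to the initial segments
  obtain ⟨σ, hσ⟩ : ∃ σ, σ = 1 - v - δ' := ⟨_, rfl⟩
  have hσ0 : 0 < σ := by rw [hσ]; linarith
  obtain ⟨τ, hτ⟩ : ∃ τ, τ = max (1 - v - δ) (σ / 2) := ⟨_, rfl⟩
  have hτ0 : 0 < τ := by rw [hτ]; exact lt_max_of_lt_right (by positivity)
  have hτσ : τ < σ := by rw [hτ]; exact max_lt (by linarith) (by linarith)
  have hgrow : ∀ᶠ m : ℕ in atTop, ((2 : ℝ) ^ (m + 2)) ^ τ ≤ (2 : ℝ) ^ m * Real.exp (-(m * Real.log 2 * (v + δ'))) / 2 := by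
    have h1 : Tendsto (fun m : ℕ => Real.exp (m * (Real.log 2 * (σ - τ)))) atTop atTop :=
      Real.tendsto_exp_atTop.comp (tendsto_natCast_atTop_atTop.atTop_mul_const (mul_pos hlog2 (by linarith)))
    filter_upwards [h1.eventually_ge_atTop (2 * Real.exp (2 * Real.log 2 * τ))] with m h2
    have h3 : ∀ j : ℕ, (2 : ℝ) ^ j = Real.exp ((j : ℝ) * Real.log 2) := by
      intro j
      rw [mul_comm, Real.exp_mul, Real.exp_log (by norm_num), Real.rpow_natCast]
    have h4 : ((2 : ℝ) ^ (m + 2)) ^ τ = Real.exp (m * Real.log 2 * τ) * Real.exp (2 * Real.log 2 * τ) := by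
      rw [h3, ← Real.exp_mul, ← Real.exp_add]
      congr 1
      push_cast
      ring
    have h5 : (2 : ℝ) ^ m * Real.exp (-(m * Real.log 2 * (v + δ'))) =
        Real.exp (m * Real.log 2 * τ) * Real.exp (m * (Real.log 2 * (σ - τ))) := by
      rw [h3, ← Real.exp_add, ← Real.exp_add]
      congr 1
      rw [hσ]
      ring
    rw [h4, h5]
    have h6 := Real.exp_pos (m * Real.log 2 * τ)
    have h7 := mul_le_mul_of_nonneg_left h2 h6.le
    linarith
  obtain ⟨m₁, hm₁⟩ := eventually_atTop.1 (hblk.and hgrow)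
  filter_upwards [eventually_ge_atTop (2 ^ (m₁ + 1))] with x hx
  obtain ⟨m, hm⟩ : ∃ m, m = Nat.log 2 x - 1 := ⟨_, rfl⟩
  have hx0 : x ≠ 0 := by
    have : 0 < 2 ^ (m₁ + 1) := by positivity
    omega
  have hlogx : m₁ + 1 ≤ Nat.log 2 x := Nat.le_log_of_pow_le (by norm_num) hx
  have hmm : Nat.log 2 x = m + 1 := by omega
  have h1 : 2 ^ (m + 1) ≤ x := by
    rw [← hmm]
    exact Nat.pow_log_le_self 2 hx0
  have h2 : x < 2 ^ (m + 2) := by
    have := Nat.lt_pow_succ_log_self (b := 2) (by norm_num) x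
    rwa [hmm] at this
  obtain ⟨h3, h4⟩ := hm₁ m (by omega)
  have hx1 : (1 : ℝ) ≤ x := by exact_mod_cast Nat.one_le_iff_ne_zero.2 hx0
  have h5 : (x : ℝ) ^ (1 - v - δ) ≤ (x : ℝ) ^ τ := Real.rpow_le_rpow_of_exponent_le hx1 (by rw [hτ]; exact le_max_left _ _)
  have h6 : (x : ℝ) ^ τ ≤ ((2 : ℝ) ^ (m + 2)) ^ τ := by
    refine Real.rpow_le_rpow (by linarith) ?_ hτ0.le
    exact_mod_cast h2.le
  refine (h5.trans (h6.trans (h4.trans h3))).trans (num_mono ?_ _ _)
  intro n hn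
  rw [mem_Ico] at hn
  rw [mem_range]
  omega

end Pool.Agent.Q106.CH
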